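import Mathlib
import Pool.Agent.H359R3.MX4

set_option autoImplicit false
set_option linter.unusedSectionVars false
set_option linter.unusedVariables false

/-!
Random perturbations of permutation valued functions, seen through a transitive action `ρ` of the
symmetric group on a finite set (adapted from `Pool.H359R3.MX`, where `ρ` is the identity).
-/

namespace Pool.Agent.Q132.SM

open MeasureTheory Set Filter Topology
open scoped ENNReal
open Pool.H359R3.MX

variable {X : Type*} {N n : ℕ}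

/-- transitivity of `ρ`, in averaged form -/
def Tr (ρ : Equiv.Perm (Fin N) →* Equiv.Perm (Fin n)) : Prop :=
  ∀ (h : Fin n → ℝ) (b : Fin n), (n : ℝ) * ∑ τ : Equiv.Perm (Fin N), h (ρ τ b) =
    (Fintype.card (Equiv.Perm (Fin N)) : ℝ) * ∑ a, h a

/-- the composite -/
def rc (ρ : Equiv.Perm (Fin N) →* Equiv.Perm (Fin n)) (φ : X → Equiv.Perm (Fin N)) : X → Equiv.Perm (Fin n) :=
  fun x => ρ (φ x)

theorem coc_rho (ρ : Equiv.Perm (Fin N) →* Equiv.Perm (Fin n)) (T : X → X) (φ : X → Equiv.Perm (Fin N))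
    (d : ℕ) (x : X) : coc T (rc ρ φ) d x = ρ (coc T φ d x) := by
  induction d with
  | zero => rw [coc_zero, coc_zero, map_one]
  | succ d ih => rw [coc_succ, coc_succ, ih, map_mul]; rfl

theorem rc_ms [MeasurableSpace X] (ρ : Equiv.Perm (Fin N) →* Equiv.Perm (Fin n)) (φ : X → Equiv.Perm (Fin N))
    (hφ : Ms φ) : Ms (rc ρ φ) := by
  intro a
  apply measurable_to_countable'
  intro b
  have h1 : (fun x => rc ρ φ x a) ⁻¹' {b} = ⋃ τ : Equiv.Perm (Fin N), ({x | φ x = τ} ∩ {_x | ρ τ a = b}) := by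
    ext x
    simp only [mem_preimage, mem_singleton_iff, mem_iUnion, mem_inter_iff, mem_ofPred_eq]
    constructor
    · intro h
      exact ⟨φ x, rfl, h⟩
    · rintro ⟨τ, h, h'⟩
      show ρ (φ x) a = b
      rw [h, h']
  rw [h1]
  refine MeasurableSet.iUnion (fun τ => MeasurableSet.inter ?_ (MeasurableSet.const _))
  have h2 : {x | φ x = τ} = ⋂ a : Fin N, (fun x => φ x a) ⁻¹' {τ a} := by
    ext x
    simp only [mem_ofPred_eq, mem_iInter, mem_preimage, mem_singleton_iff]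
    exact Equiv.ext_iff
  rw [h2]
  exact MeasurableSet.iInter (fun a => (hφ a) (measurableSet_singleton _))

section rand

variable {C : Type*} [Fintype C] [DecidableEq C]

/-- averaging over the value on a cell hit exactly once kills the deviation -/
theorem rkill [NeZero n] (ρ : Equiv.Perm (Fin N) →* Equiv.Perm (Fin n)) (hρ : Tr ρ) (T : X → X)
    (g : X → Fin n → ℝ) (φ0 : X → Equiv.Perm (Fin N)) (A : Set X) (q : X → C)
    (σ : C → Equiv.Perm (Fin N)) (c : C) (d : ℕ) (x : X) (j : ℕ) (hj : j < d)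
    (hA : T^[j] x ∈ A) (hc : q (T^[j] x) = c)
    (h : ∀ j' < d, j' ≠ j → ¬ (T^[j'] x ∈ A ∧ q (T^[j'] x) = c)) :
    ∑ τ : Equiv.Perm (Fin N), dev T g d (rc ρ (pert φ0 A q (σ * Pi.mulSingle c τ))) x = 0 := by
  obtain ⟨P, Q, hPQ⟩ := coc_hit T φ0 A q σ c d x j hj hA hc h
  have hn : (0 : ℝ) < n := by exact_mod_cast NeZero.pos n
  unfold dev
  rw [Finset.sum_sub_distrib, Finset.sum_const, ← Finset.mul_sum, Finset.sum_comm]
  have h1 : ∀ a : Fin n, (n : ℝ) * ∑ τ : Equiv.Perm (Fin N),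
      g (T^[d] x) (coc T (rc ρ (pert φ0 A q (σ * Pi.mulSingle c τ))) d x a) * g x a =
      ((Fintype.card (Equiv.Perm (Fin N)) : ℝ) * ∑ a', g (T^[d] x) a') * g x a := by
    intro a
    rw [← Finset.sum_mul, ← mul_assoc]
    congr 1
    have h2 := hρ (fun b => g (T^[d] x) (ρ P b)) (ρ Q a)
    have h3 : ∑ a', g (T^[d] x) (ρ P a') = ∑ a', g (T^[d] x) a' := Equiv.sum_comp (ρ P) (fun b => g (T^[d] x) b)
    rw [h3] at h2
    rw [← h2]
    congr 1
    apply Finset.sum_congr rfl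
    intro τ _
    rw [coc_rho, hPQ τ, map_mul, map_mul]
    rfl
  have h4 : (n : ℝ) * ∑ a : Fin n, ∑ τ : Equiv.Perm (Fin N),
      g (T^[d] x) (coc T (rc ρ (pert φ0 A q (σ * Pi.mulSingle c τ))) d x a) * g x a =
      ((Fintype.card (Equiv.Perm (Fin N)) : ℝ) * ∑ a', g (T^[d] x) a') * ∑ a, g x a := by
    rw [Finset.mul_sum, Finset.sum_congr rfl (fun a _ => h1 a), ← Finset.mul_sum]
  unfold bar
  rw [Finset.card_univ, nsmul_eq_mul]
  have h5 : ∑ a : Fin n, ∑ τ : Equiv.Perm (Fin N),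
      g (T^[d] x) (coc T (rc ρ (pert φ0 A q (σ * Pi.mulSingle c τ))) d x a) * g x a =
      (1 / (n : ℝ)) * (((Fintype.card (Equiv.Perm (Fin N)) : ℝ) * ∑ a', g (T^[d] x) a') * ∑ a, g x a) := by
    rw [← h4]
    field_simp
  rw [h5]
  ring

theorem rsame (ρ : Equiv.Perm (Fin N) →* Equiv.Perm (Fin n)) (T : X → X) (g : X → Fin n → ℝ)
    (φ0 : X → Equiv.Perm (Fin N)) (A : Set X) (q : X → C)
    (σ : C → Equiv.Perm (Fin N)) (c : C) (τ : Equiv.Perm (Fin N)) (d : ℕ) (x : X)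
    (h : ∀ j < d, ¬ (T^[j] x ∈ A ∧ q (T^[j] x) = c)) :
    dev T g d (rc ρ (pert φ0 A q (σ * Pi.mulSingle c τ))) x = dev T g d (rc ρ (pert φ0 A q σ)) x := by
  unfold dev
  rw [coc_rho, coc_rho, coc_same T φ0 A q σ c τ d x h]

/-- decorrelation -/
theorem rorth [NeZero n] (ρ : Equiv.Perm (Fin N) →* Equiv.Perm (Fin n)) (hρ : Tr ρ) (T : X → X) (g : X → Fin n → ℝ) (φ0 : X → Equiv.Perm (Fin N)) (A : Set X) (q : X → C)
    (d : ℕ) (x x' : X) (j : ℕ) (hj : j < d) (hA : T^[j] x ∈ A)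
    (h : ∀ j' < d, j' ≠ j → q (T^[j'] x) ≠ q (T^[j] x))
    (h' : ∀ j' < d, q (T^[j'] x') ≠ q (T^[j] x)) :
    ∑ σ : C → Equiv.Perm (Fin N), dev T g d (rc ρ (pert φ0 A q σ)) x * dev T g d (rc ρ (pert φ0 A q σ)) x' = 0 := by
  set c := q (T^[j] x) with hc
  have h1 : ∀ τ : Equiv.Perm (Fin N),
      ∑ σ : C → Equiv.Perm (Fin N), dev T g d (rc ρ (pert φ0 A q σ)) x * dev T g d (rc ρ (pert φ0 A q σ)) x' =
      ∑ σ : C → Equiv.Perm (Fin N), dev T g d (rc ρ (pert φ0 A q (σ * Pi.mulSingle c τ))) x * dev T g d (rc ρ (pert φ0 A q σ)) x' := by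
    intro τ
    rw [← Equiv.sum_comp (Equiv.mulRight (Pi.mulSingle c τ : C → Equiv.Perm (Fin N)))]
    apply Finset.sum_congr rfl
    intro σ _
    rw [Equiv.coe_mulRight]
    rw [rsame ρ T g φ0 A q σ c τ d x' (fun j' hj' hh => h' j' hj' hh.2)]
  have h2 : ∑ τ : Equiv.Perm (Fin N),
      ∑ σ : C → Equiv.Perm (Fin N), dev T g d (rc ρ (pert φ0 A q σ)) x * dev T g d (rc ρ (pert φ0 A q σ)) x' = 0 := by
    rw [Finset.sum_congr rfl (fun τ _ => h1 τ), Finset.sum_comm]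
    apply Finset.sum_eq_zero
    intro σ _
    rw [← Finset.sum_mul, rkill ρ hρ T g φ0 A q σ c d x j hj hA hc.symm (fun j' hj' hne hh => h j' hj' hne hh.2), zero_mul]
  rw [Finset.sum_const, nsmul_eq_mul] at h2
  rcases mul_eq_zero.1 h2 with h3 | h3
  · exfalso
    have : (Finset.univ : Finset (Equiv.Perm (Fin N))).card ≠ 0 := by
      rw [Finset.card_univ]
      exact Fintype.card_ne_zero
    exact this (by exact_mod_cast h3)
  · exact h3

end rand

variable [MeasurableSpace X] (μ : Measure X) [IsProbabilityMeasure μ]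

theorem rsecond {C : Type*} [Fintype C] [DecidableEq C] [MeasurableSpace C] [MeasurableSingletonClass C]
    [NeZero n] (ρ : Equiv.Perm (Fin N) →* Equiv.Perm (Fin n)) (hρ : Tr ρ) (T : X → X) (hT : Measurable T) (g : X → Fin n → ℝ) (hg : ∀ a, Measurable fun x => g x a)
    (hg0 : ∀ x a, 0 ≤ g x a) (hg1 : ∀ x a, g x a ≤ 1)
    (φ0 : X → Equiv.Perm (Fin N)) (h0 : Ms φ0) (A : Set X) (hA : MeasurableSet A) (q : X → C) (hq : Measurable q)
    (d : ℕ) (W : Set (X × X)) (hW : MeasurableSet W) (hWG : (Good T A q d)ᶜ ⊆ W) :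
    ∑ σ : C → Equiv.Perm (Fin N), (∫ x, dev T g d (rc ρ (pert φ0 A q σ)) x ∂μ) ^ 2 ≤
      (Fintype.card (C → Equiv.Perm (Fin N)) : ℝ) * (μ.prod μ).real W := by
  classical
  have hm : ∀ σ, Measurable (dev T g d (rc ρ (pert φ0 A q σ))) := fun σ =>
    dev_meas T hT g hg _ (rc_ms ρ _ (pert_ms φ0 h0 A hA q hq σ)) d
  have hab := fun (σ : C → Equiv.Perm (Fin N)) (x : X) => dev_abs T g hg0 hg1 d (rc ρ (pert φ0 A q σ)) x
  have h1 : ∀ σ, (∫ x, dev T g d (rc ρ (pert φ0 A q σ)) x ∂μ) ^ 2 =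
      ∫ p : X × X, dev T g d (rc ρ (pert φ0 A q σ)) p.1 * dev T g d (rc ρ (pert φ0 A q σ)) p.2 ∂(μ.prod μ) := by
    intro σ
    rw [sq, ← integral_prod_mul]
  rw [Finset.sum_congr rfl (fun σ _ => h1 σ), ← integral_finset_sum]
  · have h2 : ∀ p : X × X, ∑ σ : C → Equiv.Perm (Fin N),
        dev T g d (rc ρ (pert φ0 A q σ)) p.1 * dev T g d (rc ρ (pert φ0 A q σ)) p.2 ≤
        W.indicator (fun _ => (Fintype.card (C → Equiv.Perm (Fin N)) : ℝ)) p := by
      intro p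
      by_cases hp : p ∈ Good T A q d
      · obtain ⟨j, hj, hjA, h3, h4⟩ := hp
        rw [rorth ρ hρ T g φ0 A q d p.1 p.2 j hj hjA h3 h4]
        apply indicator_nonneg
        intro _ _
        positivity
      · rw [indicator_of_mem (hWG hp)]
        calc ∑ σ : C → Equiv.Perm (Fin N),
            dev T g d (rc ρ (pert φ0 A q σ)) p.1 * dev T g d (rc ρ (pert φ0 A q σ)) p.2 ≤
            ∑ σ : C → Equiv.Perm (Fin N), (1 : ℝ) := by
              apply Finset.sum_le_sum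
              intro σ _
              have h5 := hab σ p.1
              have h6 := hab σ p.2
              calc _ ≤ |dev T g d (rc ρ (pert φ0 A q σ)) p.1 * dev T g d (rc ρ (pert φ0 A q σ)) p.2| := le_abs_self _
                _ = |dev T g d (rc ρ (pert φ0 A q σ)) p.1| * |dev T g d (rc ρ (pert φ0 A q σ)) p.2| := abs_mul _ _
                _ ≤ 1 := mul_le_one₀ h5 (abs_nonneg _) h6
          _ = _ := by rw [Finset.sum_const, Finset.card_univ, nsmul_eq_mul, mul_one]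
    calc _ ≤ ∫ p, W.indicator (fun _ => (Fintype.card (C → Equiv.Perm (Fin N)) : ℝ)) p ∂(μ.prod μ) := by
          apply integral_mono
          · refine integrable_of_abs_le _ (Finset.measurable_sum _ (fun σ _ =>
              ((hm σ).comp measurable_fst).mul ((hm σ).comp measurable_snd)))
              (Fintype.card (C → Equiv.Perm (Fin N)) : ℝ) (fun p => ?_)
            calc |∑ σ : C → Equiv.Perm (Fin N), dev T g d (rc ρ (pert φ0 A q σ)) p.1 * dev T g d (rc ρ (pert φ0 A q σ)) p.2| ≤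
                ∑ σ : C → Equiv.Perm (Fin N), |dev T g d (rc ρ (pert φ0 A q σ)) p.1 * dev T g d (rc ρ (pert φ0 A q σ)) p.2| :=
                  Finset.abs_sum_le_sum_abs _ _
              _ ≤ ∑ σ : C → Equiv.Perm (Fin N), (1 : ℝ) := by
                  apply Finset.sum_le_sum
                  intro σ _
                  rw [abs_mul]
                  exact mul_le_one₀ (hab σ p.1) (abs_nonneg _) (hab σ p.2)
              _ = _ := by rw [Finset.sum_const, Finset.card_univ, nsmul_eq_mul, mul_one]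
          · exact (integrable_const _).indicator hW
          · exact h2
      _ = _ := by
          rw [integral_indicator hW, setIntegral_const, smul_eq_mul, mul_comm]
  · intro σ _
    refine integrable_of_abs_le _ (((hm σ).comp measurable_fst).mul ((hm σ).comp measurable_snd)) 1 (fun p => ?_)
    show |dev T g d (rc ρ (pert φ0 A q σ)) p.1 * dev T g d (rc ρ (pert φ0 A q σ)) p.2| ≤ 1
    rw [abs_mul]
    exact mul_le_one₀ (hab σ p.1) (abs_nonneg _) (hab σ p.2)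

theorem rwm_exists [NeZero n] (ρ : Equiv.Perm (Fin N) →* Equiv.Perm (Fin n)) (hρ : Tr ρ) (T : X → X) (hT : MeasurePreserving T μ μ) (A : Set X) (hA : MeasurableSet A)
    (hhit : ∀ η : ℝ, 0 < η → ∃ l0 : ℕ, ∀ d ≥ l0, μ.real {x | ∀ j < d, T^[j] x ∉ A} ≤ η)
    (hcell : ∀ (L : ℕ) (κ : ℝ), 0 < κ → ∃ (r : ℕ) (q : X → Fin r → Bool), Measurable q ∧
      (∀ e, 1 ≤ e → e < L → μ.real {x | q x = q (T^[e] x)} ≤ κ) ∧
      (μ.prod μ).real {p : X × X | q p.1 = q p.2} ≤ κ)
    {ι : Type*} [Fintype ι] (g : ι → X → Fin n → ℝ) (hg : ∀ i a, Measurable fun x => g i x a)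
    (hg0 : ∀ i x a, 0 ≤ g i x a) (hg1 : ∀ i x a, g i x a ≤ 1)
    (hβ : ∀ i, Tendsto (fun d : ℕ => ∫ x, bar (g i) (T^[d] x) * bar (g i) x ∂μ) atTop
      (𝓝 ((∫ x, bar (g i) x ∂μ) ^ 2)))
    (φ0 : X → Equiv.Perm (Fin N)) (h0 : Ms φ0) (ε : ℝ) (hε : 0 < ε) :
    ∃ φ : X → Equiv.Perm (Fin N), Ms φ ∧ (∀ x ∉ A, φ x = φ0 x) ∧ ∃ L : ℕ, 0 < L ∧
      ∑ i, ∑ d ∈ Finset.range L, (gam μ T (g i) (rc ρ φ) d - (∫ x, bar (g i) x ∂μ) ^ 2) ^ 2 ≤ ε * L := by
  classical
  set K : ℝ := (Fintype.card ι : ℝ) with hK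
  have hK0 : 0 ≤ K := by rw [hK]; positivity
  obtain ⟨η, hη0, hη1, hηε⟩ : ∃ η : ℝ, 0 < η ∧ η ≤ 1 ∧ 10 * K * η ≤ ε := by
    refine ⟨min 1 (ε / (10 * (K + 1))), lt_min one_pos (by positivity), min_le_left _ _, ?_⟩
    have h1 : min 1 (ε / (10 * (K + 1))) ≤ ε / (10 * (K + 1)) := min_le_right _ _
    calc 10 * K * min 1 (ε / (10 * (K + 1))) ≤ 10 * (K + 1) * (ε / (10 * (K + 1))) := by
          gcongr
          linarith
      _ = ε := by field_simp
  obtain ⟨l0, hl0⟩ := hhit η hη0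
  have h1 : ∀ i, ∃ l1 : ℕ, ∀ d ≥ l1, |(∫ x, bar (g i) (T^[d] x) * bar (g i) x ∂μ) - (∫ x, bar (g i) x ∂μ) ^ 2| ≤ η := by
    intro i
    have h2 := Metric.tendsto_atTop.1 (hβ i) η hη0
    obtain ⟨l1, hl1⟩ := h2
    refine ⟨l1, fun d hd => ?_⟩
    have h3 := hl1 d hd
    rw [Real.dist_eq] at h3
    exact h3.le
  choose l1 hl1 using h1
  set l2 := l0 + ∑ i, l1 i with hl2
  obtain ⟨L0, hL0⟩ := exists_nat_gt ((l2 : ℝ) / η)
  set L := L0 + 1 with hL
  have hLpos : 0 < L := by omega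
  have hLr : (0 : ℝ) < L := by exact_mod_cast hLpos
  have hl2L : (l2 : ℝ) ≤ η * L := by
    rw [div_lt_iff₀ hη0] at hL0
    have : (L : ℝ) = L0 + 1 := by rw [hL]; push_cast; ring
    rw [this]
    nlinarith
  obtain ⟨r, q, hq, hκ1, hκ2⟩ := hcell L (η / (2 * (L : ℝ) ^ 2)) (by positivity)
  set Ω : ℝ := (Fintype.card ((Fin r → Bool) → Equiv.Perm (Fin N)) : ℝ) with hΩ
  have hΩ0 : 0 < Ω := by
    rw [hΩ]
    exact_mod_cast Fintype.card_pos
  have hsm : ∀ i, ∀ d ∈ Finset.range L, ∑ σ : (Fin r → Bool) → Equiv.Perm (Fin N),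
      (gam μ T (g i) (rc ρ (pert φ0 A q σ)) d - ∫ x, bar (g i) (T^[d] x) * bar (g i) x ∂μ) ^ 2 ≤
      Ω * (μ.real {x | ∀ j < d, T^[j] x ∉ A} + η) := by
    intro i d hd
    rw [Finset.mem_range] at hd
    obtain ⟨W, hW, hWG, hWm⟩ := bad_small μ T hT A hA q hq L _ hκ1 hκ2 d hd.le
    have h2 := rsecond μ ρ hρ T hT.measurable (g i) (hg i) (hg0 i) (hg1 i) φ0 h0 A hA q hq d W hW hWG
    have h3 : ∀ σ : (Fin r → Bool) → Equiv.Perm (Fin N), ∫ x, dev T (g i) d (rc ρ (pert φ0 A q σ)) x ∂μ =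
        gam μ T (g i) (rc ρ (pert φ0 A q σ)) d - ∫ x, bar (g i) (T^[d] x) * bar (g i) x ∂μ := fun σ =>
      int_dev μ T hT.measurable (g i) (hg i) (hg0 i) (hg1 i) _ (rc_ms ρ _ (pert_ms φ0 h0 A hA q hq σ)) d
    simp_rw [h3] at h2
    refine le_trans h2 ?_
    gcongr
    have h4 : 2 * (L : ℝ) ^ 2 * (η / (2 * (L : ℝ) ^ 2)) = η := by field_simp
    rw [h4] at hWm
    exact hWm
  -- sum over i and d
  have htot : ∑ σ : (Fin r → Bool) → Equiv.Perm (Fin N), ∑ i, ∑ d ∈ Finset.range L,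
      (gam μ T (g i) (rc ρ (pert φ0 A q σ)) d - ∫ x, bar (g i) (T^[d] x) * bar (g i) x ∂μ) ^ 2 ≤
      Ω * (3 * K * η * L) := by
    rw [Finset.sum_comm]
    have h5 : ∀ i, ∑ σ : (Fin r → Bool) → Equiv.Perm (Fin N), ∑ d ∈ Finset.range L,
        (gam μ T (g i) (rc ρ (pert φ0 A q σ)) d - ∫ x, bar (g i) (T^[d] x) * bar (g i) x ∂μ) ^ 2 ≤ Ω * (3 * η * L) := by
      intro i
      rw [Finset.sum_comm]
      refine le_trans (Finset.sum_le_sum (hsm i)) ?_
      rw [← Finset.mul_sum]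
      gcongr
      rw [Finset.sum_add_distrib, Finset.sum_const, Finset.card_range, nsmul_eq_mul]
      have h6 : ∑ d ∈ Finset.range L, μ.real {x | ∀ j < d, T^[j] x ∉ A} ≤ l2 + L * η := by
        have h7 : ∀ d ∈ Finset.range L, μ.real {x | ∀ j < d, T^[j] x ∉ A} ≤ (if d < l2 then 1 else 0) + η := by
          intro d _
          split_ifs with h
          · have : μ.real {x | ∀ j < d, T^[j] x ∉ A} ≤ 1 := measureReal_le_one
            linarith
          · have : l0 ≤ d := by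
              have : l0 ≤ l2 := by rw [hl2]; omega
              omega
            have := hl0 d this
            linarith
        refine le_trans (Finset.sum_le_sum h7) ?_
        rw [Finset.sum_add_distrib, Finset.sum_const, Finset.card_range, nsmul_eq_mul]
        have h8 : ∑ d ∈ Finset.range L, (if d < l2 then (1 : ℝ) else 0) ≤ l2 := by
          rw [← Finset.sum_filter, Finset.sum_const, nsmul_eq_mul, mul_one]
          have : (Finset.filter (fun d => d < l2) (Finset.range L)).card ≤ l2 := by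
            calc _ ≤ (Finset.range l2).card := Finset.card_le_card (fun d hd => by
                  rw [Finset.mem_filter] at hd; rw [Finset.mem_range]; exact hd.2)
              _ = l2 := Finset.card_range _
          exact_mod_cast this
        linarith
      nlinarith
    refine le_trans (Finset.sum_le_sum (fun i _ => h5 i)) ?_
    rw [Finset.sum_const, Finset.card_univ, nsmul_eq_mul]
    apply le_of_eq
    rw [hK]
    ring
  obtain ⟨σ, hσ⟩ : ∃ σ : (Fin r → Bool) → Equiv.Perm (Fin N), ∑ i, ∑ d ∈ Finset.range L,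
      (gam μ T (g i) (rc ρ (pert φ0 A q σ)) d - ∫ x, bar (g i) (T^[d] x) * bar (g i) x ∂μ) ^ 2 ≤ 3 * K * η * L := by
    by_contra hcon
    push Not at hcon
    have h9 : ∑ σ : (Fin r → Bool) → Equiv.Perm (Fin N), (3 * K * η * L) <
        ∑ σ : (Fin r → Bool) → Equiv.Perm (Fin N), ∑ i, ∑ d ∈ Finset.range L,
      (gam μ T (g i) (rc ρ (pert φ0 A q σ)) d - ∫ x, bar (g i) (T^[d] x) * bar (g i) x ∂μ) ^ 2 :=
      Finset.sum_lt_sum_of_nonempty Finset.univ_nonempty (fun σ _ => hcon σ)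
    rw [Finset.sum_const, Finset.card_univ, nsmul_eq_mul] at h9
    linarith
  refine ⟨pert φ0 A q σ, pert_ms φ0 h0 A hA q hq σ, fun x hx => ?_, L, hLpos, ?_⟩
  · unfold pert
    rw [if_neg hx]
  · -- the mixing part
    have hb : ∑ i, ∑ d ∈ Finset.range L,
        ((∫ x, bar (g i) (T^[d] x) * bar (g i) x ∂μ) - (∫ x, bar (g i) x ∂μ) ^ 2) ^ 2 ≤ 2 * K * η * L := by
      have h10 : ∀ i, ∑ d ∈ Finset.range L,
          ((∫ x, bar (g i) (T^[d] x) * bar (g i) x ∂μ) - (∫ x, bar (g i) x ∂μ) ^ 2) ^ 2 ≤ 2 * η * L := by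
        intro i
        have h7 : ∀ d ∈ Finset.range L,
            ((∫ x, bar (g i) (T^[d] x) * bar (g i) x ∂μ) - (∫ x, bar (g i) x ∂μ) ^ 2) ^ 2 ≤
            (if d < l2 then 1 else 0) + η := by
          intro d _
          have hc := bar_int_mem μ (g i) (hg i) (hg0 i) (hg1 i)
          have hb0 : 0 ≤ ∫ x, bar (g i) (T^[d] x) * bar (g i) x ∂μ :=
            integral_nonneg (fun x => mul_nonneg (bar_nonneg _ (hg0 i) _) (bar_nonneg _ (hg0 i) _))
          have hb1 : ∫ x, bar (g i) (T^[d] x) * bar (g i) x ∂μ ≤ 1 := by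
            have h1 : ∫ x, bar (g i) (T^[d] x) * bar (g i) x ∂μ ≤ ∫ x, (1 : ℝ) ∂μ := by
              apply integral_mono _ (integrable_const _)
                (fun x => mul_le_one₀ (bar_le _ (hg1 i) _) (bar_nonneg _ (hg0 i) x) (bar_le _ (hg1 i) x))
              refine integrable_of_abs_le μ (((bar_meas _ (hg i)).comp (hT.measurable.iterate d)).mul
                (bar_meas _ (hg i))) 1 (fun x => ?_)
              rw [abs_of_nonneg (mul_nonneg (bar_nonneg _ (hg0 i) _) (bar_nonneg _ (hg0 i) _))]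
              exact mul_le_one₀ (bar_le _ (hg1 i) _) (bar_nonneg _ (hg0 i) x) (bar_le _ (hg1 i) x)
            simpa using h1
          split_ifs with h
          · have h11 : ((∫ x, bar (g i) (T^[d] x) * bar (g i) x ∂μ) - (∫ x, bar (g i) x ∂μ) ^ 2) ^ 2 ≤ 1 := by
              rw [sq_le_one_iff_abs_le_one, abs_le]
              constructor <;> nlinarith [hc.1, hc.2, mul_self_nonneg (∫ x, bar (g i) x ∂μ)]
            linarith
          · have h12 : l1 i ≤ d := by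
              have h13 : l1 i ≤ ∑ i, l1 i := Finset.single_le_sum (fun i _ => Nat.zero_le _) (Finset.mem_univ i)
              omega
            have h14 := hl1 i d h12
            rw [zero_add]
            calc ((∫ x, bar (g i) (T^[d] x) * bar (g i) x ∂μ) - (∫ x, bar (g i) x ∂μ) ^ 2) ^ 2 =
                |(∫ x, bar (g i) (T^[d] x) * bar (g i) x ∂μ) - (∫ x, bar (g i) x ∂μ) ^ 2| ^ 2 := (sq_abs _).symm
              _ ≤ η ^ 2 := by gcongr
              _ ≤ η := by nlinarith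
        refine le_trans (Finset.sum_le_sum h7) ?_
        rw [Finset.sum_add_distrib, Finset.sum_const, Finset.card_range, nsmul_eq_mul]
        have h8 : ∑ d ∈ Finset.range L, (if d < l2 then (1 : ℝ) else 0) ≤ l2 := by
          rw [← Finset.sum_filter, Finset.sum_const, nsmul_eq_mul, mul_one]
          have : (Finset.filter (fun d => d < l2) (Finset.range L)).card ≤ l2 := by
            calc _ ≤ (Finset.range l2).card := Finset.card_le_card (fun d hd => by
                  rw [Finset.mem_filter] at hd; rw [Finset.mem_range]; exact hd.2)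
              _ = l2 := Finset.card_range _
          exact_mod_cast this
        linarith
      refine le_trans (Finset.sum_le_sum (fun i _ => h10 i)) ?_
      rw [Finset.sum_const, Finset.card_univ, nsmul_eq_mul]
      apply le_of_eq
      rw [hK]
      ring
    calc ∑ i, ∑ d ∈ Finset.range L, (gam μ T (g i) (rc ρ (pert φ0 A q σ)) d - (∫ x, bar (g i) x ∂μ) ^ 2) ^ 2 ≤
        ∑ i, ∑ d ∈ Finset.range L, (2 * (gam μ T (g i) (rc ρ (pert φ0 A q σ)) d -
          ∫ x, bar (g i) (T^[d] x) * bar (g i) x ∂μ) ^ 2 +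
          2 * ((∫ x, bar (g i) (T^[d] x) * bar (g i) x ∂μ) - (∫ x, bar (g i) x ∂μ) ^ 2) ^ 2) := by
          apply Finset.sum_le_sum
          intro i _
          apply Finset.sum_le_sum
          intro d _
          nlinarith [sq_nonneg ((gam μ T (g i) (rc ρ (pert φ0 A q σ)) d -
            ∫ x, bar (g i) (T^[d] x) * bar (g i) x ∂μ) -
            ((∫ x, bar (g i) (T^[d] x) * bar (g i) x ∂μ) - (∫ x, bar (g i) x ∂μ) ^ 2))]
      _ = 2 * (∑ i, ∑ d ∈ Finset.range L, (gam μ T (g i) (rc ρ (pert φ0 A q σ)) d -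
          ∫ x, bar (g i) (T^[d] x) * bar (g i) x ∂μ) ^ 2) +
          2 * ∑ i, ∑ d ∈ Finset.range L,
            ((∫ x, bar (g i) (T^[d] x) * bar (g i) x ∂μ) - (∫ x, bar (g i) x ∂μ) ^ 2) ^ 2 := by
          simp only [Finset.sum_add_distrib, Finset.mul_sum]
      _ ≤ 2 * (3 * K * η * L) + 2 * (2 * K * η * L) := by gcongr
      _ = (10 * K * η) * L := by ring
      _ ≤ ε * L := by gcongr

theorem rwm_pair [NeZero n] (ρ : Equiv.Perm (Fin N) →* Equiv.Perm (Fin n)) (hρ : Tr ρ) (T : X → X) (hT : MeasurePreserving T μ μ) (A : Set X) (hA : MeasurableSet A)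
    (hhit : ∀ η : ℝ, 0 < η → ∃ l0 : ℕ, ∀ d ≥ l0, μ.real {x | ∀ j < d, T^[j] x ∉ A} ≤ η)
    (hcell : ∀ (L : ℕ) (κ : ℝ), 0 < κ → ∃ (r : ℕ) (q : X → Fin r → Bool), Measurable q ∧
      (∀ e, 1 ≤ e → e < L → μ.real {x | q x = q (T^[e] x)} ≤ κ) ∧
      (μ.prod μ).real {p : X × X | q p.1 = q p.2} ≤ κ)
    {ι : Type*} [Fintype ι] (g : ι → X → Fin n → ℝ) (hg : ∀ i a, Measurable fun x => g i x a)
    (hg0 : ∀ i x a, 0 ≤ g i x a) (hg1 : ∀ i x a, g i x a ≤ 1)
    (hβ : ∀ i, Tendsto (fun d : ℕ => ∫ x, bar (g i) (T^[d] x) * bar (g i) x ∂μ) atTop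
      (𝓝 ((∫ x, bar (g i) x ∂μ) ^ 2)))
    (φ0 : X → Equiv.Perm (Fin N)) (h0 : Ms φ0) (ε : ℝ) (hε : 0 < ε) :
    ∃ φ : X → Equiv.Perm (Fin N), Ms φ ∧ (∀ x ∉ A, φ x = φ0 x) ∧ ∃ L : ℕ, 0 < L ∧
      |∑ l ∈ Finset.range L, ∑ l' ∈ Finset.range L, (∏ i, gam2 μ T (g i) (rc ρ φ) l l' -
        ∏ i, (∫ x, bar (g i) x ∂μ) ^ 2)| ≤ ε * (L : ℝ) ^ 2 := by
  classical
  set K : ℝ := (Fintype.card ι : ℝ) with hK
  have hK0 : 0 ≤ K := by rw [hK]; positivity
  set η := ε / (4 * (K + 1)) with hη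
  have hη0 : 0 < η := by rw [hη]; positivity
  obtain ⟨φ, hφ, hφA, L, hL, hS⟩ := rwm_exists μ ρ hρ T hT A hA hhit hcell g hg hg0 hg1 hβ φ0 h0 (η * ε / 4) (by positivity)
  refine ⟨φ, hφ, hφA, L, hL, ?_⟩
  have hLr : (0 : ℝ) < L := by exact_mod_cast hL
  set c : ι → ℝ := fun i => ∫ x, bar (g i) x ∂μ with hc
  have hc01 : ∀ i, 0 ≤ c i ∧ c i ≤ 1 := fun i => bar_int_mem μ (g i) (hg i) (hg0 i) (hg1 i)
  set h : ℕ → ℝ := fun d => ∑ i, |gam μ T (g i) (rc ρ φ) d - c i ^ 2| with hh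
  have hg2 : ∀ i l l', 0 ≤ gam2 μ T (g i) (rc ρ φ) l l' ∧ gam2 μ T (g i) (rc ρ φ) l l' ≤ 1 := fun i l l' =>
    bar_int_mem μ (fun x a => g i (T^[l] x) (coc T (rc ρ φ) l x a) * g i (T^[l'] x) (coc T (rc ρ φ) l' x a))
      (fun a => (cor_meas T hT.measurable (g i) (hg i) (rc ρ φ) (rc_ms ρ φ hφ) l a).mul (cor_meas T hT.measurable (g i) (hg i) (rc ρ φ) (rc_ms ρ φ hφ) l' a))
      (fun x a => mul_nonneg (hg0 _ _ _) (hg0 _ _ _))
      (fun x a => mul_le_one₀ (hg1 _ _ _) (hg0 _ _ _) (hg1 _ _ _))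
  have hp : ∀ l l', |∏ i, gam2 μ T (g i) (rc ρ φ) l l' - ∏ i, c i ^ 2| ≤ ∑ i, |gam2 μ T (g i) (rc ρ φ) l l' - c i ^ 2| :=
    fun l l' => prod_sub_le _ _ _ (fun i => (hg2 i l l').1) (fun i => (hg2 i l l').2)
      (fun i => sq_nonneg _) (fun i => pow_le_one₀ (hc01 i).1 (hc01 i).2)
  have h1 : ∀ l l', l' ≤ l → |∏ i, gam2 μ T (g i) (rc ρ φ) l l' - ∏ i, c i ^ 2| ≤ h (l - l') := by
    intro l l' hll
    refine le_trans (hp l l') (le_of_eq ?_)
    rw [hh]
    apply Finset.sum_congr rfl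
    intro i _
    rw [gam2_eq μ T hT (g i) (hg i) (rc ρ φ) (rc_ms ρ φ hφ) l l' hll]
  have h2 : ∀ l l', l ≤ l' → |∏ i, gam2 μ T (g i) (rc ρ φ) l l' - ∏ i, c i ^ 2| ≤ h (l' - l) := by
    intro l l' hll
    refine le_trans (hp l l') (le_of_eq ?_)
    rw [hh]
    apply Finset.sum_congr rfl
    intro i _
    rw [gam2_symm, gam2_eq μ T hT (g i) (hg i) (rc ρ φ) (rc_ms ρ φ hφ) l' l hll]
  have h3 := pair_sum L h (fun d => Finset.sum_nonneg (fun i _ => abs_nonneg _)) _ h1 h2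
  have h4 : ∑ d ∈ Finset.range L, h d ≤ (ε / 2) * L := by
    have h5 : ∀ t : ℝ, |t| ≤ η + t ^ 2 / η := by
      intro t
      rcases le_total |t| η with h | h
      · have : 0 ≤ t ^ 2 / η := by positivity
        linarith
      · have : |t| ≤ t ^ 2 / η := by
          rw [le_div_iff₀ hη0, ← sq_abs]
          nlinarith [abs_nonneg t]
        linarith
    calc ∑ d ∈ Finset.range L, h d ≤ ∑ d ∈ Finset.range L, ∑ i : ι, (η + (gam μ T (g i) (rc ρ φ) d - c i ^ 2) ^ 2 / η) := by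
          apply Finset.sum_le_sum
          intro d _
          apply Finset.sum_le_sum
          intro i _
          exact h5 _
      _ = K * η * L + (∑ i, ∑ d ∈ Finset.range L, (gam μ T (g i) (rc ρ φ) d - c i ^ 2) ^ 2) / η := by
          simp only [Finset.sum_add_distrib, Finset.sum_const, Finset.card_range, Finset.card_univ, nsmul_eq_mul]
          rw [Finset.sum_comm, Finset.sum_div]
          congr 1
          · rw [hK]; ring
          · apply Finset.sum_congr rfl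
            intro i _
            rw [Finset.sum_div]
      _ ≤ K * η * L + (η * ε / 4 * L) / η := by gcongr
      _ = K * η * L + ε / 4 * L := by field_simp
      _ ≤ (ε / 2) * L := by
          have h6 : K * η ≤ ε / 4 := by
            rw [hη]
            rw [← mul_div_assoc, div_le_div_iff₀ (by positivity) (by norm_num)]
            nlinarith
          nlinarith
  calc |∑ l ∈ Finset.range L, ∑ l' ∈ Finset.range L, (∏ i, gam2 μ T (g i) (rc ρ φ) l l' - ∏ i, c i ^ 2)| ≤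
      ∑ l ∈ Finset.range L, |∑ l' ∈ Finset.range L, (∏ i, gam2 μ T (g i) (rc ρ φ) l l' - ∏ i, c i ^ 2)| :=
        Finset.abs_sum_le_sum_abs _ _
    _ ≤ ∑ l ∈ Finset.range L, ∑ l' ∈ Finset.range L, |∏ i, gam2 μ T (g i) (rc ρ φ) l l' - ∏ i, c i ^ 2| := by
        apply Finset.sum_le_sum
        intro l _
        exact Finset.abs_sum_le_sum_abs _ _
    _ ≤ 2 * L * ∑ d ∈ Finset.range L, h d := h3
    _ ≤ 2 * L * ((ε / 2) * L) := by gcongr
    _ = ε * (L : ℝ) ^ 2 := by ring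

end Pool.Agent.Q132.SM
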