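import Mathlib
import Pool.Agent.H359R3.MX7
import Pool.Agent.Q132.SM.A

set_option autoImplicit false
set_option linter.unusedSectionVars false
set_option linter.unusedVariables false

/-!
The action of the symmetric group on pairs of distinct labels.
-/

namespace Pool.Agent.Q132.SM

open MeasureTheory Set Filter Topology
open scoped ENNReal
open Pool.H359R3.MX

/-- pairs of distinct labels -/
abbrev OD (N : ℕ) : Type := {p : Fin N × Fin N // p.1 ≠ p.2}

/-- number of pairs of distinct labels -/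
def nd (N : ℕ) : ℕ := Fintype.card (OD N)

/-- enumeration of the pairs -/
noncomputable def ee (N : ℕ) : OD N ≃ Fin (nd N) := Fintype.equivFin (OD N)

theorem nd_ne (N : ℕ) (h : 2 ≤ N) : NeZero (nd N) := by
  refine ⟨?_⟩
  unfold nd
  rw [← Nat.pos_iff_ne_zero, Fintype.card_pos_iff]
  exact ⟨⟨(⟨0, by omega⟩, ⟨1, by omega⟩), by simp⟩⟩

/-- action on pairs -/
def act1 (N : ℕ) (τ : Equiv.Perm (Fin N)) : Equiv.Perm (OD N) where
  toFun := fun p => ⟨(τ p.1.1, τ p.1.2), fun h => p.2 (τ.injective h)⟩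
  invFun := fun p => ⟨(τ⁻¹ p.1.1, τ⁻¹ p.1.2), fun h => p.2 (τ⁻¹.injective h)⟩
  left_inv := fun p => by
    apply Subtype.ext
    simp
  right_inv := fun p => by
    apply Subtype.ext
    simp

/-- action on pairs, as a homomorphism -/
def act2 (N : ℕ) : Equiv.Perm (Fin N) →* Equiv.Perm (OD N) where
  toFun := act1 N
  map_one' := by
    apply Equiv.ext
    intro p
    rfl
  map_mul' := fun a b => by
    apply Equiv.ext
    intro p
    rfl

/-- action on `Fin (nd N)` -/
noncomputable def rho (N : ℕ) : Equiv.Perm (Fin N) →* Equiv.Perm (Fin (nd N)) :=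
  ((ee N).permCongrHom.toMonoidHom).comp (act2 N)

theorem rho_apply (N : ℕ) (τ : Equiv.Perm (Fin N)) (k : Fin (nd N)) :
    rho N τ k = ee N (act1 N τ ((ee N).symm k)) := rfl

theorem trans2 (N : ℕ) (p p' : OD N) : ∃ τ : Equiv.Perm (Fin N), act1 N τ p = p' := by
  obtain ⟨⟨a, a'⟩, h⟩ := p
  obtain ⟨⟨b, b'⟩, h'⟩ := p'
  have h1 : a ≠ a' := h
  have h2 : b ≠ b' := h'
  refine ⟨Equiv.swap (Equiv.swap a b a') b' * Equiv.swap a b, ?_⟩
  apply Subtype.ext
  have e1 : Equiv.swap a b a' ≠ b := by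
    intro hh
    have : Equiv.swap a b a' = Equiv.swap a b a := by rw [hh, Equiv.swap_apply_left]
    exact h1 ((Equiv.swap a b).injective this).symm
  show ((Equiv.swap (Equiv.swap a b a') b' * Equiv.swap a b) a, (Equiv.swap (Equiv.swap a b a') b' * Equiv.swap a b) a') = (b, b')
  rw [Equiv.Perm.mul_apply, Equiv.Perm.mul_apply, Equiv.swap_apply_left a b, Equiv.swap_apply_left,
    Equiv.swap_apply_of_ne_of_ne e1.symm h2]

theorem rho_tr (N : ℕ) : Tr (rho N) := by
  intro h b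
  have h1 : ∀ b', ∑ τ : Equiv.Perm (Fin N), h (rho N τ b') = ∑ τ : Equiv.Perm (Fin N), h (rho N τ b) := by
    intro b'
    obtain ⟨τ0, hτ0⟩ := trans2 N ((ee N).symm b) ((ee N).symm b')
    have h3 : rho N τ0 b = b' := by rw [rho_apply, hτ0, Equiv.apply_symm_apply]
    rw [← Equiv.sum_comp (Equiv.mulRight τ0) (fun τ => h (rho N τ b))]
    apply Finset.sum_congr rfl
    intro τ _
    rw [Equiv.coe_mulRight, map_mul, Equiv.Perm.mul_apply, h3]
  have h2 : ∑ b' : Fin (nd N), ∑ τ : Equiv.Perm (Fin N), h (rho N τ b') =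
      (nd N : ℝ) * ∑ τ : Equiv.Perm (Fin N), h (rho N τ b) := by
    rw [Finset.sum_congr rfl (fun b' _ => h1 b')]
    simp
  rw [← h2, Finset.sum_comm]
  rw [Finset.sum_congr rfl (fun τ _ => Equiv.sum_comp (rho N τ) h)]
  simp

variable {X : Type*} [MeasurableSpace X]

/-- pairs of labels both in `A` -/
def PA (N : ℕ) (A : Set (X × ℕ)) : Set (X × ℕ) :=
  {w | ∃ k : Fin (nd N), w.2 = (k : ℕ) ∧ (w.1, (((ee N).symm k).1.1 : ℕ)) ∈ A ∧ (w.1, (((ee N).symm k).1.2 : ℕ)) ∈ A}

theorem PA_meas (N : ℕ) (A : Set (X × ℕ)) (hA : MeasurableSet A) : MeasurableSet (PA N A) := by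
  have h1 : PA N A = ⋃ k : Fin (nd N), ({w | w.2 = (k : ℕ)} ∩
      ({w | (w.1, (((ee N).symm k).1.1 : ℕ)) ∈ A} ∩ {w | (w.1, (((ee N).symm k).1.2 : ℕ)) ∈ A})) := by
    ext w
    simp only [PA, mem_ofPred_eq, mem_iUnion, mem_inter_iff]
  rw [h1]
  refine MeasurableSet.iUnion (fun k => MeasurableSet.inter ?_ (MeasurableSet.inter ?_ ?_))
  · exact measurable_snd (measurableSet_singleton _)
  · exact (measurable_fst.prodMk measurable_const) hA
  · exact (measurable_fst.prodMk measurable_const) hA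

theorem gA_PA (N : ℕ) (A : Set (X × ℕ)) (x : X) (k : Fin (nd N)) :
    gA (PA N A) x k = gA A x ((ee N).symm k).1.1 * gA A x ((ee N).symm k).1.2 := by
  have h1 : (x, (k : ℕ)) ∈ PA N A ↔
      (x, (((ee N).symm k).1.1 : ℕ)) ∈ A ∧ (x, (((ee N).symm k).1.2 : ℕ)) ∈ A := by
    constructor
    · rintro ⟨k', h2, h3⟩
      have : k = k' := Fin.ext h2
      rw [this]
      exact h3
    · intro h3
      exact ⟨k, rfl, h3⟩
  unfold gA
  by_cases h2 : (x, (((ee N).symm k).1.1 : ℕ)) ∈ A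
  · by_cases h3 : (x, (((ee N).symm k).1.2 : ℕ)) ∈ A
    · rw [if_pos (h1.2 ⟨h2, h3⟩), if_pos h2, if_pos h3, one_mul]
    · rw [if_neg (fun h => h3 (h1.1 h).2), if_neg h3, mul_zero]
  · rw [if_neg (fun h => h2 (h1.1 h).1), if_neg h2, zero_mul]

theorem nd_card (N : ℕ) : (nd N : ℝ) = N * (N - 1) := by
  have h1 : nd N + N = N * N := by
    unfold nd
    have h2 : Fintype.card (OD N) + Fintype.card {p : Fin N × Fin N // ¬ (p.1 ≠ p.2)} = Fintype.card (Fin N × Fin N) := by
      rw [← Fintype.card_congr (Equiv.sumCompl (fun p : Fin N × Fin N => p.1 ≠ p.2)), Fintype.card_sum]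
    have h3 : Fintype.card {p : Fin N × Fin N // ¬ (p.1 ≠ p.2)} = N := by
      have e : {p : Fin N × Fin N // ¬ (p.1 ≠ p.2)} ≃ Fin N :=
        { toFun := fun p => p.1.1
          invFun := fun a => ⟨(a, a), by simp⟩
          left_inv := fun p => by
            apply Subtype.ext
            have : p.1.1 = p.1.2 := not_not.1 p.2
            exact Prod.ext rfl this
          right_inv := fun a => rfl }
      rw [Fintype.card_congr e, Fintype.card_fin]
    rw [h3] at h2
    simpa using h2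
  have h4 : (nd N : ℝ) + N = N * N := by exact_mod_cast h1
  linarith

/-- the sum over pairs of distinct labels -/
theorem sum_OD (N : ℕ) (u : Fin N → ℝ) :
    ∑ k : Fin (nd N), u ((ee N).symm k).1.1 * u ((ee N).symm k).1.2 = (∑ a, u a) ^ 2 - ∑ a, u a ^ 2 := by
  have h1 : ∑ k : Fin (nd N), u ((ee N).symm k).1.1 * u ((ee N).symm k).1.2 =
      ∑ p : OD N, u p.1.1 * u p.1.2 :=
    Equiv.sum_comp (ee N).symm (fun p : OD N => u p.1.1 * u p.1.2)
  have h2 : ∑ p : OD N, u p.1.1 * u p.1.2 = ∑ p ∈ (Finset.univ : Finset (Fin N × Fin N)).filter (fun p => p.1 ≠ p.2), u p.1 * u p.2 := by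
    rw [Finset.sum_subtype_eq_sum_filter (s := Finset.univ) (f := fun p : Fin N × Fin N => u p.1 * u p.2) |>.symm]
    simp
  have h3 : (∑ a, u a) ^ 2 = ∑ p : Fin N × Fin N, u p.1 * u p.2 := by
    rw [sq, Finset.sum_mul_sum, Fintype.sum_prod_type]
  have h4 : ∑ p ∈ (Finset.univ : Finset (Fin N × Fin N)).filter (fun p => ¬ p.1 ≠ p.2), u p.1 * u p.2 = ∑ a, u a ^ 2 := by
    rw [Finset.sum_filter, Fintype.sum_prod_type]
    apply Finset.sum_congr rfl
    intro a _
    simp only [ne_eq, not_not]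
    rw [Finset.sum_ite_eq]
    simp [sq]
  rw [h1, h2, h3, ← h4, ← Finset.sum_filter_add_sum_filter_not Finset.univ (fun p : Fin N × Fin N => p.1 ≠ p.2)]
  ring

/-- average over pairs of distinct labels versus square of the average -/
theorem bar_PA (N : ℕ) [NeZero N] (hN : 2 ≤ N) (A : Set (X × ℕ)) (x : X) :
    |bar (gA (N := nd N) (PA N A)) x - bar (gA (N := N) A) x ^ 2| ≤ 1 / ((N : ℝ) - 1) := by
  have hNr : (2 : ℝ) ≤ N := by exact_mod_cast hN
  unfold bar
  have h1 : ∑ k : Fin (nd N), gA (PA N A) x k = (∑ a, gA (N := N) A x a) ^ 2 - ∑ a, gA (N := N) A x a := by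
    rw [Finset.sum_congr rfl (fun k _ => gA_PA N A x k), sum_OD]
    congr 1
    apply Finset.sum_congr rfl
    intro a _
    unfold gA
    split_ifs <;> norm_num
  rw [h1, nd_card]
  set s := ∑ a, gA (N := N) A x a with hs
  have hs0 : 0 ≤ s := Finset.sum_nonneg (fun a _ => gA_nonneg _ _ _)
  have hs1 : s ≤ N := by
    calc s ≤ ∑ a : Fin N, (1 : ℝ) := Finset.sum_le_sum (fun a _ => gA_le _ _ _)
      _ = N := by simp
  have hN1 : (0 : ℝ) < N - 1 := by linarith
  have hN0 : (0 : ℝ) < N := by linarith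
  have key : 1 / ((N : ℝ) * (N - 1)) * (s ^ 2 - s) - (1 / (N : ℝ) * s) ^ 2 = (s ^ 2 / N ^ 2 - s / N) / (N - 1) := by
    field_simp
    ring
  rw [key, abs_div, abs_of_pos hN1]
  apply div_le_div_of_nonneg_right _ hN1.le
  have h2 : 0 ≤ s / N := by positivity
  have h3 : s / N ≤ 1 := by rw [div_le_one hN0]; exact hs1
  have h4 : s ^ 2 / N ^ 2 = (s / N) ^ 2 := by rw [div_pow]
  rw [h4, abs_le]
  constructor <;> nlinarith

end Pool.Agent.Q132.SM
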