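import Mathlib
import Pool.Agent.Results.MP_4abfef_an.TypicalMultipleMixing
import Pool.Agent.W744.NG.Comp

set_option autoImplicit false
set_option linter.unusedSectionVars false
set_option linter.unusedVariables false

/-!
The set of extensions of a fixed automorphism is a Baire space in the weak topology.
-/

namespace Q132.SM

open MeasureTheory Set Filter Topology
open scoped ENNReal symmDiff
open Pool.H359R3.IX
open Pool.Agent.W744.NG
open Pool.Agent.Results.MP_4abfef_an.TypicalMultipleMixing (PreAut cls ball halmos mem_ball_iff)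

/-- Baire spaces and surjective inducing maps -/
theorem baire_of_inducing {E F : Type*} [TopologicalSpace E] [TopologicalSpace F] (π : E → F)
    (hπ : IsInducing π) (hs : Function.Surjective π) [BaireSpace E] : BaireSpace F := by
  have hopen : IsOpenMap π := by
    intro U hU
    obtain ⟨V, hV, rfl⟩ := hπ.isOpen_iff.1 hU
    rw [image_preimage_eq V hs]
    exact hV
  refine ⟨fun f hfo hfd => ?_⟩
  have h1 : Dense (⋂ n, π ⁻¹' f n) :=
    dense_iInter_of_isOpen_nat (fun n => (hfo n).preimage hπ.continuous)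
      fun n => (hfd n).preimage hopen
  have h2 := hs.denseRange.dense_image hπ.continuous h1
  refine h2.mono ?_
  rintro _ ⟨x, hx, rfl⟩
  rw [mem_iInter] at hx ⊢
  exact hx

section
variable {Z : Type} [MeasurableSpace Z] {m : Measure Z} [IsProbabilityMeasure m]

/-- the class map -/
def clsA (S : AU m) : Pool.Agent.Results.MP_4abfef_an.TypicalMultipleMixing.Aut m :=
  cls (S : PreAut m)

theorem img_symm (S : AU m) (A : Set Z) : S.1 '' A = S.1.symm ⁻¹' A := by
  ext z
  constructor
  · rintro ⟨w, hw, rfl⟩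
    show S.1.symm (S.1 w) ∈ A
    rw [S.1.symm_apply_apply]
    exact hw
  · intro h
    exact ⟨S.1.symm z, h, S.1.apply_symm_apply z⟩

theorem tend_symm (F : DF m) {β : Type*} (l : Filter β) (T : β → AU m) (S : AU m)
    (h : Tendsto T l (@nhds _ (un F).toTopologicalSpace S)) (s : Set Z) (hs : MeasurableSet s) :
    Tendsto (fun b => m (((T b).1.symm ⁻¹' s) ∆ (S.1.symm ⁻¹' s))) l (𝓝 0) := by
  have hS := S.1.symm.measurable hs
  have h1 := of_tendsto_un F l T S h (S.1.symm ⁻¹' s) hS (measure_lt_top _ _)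
  refine h1.congr fun b => ?_
  rw [symm_sd (T b) _ _ hs hS, symmDiff_comm]
  congr 2
  ext x
  simp

theorem ind (F : DF m) : @IsInducing (AU m)
    (Pool.Agent.Results.MP_4abfef_an.TypicalMultipleMixing.Aut m) (un F).toTopologicalSpace _
    (clsA (m := m)) := by
  refine @IsInducing.mk _ _ (un F).toTopologicalSpace _ _ ?_
  apply le_antisymm
  · rw [← continuous_iff_le_induced]
    let _ : TopologicalSpace (AU m) := (un F).toTopologicalSpace
    refine continuous_generateFrom_iff.2 ?_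
    rintro _ ⟨S, A, ε, hA, hε, rfl⟩
    rw [isOpen_iff_mem_nhds]
    intro S0 hS0
    have hS0' : m.real ((S0.1 '' A) ∆ (S.1 '' A)) < ε := (mem_ball_iff m S (S0 : PreAut m) A ε).1 hS0
    have h1 := tend_symm F (𝓝 S0) id S0 Filter.tendsto_id A hA
    have h2 := tend_of_sd (μ := m) (𝓝 S0) (fun T : AU m => T.1.symm ⁻¹' A) (S0.1.symm ⁻¹' A) (S.1 '' A)
      (measure_lt_top _ _) h1
    have h3 := (ENNReal.tendsto_toReal (measure_ne_top m _)).comp h2
    have h4 : m.real ((S0.1.symm ⁻¹' A) ∆ (S.1 '' A)) < ε := by rw [← img_symm]; exact hS0'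
    filter_upwards [h3.eventually (gt_mem_nhds h4)] with T hT
    refine (mem_ball_iff m S (T : PreAut m) A ε).2 ?_
    have h5 : m.real ((T.1.symm ⁻¹' A) ∆ (S.1 '' A)) < ε := hT
    rw [← img_symm] at h5
    exact h5
  · let tI : TopologicalSpace (AU m) := TopologicalSpace.induced (clsA (m := m)) inferInstance
    have hc : @Continuous _ _ tI (un F).toTopologicalSpace (id : AU m → AU m) := by
      rw [@continuous_iff_continuousAt _ _ tI (un F).toTopologicalSpace]
      intro T0
      refine tendsto_un F _ id T0 fun i => ?_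
      have hm : MeasurableSet (T0.1 ⁻¹' F.C i) := T0.1.measurable (F.meas i)
      rw [ENNReal.tendsto_nhds_zero]
      intro ε hε
      obtain ⟨δ, hδ, hδε⟩ : ∃ δ : ℝ, 0 < δ ∧ ENNReal.ofReal δ ≤ ε := by
        by_cases h : ε = ∞
        · exact ⟨1, one_pos, by rw [h]; exact le_top⟩
        · exact ⟨ε.toReal, ENNReal.toReal_pos hε.ne' h, by rw [ENNReal.ofReal_toReal h]⟩
      have hopen : IsOpen (clsA (m := m) ⁻¹' ball m (T0 : PreAut m) (T0.1 ⁻¹' F.C i) δ) := by
        refine IsOpen.preimage continuous_induced_dom ?_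
        exact TopologicalSpace.isOpen_generateFrom_of_mem ⟨T0, _, δ, hm, hδ, rfl⟩
      have hmem : T0 ∈ clsA (m := m) ⁻¹' ball m (T0 : PreAut m) (T0.1 ⁻¹' F.C i) δ := by
        refine (mem_ball_iff m _ (T0 : PreAut m) _ _).2 ?_
        rw [symmDiff_self]
        simpa using hδ
      filter_upwards [hopen.mem_nhds hmem] with T hT
      have h1 : m.real ((T.1 '' (T0.1 ⁻¹' F.C i)) ∆ (T0.1 '' (T0.1 ⁻¹' F.C i))) < δ :=
        (mem_ball_iff m _ (T : PreAut m) _ _).1 hT
      have h2 : T0.1 '' (T0.1 ⁻¹' F.C i) = F.C i := image_preimage_eq _ T0.1.surjective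
      rw [h2, img_symm] at h1
      have h3 : m ((T.1.symm ⁻¹' (T0.1 ⁻¹' F.C i)) ∆ F.C i) < ENNReal.ofReal δ := by
        rw [← ENNReal.ofReal_toReal (measure_ne_top m _)]
        exact (ENNReal.ofReal_lt_ofReal_iff hδ).2 h1
      rw [symm_sd T _ _ hm (F.meas i), symmDiff_comm] at h3
      exact (h3.trans_le hδε).le
    exact continuous_id_iff_le.1 hc

end

section
variable {X Y : Type} [MeasurableSpace X] [StandardBorelSpace X] [MeasurableSpace Y] [StandardBorelSpace Y]
  {μ : Measure X} {ν : Measure Y} [IsProbabilityMeasure μ] [IsProbabilityMeasure ν]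

/-- limits of extensions of `R` are extensions of `R` -/
theorem ext_lim (R : X ≃ᵐ X) (F : DF (μ.prod ν)) (T : ℕ → AU (μ.prod ν)) (S : AU (μ.prod ν))
    (hT : ∀ n, ∀ᵐ z ∂(μ.prod ν), ((T n).1 z).1 = R z.1)
    (h : Tendsto T atTop (@nhds _ (un F).toTopologicalSpace S)) :
    ∀ᵐ z ∂(μ.prod ν), (S.1 z).1 = R z.1 := by
  have h1 : ∀ A : Set X, MeasurableSet A →
      (μ.prod ν) ((S.1 ⁻¹' (Prod.fst ⁻¹' A)) ∆ (Prod.fst ⁻¹' (R ⁻¹' A))) = 0 := by
    intro A hA
    have h2 := of_tendsto_un F atTop _ S h (Prod.fst ⁻¹' A) (measurable_fst hA) (measure_lt_top _ _)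
    have h3 : (fun n => (μ.prod ν) (((T n).1 ⁻¹' (Prod.fst ⁻¹' A)) ∆
        (S.1 ⁻¹' (Prod.fst ⁻¹' A)))) =
        fun _ => (μ.prod ν) ((Prod.fst ⁻¹' (R ⁻¹' A)) ∆ (S.1 ⁻¹' (Prod.fst ⁻¹' A))) := by
      funext n
      apply measure_congr
      refine EventuallyEq.symmDiff ?_ (ae_eq_refl _)
      filter_upwards [hT n] with z hz
      apply propext
      show ((T n).1 z).1 ∈ A ↔ R z.1 ∈ A
      rw [hz]
    rw [h3] at h2
    have h4 := tendsto_nhds_unique h2 tendsto_const_nhds
    rw [symmDiff_comm]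
    exact h4.symm
  obtain ⟨f, hf, hinj⟩ := MeasurableSpace.measurable_injection_nat_bool_of_countablySeparated (α := X)
  have h2 : ∀ i : ℕ, ∀ᵐ z ∂(μ.prod ν), (f (S.1 z).1 i = true ↔ f (R z.1) i = true) := by
    intro i
    have hA : MeasurableSet {x : X | f x i = true} := ((measurable_pi_apply i).comp hf) (measurableSet_singleton true)
    have h3 := h1 _ hA
    rw [measure_symmDiff_eq_zero_iff] at h3
    filter_upwards [h3] with z hz
    have : (z ∈ S.1 ⁻¹' (Prod.fst ⁻¹' {x : X | f x i = true})) =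
      (z ∈ Prod.fst ⁻¹' (R ⁻¹' {x : X | f x i = true})) := hz
    exact iff_of_eq this
  rw [← ae_all_iff] at h2
  filter_upwards [h2] with z hz
  apply hinj
  funext i
  exact Bool.eq_iff_iff.2 (hz i)

end

/-- The set of (classes of) automorphisms of the product which extend `R` is a Baire space. -/
theorem baire_GR (X Y : Type) [MeasurableSpace X] [StandardBorelSpace X] [MeasurableSpace Y]
    [StandardBorelSpace Y] (μ : Measure X) (ν : Measure Y) [IsProbabilityMeasure μ]
    [IsProbabilityMeasure ν] [NullSingletonClass μ] [NullSingletonClass ν] (R : X ≃ᵐ X)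
    (hR : MeasurePreserving R μ μ) :
    BaireSpace {q : Pool.Agent.Results.MP_4abfef_an.TypicalMultipleMixing.Aut (μ.prod ν) |
      ∃ T : PreAut (μ.prod ν), cls T = q ∧ ∀ᵐ z ∂(μ.prod ν), (T.1 z).1 = R z.1} := by
  obtain ⟨F⟩ := exists_DF (μ.prod ν)
  have hC : @CompleteSpace (AU (μ.prod ν)) (un F) := Compl.main (X × Y) (μ.prod ν) F
  let uA : UniformSpace (AU (μ.prod ν)) := un F
  let G : Type := {S : AU (μ.prod ν) // ∀ᵐ z ∂(μ.prod ν), (S.1 z).1 = R z.1}
  let κ : G → AU (μ.prod ν) := Subtype.val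
  let uG : UniformSpace G := UniformSpace.comap κ uA
  have hcg : (uniformity (AU (μ.prod ν))).IsCountablyGenerated := un_cg F
  have hcg2 : (uniformity G).IsCountablyGenerated := by
    show (Filter.comap _ _).IsCountablyGenerated
    infer_instance
  have hind1 : IsInducing κ := ⟨rfl⟩
  have hcomp : CompleteSpace G := by
    refine UniformSpace.complete_of_cauchySeq_tendsto fun Φ hΦ => ?_
    have huc : UniformContinuous κ := uniformContinuous_comap
    have h1 : CauchySeq (fun n => κ (Φ n)) := huc.comp_cauchySeq hΦ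
    obtain ⟨S, hS⟩ := cauchySeq_tendsto_of_complete h1
    have h2 := ext_lim R F (fun n => κ (Φ n)) S (fun n => (Φ n).2) hS
    refine ⟨⟨S, h2⟩, ?_⟩
    rw [hind1.tendsto_nhds_iff]
    exact hS
  have hB : BaireSpace G := by
    let : PseudoMetricSpace G := UniformSpace.pseudoMetricSpace G
    exact inferInstance
  let π : G → {q : Pool.Agent.Results.MP_4abfef_an.TypicalMultipleMixing.Aut (μ.prod ν) |
      ∃ T : PreAut (μ.prod ν), cls T = q ∧ ∀ᵐ z ∂(μ.prod ν), (T.1 z).1 = R z.1} :=
    fun S => ⟨clsA S.1, S.1, rfl, S.2⟩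
  have hπ : IsInducing π := by
    have h1 : IsInducing (Subtype.val ∘ π) := (ind F).comp hind1
    exact (IsInducing.subtypeVal.of_comp_iff).1 h1
  refine baire_of_inducing π hπ ?_
  rintro ⟨q, T, rfl, hT⟩
  exact ⟨⟨T, hT⟩, rfl⟩

end Q132.SM
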