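import Mathlib
import Pool.Agent.H359R3.MX9
import Pool.Agent.Q132.SM.B

set_option autoImplicit false
set_option linter.unusedSectionVars false
set_option linter.unusedVariables false

/-!
The integral of the square of the fibre measure.
-/

namespace Pool.Agent.Q132.SM

open MeasureTheory Set Filter Topology
open scoped ENNReal symmDiff
open Pool.H359R3 Pool.H359R3.WH Pool.H359R3.MX

section sq

variable {X Y : Type*} [MeasurableSpace X] [MeasurableSpace Y] (μ : Measure X) [IsProbabilityMeasure μ]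
  (ν : Measure Y) [IsProbabilityMeasure ν]

/-- the integral of the square of the fibre measure -/
noncomputable def sq2 (P : Set (X × Y)) : ℝ := ∫ x, (ν.real {y | (x, y) ∈ P}) ^ 2 ∂μ

theorem sec_meas (P : Set (X × Y)) (hP : MeasurableSet P) : Measurable (fun x => ν.real {y | (x, y) ∈ P}) :=
  (measurable_measure_prodMk_left (ν := ν) hP).ennreal_toReal

theorem sec_int (P : Set (X × Y)) (hP : MeasurableSet P) :
    ∫ x, ν.real {y | (x, y) ∈ P} ∂μ = (μ.prod ν).real P := by
  rw [measureReal_def, Measure.prod_apply hP]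
  exact integral_toReal (measurable_measure_prodMk_left (ν := ν) hP).aemeasurable
    (Eventually.of_forall (fun x => measure_lt_top _ _))

theorem sec_integrable (P : Set (X × Y)) (hP : MeasurableSet P) : Integrable (fun x => ν.real {y | (x, y) ∈ P}) μ :=
  integrable_of_abs_le μ (sec_meas ν P hP) 1 (fun x => by
    rw [abs_of_nonneg measureReal_nonneg]
    exact measureReal_le_one)

theorem sq_integrable (P : Set (X × Y)) (hP : MeasurableSet P) :
    Integrable (fun x => (ν.real {y | (x, y) ∈ P}) ^ 2) μ :=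
  integrable_of_abs_le μ ((sec_meas ν P hP).pow_const 2) 1 (fun x => by
    rw [abs_of_nonneg (sq_nonneg _)]
    exact pow_le_one₀ measureReal_nonneg measureReal_le_one)

theorem sq2_nonneg (P : Set (X × Y)) : 0 ≤ sq2 μ ν P := integral_nonneg (fun x => sq_nonneg _)

theorem sq2_le (P : Set (X × Y)) : sq2 μ ν P ≤ 1 := by
  by_cases h : Integrable (fun x => (ν.real {y | (x, y) ∈ P}) ^ 2) μ
  · calc sq2 μ ν P ≤ ∫ x, (1 : ℝ) ∂μ :=
        integral_mono h (integrable_const _) (fun x => pow_le_one₀ measureReal_nonneg measureReal_le_one)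
      _ = 1 := by simp
  · unfold sq2
    rw [integral_undef h]
    exact zero_le_one

theorem real_diff {Z : Type*} [MeasurableSpace Z] (m : Measure Z) [IsProbabilityMeasure m] (E F : Set Z)
    (hE : MeasurableSet E) (hF : MeasurableSet F) : |m.real E - m.real F| ≤ m.real (E ∆ F) := by
  have h5 := real_inter_diff m (ι := Unit) (fun _ => E) (fun _ => F) (fun _ => hE) (fun _ => hF)
  simp only [iInter_const, Finset.univ_unique, Finset.sum_singleton] at h5
  exact h5

theorem sq2_diff (P Q : Set (X × Y)) (hP : MeasurableSet P) (hQ : MeasurableSet Q) :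
    |sq2 μ ν P - sq2 μ ν Q| ≤ 2 * (μ.prod ν).real (P ∆ Q) := by
  unfold sq2
  rw [← integral_sub (sq_integrable μ ν P hP) (sq_integrable μ ν Q hQ)]
  refine le_trans (abs_integral_le_integral_abs) ?_
  rw [← sec_int μ ν (P ∆ Q) (hP.symmDiff hQ), ← integral_const_mul]
  apply integral_mono ((sq_integrable μ ν P hP).sub (sq_integrable μ ν Q hQ)).abs
    ((sec_integrable μ ν _ (hP.symmDiff hQ)).const_mul 2)
  intro x
  show |ν.real {y | (x, y) ∈ P} ^ 2 - ν.real {y | (x, y) ∈ Q} ^ 2| ≤ 2 * ν.real {y | (x, y) ∈ P ∆ Q}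
  have h1 : |ν.real {y | (x, y) ∈ P} - ν.real {y | (x, y) ∈ Q}| ≤ ν.real {y | (x, y) ∈ P ∆ Q} :=
    real_diff ν {y | (x, y) ∈ P} {y | (x, y) ∈ Q} (measurable_prodMk_left hP) (measurable_prodMk_left hQ)
  have h2 : ν.real {y | (x, y) ∈ P} ^ 2 - ν.real {y | (x, y) ∈ Q} ^ 2 =
      (ν.real {y | (x, y) ∈ P} - ν.real {y | (x, y) ∈ Q}) * (ν.real {y | (x, y) ∈ P} + ν.real {y | (x, y) ∈ Q}) := by ring
  have h3 : 0 ≤ ν.real {y | (x, y) ∈ P} := measureReal_nonneg
  have h4 : 0 ≤ ν.real {y | (x, y) ∈ Q} := measureReal_nonneg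
  have h5 : ν.real {y | (x, y) ∈ P} ≤ 1 := measureReal_le_one
  have h6 : ν.real {y | (x, y) ∈ Q} ≤ 1 := measureReal_le_one
  rw [h2, abs_mul, abs_of_nonneg (add_nonneg h3 h4)]
  nlinarith [abs_nonneg (ν.real {y | (x, y) ∈ P} - ν.real {y | (x, y) ∈ Q})]

theorem sq2_inv (T : X → X) (hT : MeasurePreserving T μ μ) (S : X × Y → X × Y) (hSm : Measurable S)
    (hS : ∀ᵐ x ∂μ, MeasurePreserving (fun y => (S (x, y)).2) ν ν ∧ ∀ᵐ y ∂ν, (S (x, y)).1 = T x)
    (P : Set (X × Y)) (hP : MeasurableSet P) : sq2 μ ν (S ⁻¹' P) = sq2 μ ν P := by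
  have h1 : sq2 μ ν (S ⁻¹' P) = ∫ x, (ν.real {y | (T x, y) ∈ P}) ^ 2 ∂μ := by
    apply integral_congr_ae
    filter_upwards [hS] with x hx
    have h2 : ν.real {y | (x, y) ∈ S ⁻¹' P} = ν.real ((fun y => (S (x, y)).2) ⁻¹' {y | (T x, y) ∈ P}) := by
      apply measureReal_congr
      filter_upwards [hx.2] with y hy
      apply propext
      show S (x, y) ∈ P ↔ (T x, (S (x, y)).2) ∈ P
      rw [← hy]
    have hm : MeasurableSet {y | (T x, y) ∈ P} := measurable_prodMk_left hP
    rw [h2, measureReal_def, hx.1.measure_preimage hm.nullMeasurableSet, ← measureReal_def]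
  rw [h1]
  have h3 := hT.map_eq
  unfold sq2
  conv_rhs => rw [← h3]
  rw [integral_map hT.measurable.aemeasurable ((sec_meas ν P hP).pow_const 2).aestronglyMeasurable]

/-- pairs of fibre points in `P` -/
def D3 (P : Set (X × Y)) : Set (X × (Y × Y)) := {z | (z.1, z.2.1) ∈ P ∧ (z.1, z.2.2) ∈ P}

theorem D3_meas (P : Set (X × Y)) (hP : MeasurableSet P) : MeasurableSet (D3 P) :=
  MeasurableSet.inter ((measurable_fst.prodMk (measurable_fst.comp measurable_snd)) hP)
    ((measurable_fst.prodMk (measurable_snd.comp measurable_snd)) hP)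

theorem sq2_D3 (P : Set (X × Y)) (hP : MeasurableSet P) : (μ.prod (ν.prod ν)).real (D3 P) = sq2 μ ν P := by
  rw [← sec_int μ (ν.prod ν) (D3 P) (D3_meas P hP)]
  unfold sq2
  congr 1
  funext x
  have h1 : {w : Y × Y | (x, w) ∈ D3 P} = {y | (x, y) ∈ P} ×ˢ {y | (x, y) ∈ P} := by
    ext w
    rfl
  rw [h1, measureReal_prod_prod, sq]

end sq

end Pool.Agent.Q132.SM
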