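import Mathlib
import Pool.Agent.Q132.SM.C

set_option autoImplicit false
set_option linter.unusedSectionVars false
set_option linter.unusedVariables false

/-!
The open condition for pairs of fibre points.
-/

namespace Pool.Agent.Q132.SM

open MeasureTheory Set Filter Topology
open scoped ENNReal symmDiff
open Pool.H359R3 Pool.H359R3.WH Pool.H359R3.MX

variable {X : Type*} [MeasurableSpace X]
variable {N : ℕ} [NeZero N]
variable (μ : Measure X) [IsProbabilityMeasure μ]

open Classical in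
/-- label of a pair -/
noncomputable def lab (N : ℕ) [NeZero (nd N)] (p : Fin N × Fin N) : Fin (nd N) :=
  if h : p.1 ≠ p.2 then ee N ⟨p, h⟩ else 0

theorem G_lab [NeZero (nd N)] (A : Set (X × ℕ)) (T : X → X) (φ : X → Equiv.Perm (Fin N)) (l : ℕ) (x : X)
    (p : Fin N × Fin N) (h : p.1 ≠ p.2) :
    gA (PA N A) (T^[l] x) (coc T (rc (rho N) φ) l x (lab N p)) =
      gA A (T^[l] x) (coc T φ l x p.1) * gA A (T^[l] x) (coc T φ l x p.2) := by
  rw [coc_rho, rho_apply, gA_PA, Equiv.symm_apply_apply]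
  have h1 : (ee N).symm (lab N p) = ⟨p, h⟩ := by
    unfold lab
    rw [dif_pos h, Equiv.symm_apply_apply]
  rw [h1]
  rfl

theorem gA_ind (A : Set (X × ℕ)) (x : X) (y : ℝ) (hy : y ∈ Ico (0:ℝ) 1) :
    gA A x (flf N y) = (LS N A).indicator (fun _ => (1:ℝ)) (x, y) := by
  unfold gA
  rw [flf_val N y hy]
  by_cases h : (x, fl N y) ∈ A
  · rw [if_pos h, indicator_of_mem (show (x, y) ∈ LS N A from h)]
  · rw [if_neg h, indicator_of_notMem (show (x, y) ∉ LS N A from h)]

theorem gA_iter (T : X ≃ᵐ X) (φ : X → Equiv.Perm (Fin N)) (hφ : Ms φ) (A : Set (X × ℕ)) (l : ℕ) (x : X) (y : ℝ)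
    (hy : y ∈ Ico (0:ℝ) 1) :
    gA A ((T : X → X)^[l] x) (coc T φ l x (flf N y)) =
      ((SK T φ hφ)^[l] ⁻¹' LS N A).indicator (fun _ => (1:ℝ)) (x, y) := by
  obtain ⟨h10, h11⟩ := rzf_mem N (coc T φ l x) y hy
  rw [← h11, gA_ind A _ _ h10]
  have h1 : (x, y) ∈ (SK T φ hφ)^[l] ⁻¹' LS N A ↔ (T^[l] x, rzf N (coc T φ l x) y) ∈ LS N A := by
    rw [mem_preimage, SK_iter]
  by_cases h : (T^[l] x, rzf N (coc T φ l x) y) ∈ LS N A
  · rw [indicator_of_mem h, indicator_of_mem (h1.2 h)]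
  · rw [indicator_of_notMem h, indicator_of_notMem (fun hh => h (h1.1 hh))]

theorem lab_meas [NeZero (nd N)] (f : X × ℝ → ℝ) (hf : Measurable f) :
    Measurable (fun z : X × (ℝ × ℝ) => lab N (flf N (f (z.1, z.2.1)), flf N (f (z.1, z.2.2)))) := by
  have h1 : Measurable (fun z : X × (ℝ × ℝ) => (flf N (f (z.1, z.2.1)), flf N (f (z.1, z.2.2)))) := by
    refine Measurable.prodMk ?_ ?_
    · exact (flf_meas N).comp (hf.comp (measurable_fst.prodMk (measurable_fst.comp measurable_snd)))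
    · exact (flf_meas N).comp (hf.comp (measurable_fst.prodMk (measurable_snd.comp measurable_snd)))
  exact (measurable_of_countable (lab N)).comp h1

/-- iterates as measurable equivalences -/
def itE {Z : Type*} [MeasurableSpace Z] (S : Z ≃ᵐ Z) : ℕ → (Z ≃ᵐ Z)
  | 0 => MeasurableEquiv.refl Z
  | (n + 1) => S.trans (itE S n)

theorem itE_coe {Z : Type*} [MeasurableSpace Z] (S : Z ≃ᵐ Z) (n : ℕ) : ⇑(itE S n) = (S : Z → Z)^[n] := by
  induction n with
  | zero => rfl
  | succ n ih =>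
    funext z
    rw [Function.iterate_succ_apply, ← ih]
    rfl

/-- fibre maps of the iterates -/
theorem fib_iter (T : X ≃ᵐ X) (hT : MeasurePreserving T μ μ) (S : (X × ℝ) ≃ᵐ (X × ℝ))
    (hS : MeasurePreserving S (μ.prod lam) (μ.prod lam)) (hSe : ∀ᵐ z ∂(μ.prod lam), (S z).1 = T z.1) (n : ℕ) :
    ∀ᵐ x ∂μ, MeasurePreserving (fun y => ((S : X × ℝ → X × ℝ)^[n] (x, y)).2) lam lam ∧
      ∀ᵐ y ∂lam, ((S : X × ℝ → X × ℝ)^[n] (x, y)).1 = (T : X → X)^[n] x := by
  have h1 := iter_fst (μ.prod lam) S T hS hSe n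
  have e1 := itE_coe S n
  have e2 := itE_coe T n
  have h3 := fib_mp μ (itE T n) (by rw [e2]; exact hT.iterate n) (itE S n) (by rw [e1]; exact hS.iterate n)
    (by rw [e1, e2]; exact h1)
  rw [e1] at h3
  have h4 := Measure.ae_ae_of_ae_prod h1
  filter_upwards [h3, h4] with x h5 h6
  exact ⟨h5, h6⟩

/-- the labels of two fibre points rarely agree -/
theorem same_lab (T : X ≃ᵐ X) (hT : MeasurePreserving T μ μ) (S : (X × ℝ) ≃ᵐ (X × ℝ))
    (hS : MeasurePreserving S (μ.prod lam) (μ.prod lam)) (hSe : ∀ᵐ z ∂(μ.prod lam), (S z).1 = T z.1) (n : ℕ) :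
    (μ.prod (lam.prod lam)).real {z : X × (ℝ × ℝ) | flf N ((S : X × ℝ → X × ℝ)^[n] (z.1, z.2.1)).2 =
      flf N ((S : X × ℝ → X × ℝ)^[n] (z.1, z.2.2)).2} ≤ 1 / N := by
  have hN : (0 : ℝ) < N := by exact_mod_cast NeZero.pos N
  let P : Fin N → Set (X × ℝ) := fun a => {w | flf N w.2 = a}
  have hP : ∀ a, MeasurableSet (P a) := fun a => ((flf_meas N).comp measurable_snd) (measurableSet_singleton a)
  have hSn : Measurable ((S : X × ℝ → X × ℝ)^[n]) := S.measurable.iterate n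
  have h1 : {z : X × (ℝ × ℝ) | flf N ((S : X × ℝ → X × ℝ)^[n] (z.1, z.2.1)).2 =
      flf N ((S : X × ℝ → X × ℝ)^[n] (z.1, z.2.2)).2} ⊆ ⋃ a ∈ (Finset.univ : Finset (Fin N)), D3 ((S : X × ℝ → X × ℝ)^[n] ⁻¹' P a) := by
    intro z hz
    simp only [mem_iUnion]
    exact ⟨flf N ((S : X × ℝ → X × ℝ)^[n] (z.1, z.2.1)).2, Finset.mem_univ _, rfl, (show _ = _ from hz).symm⟩
  refine le_trans (measureReal_mono h1 (measure_ne_top _ _)) ?_
  refine le_trans (measureReal_biUnion_finset_le _ _) ?_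
  have h2 : ∀ a ∈ (Finset.univ : Finset (Fin N)), (μ.prod (lam.prod lam)).real (D3 ((S : X × ℝ → X × ℝ)^[n] ⁻¹' P a)) = 1 / (N : ℝ) ^ 2 := by
    intro a _
    rw [sq2_D3 μ lam _ (hSn (hP a)), sq2_inv μ lam ((T : X → X)^[n]) (hT.iterate n) _ hSn (fib_iter μ T hT S hS hSe n) _ (hP a)]
    unfold sq2
    have h3 : ∀ x : X, lam.real {y | (x, y) ∈ P a} = 1 / (N : ℝ) := by
      intro x
      have h4 := int_lab (N := N) (fun b => if b = a then (1:ℝ) else 0)
      rw [Finset.sum_ite_eq'] at h4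
      simp only [Finset.mem_univ, if_true, mul_one] at h4
      rw [← h4]
      have h5 : {y | (x, y) ∈ P a} = {y | flf N y = a} := rfl
      have hm : MeasurableSet {y | flf N y = a} := (flf_meas N) (measurableSet_singleton a)
      rw [h5, ← integral_indicator_one hm]
      apply integral_congr_ae
      refine Eventually.of_forall (fun y => ?_)
      by_cases h : flf N y = a
      · rw [indicator_of_mem (show y ∈ {y | flf N y = a} from h)]
        simp [h]
      · rw [indicator_of_notMem (show y ∉ {y | flf N y = a} from h)]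
        simp [h]
    simp_rw [h3]
    simp
  rw [Finset.sum_congr rfl h2, Finset.sum_const, Finset.card_univ, Fintype.card_fin, nsmul_eq_mul]
  apply le_of_eq
  field_simp

end Pool.Agent.Q132.SM
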