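import Mathlib
import Pool.Agent.Q132.SM.D

set_option autoImplicit false
set_option linter.unusedSectionVars false
set_option linter.unusedVariables false

/-!
The open condition for pairs of fibre points, continued.
-/

namespace Pool.Agent.Q132.SM

open MeasureTheory Set Filter Topology
open scoped ENNReal symmDiff
open Pool.H359R3 Pool.H359R3.WH Pool.H359R3.MX

variable {X : Type*} [MeasurableSpace X]
variable {N : ℕ} [NeZero N]
variable (μ : Measure X) [IsProbabilityMeasure μ]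

/-- comparison of two integrals of functions with values in `[0,1]` that agree off a small set -/
theorem int_close {Z : Type*} [MeasurableSpace Z] (m : Measure Z) [IsProbabilityMeasure m] (f g : Z → ℝ)
    (hf : Integrable f m) (hg : Integrable g m) (hf0 : ∀ z, 0 ≤ f z) (hf1 : ∀ z, f z ≤ 1)
    (hg0 : ∀ z, 0 ≤ g z) (hg1 : ∀ z, g z ≤ 1) (B : Set Z) (hB : MeasurableSet B)
    (h : ∀ᵐ z ∂m, z ∉ B → f z = g z) : |∫ z, g z ∂m - ∫ z, f z ∂m| ≤ m.real B := by
  rw [← integral_sub hg hf]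
  refine le_trans abs_integral_le_integral_abs ?_
  rw [← integral_indicator_one hB]
  apply integral_mono_ae (hg.sub hf).abs ((integrable_const (1:ℝ)).indicator hB)
  filter_upwards [h] with z hz
  by_cases hzB : z ∈ B
  · rw [indicator_of_mem hzB]
    show |g z - f z| ≤ 1
    rw [abs_le]
    constructor <;> linarith [hf0 z, hf1 z, hg0 z, hg1 z]
  · rw [indicator_of_notMem hzB]
    show |g z - f z| ≤ 0
    rw [hz hzB, sub_self, abs_zero]

theorem core_open2 (T : X ≃ᵐ X) (hT : MeasurePreserving T μ μ) (hmix : MixS true 1 μ T)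
    (φ : X → Equiv.Perm (Fin N)) (hφ : Ms φ) [NeZero (nd N)] (A : Fin 2 → Set (X × ℕ))
    (hA : ∀ i, MeasurableSet (A i)) (L : ℕ) (hL : 0 < L) (ε : ℝ) (hε : 0 < ε)
    (hpair : |∑ l ∈ Finset.range L, ∑ l' ∈ Finset.range L,
        (∏ i, gam2 μ T (gA (N := nd N) (PA N (A i))) (rc (rho N) φ) l l' -
        ∏ i, (∫ x, bar (gA (N := nd N) (PA N (A i))) x ∂μ) ^ 2)| ≤ (ε ^ 2 / (2 * (nd N : ℝ) ^ 2)) * (L : ℝ) ^ 2) :
    ∃ δ : ℝ, 0 < δ ∧ ∃ n0 : ℕ, ∀ S : (X × ℝ) ≃ᵐ (X × ℝ), MeasurePreserving S (μ.prod lam) (μ.prod lam) →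
      (∀ᵐ z ∂(μ.prod lam), (S z).1 = T z.1) →
      (∀ l < L, ∀ i, (μ.prod lam).real ((S ⁻¹' ((SK T φ hφ)^[l] ⁻¹' LS N (A i))) ∆
        (SK T φ hφ ⁻¹' ((SK T φ hφ)^[l] ⁻¹' LS N (A i)))) ≤ δ) →
      ∀ n ≥ n0, |sq2 μ lam (LS N (A 0) ∩ (S : X × ℝ → X × ℝ)^[n] ⁻¹' LS N (A 1)) -
        ∏ i, ∫ x, bar (gA (N := nd N) (PA N (A i))) x ∂μ| ≤ 2 * ε + 2 / N := by
  classical
  have hN : (0 : ℝ) < N := by exact_mod_cast NeZero.pos N
  have hnd : (0 : ℝ) < nd N := by exact_mod_cast NeZero.pos (nd N)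
  have hLr : (0 : ℝ) < L := by exact_mod_cast hL
  have hPm : ∀ i, MeasurableSet (PA N (A i)) := fun i => PA_meas N (A i) (hA i)
  set m := μ.prod lam with hm
  set m3 := μ.prod (lam.prod lam) with hm3
  let G : ℕ → Fin 2 → X → Fin (nd N) → ℝ := fun l i x a => gA (PA N (A i)) (T^[l] x) (coc T (rc (rho N) φ) l x a)
  have hrm : Ms (rc (rho N) φ) := rc_ms (rho N) φ hφ
  have hGm : ∀ l i a, Measurable fun x => G l i x a := fun l i a =>
    cor_meas T T.measurable (gA (PA N (A i))) (gA_meas (PA N (A i)) (hPm i)) (rc (rho N) φ) hrm l a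
  have hG0 : ∀ l i x a, 0 ≤ G l i x a := fun l i x a => gA_nonneg _ _ _
  have hG1 : ∀ l i x a, G l i x a ≤ 1 := fun l i x a => gA_le _ _ _
  have hG01 : ∀ l i x a, G l i x a = 0 ∨ G l i x a = 1 := by
    intro l i x a
    show gA (PA N (A i)) (T^[l] x) (coc T (rc (rho N) φ) l x a) = 0 ∨ gA (PA N (A i)) (T^[l] x) (coc T (rc (rho N) φ) l x a) = 1
    unfold gA
    split_ifs
    · exact Or.inr rfl
    · exact Or.inl rfl
  set cc : Fin 2 → ℝ := fun i => ∫ x, bar (gA (N := nd N) (PA N (A i))) x ∂μ with hcc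
  set c : ℝ := ∏ i, cc i with hc
  have hcc01 : ∀ i, 0 ≤ cc i ∧ cc i ≤ 1 := fun i =>
    bar_int_mem μ (gA (N := nd N) (PA N (A i))) (gA_meas (PA N (A i)) (hPm i)) (gA_nonneg _) (gA_le _)
  have hc0 : 0 ≤ c := Finset.prod_nonneg (fun i _ => (hcc01 i).1)
  have hc1 : c ≤ 1 := Finset.prod_le_one (fun i _ => (hcc01 i).1) (fun i _ => (hcc01 i).2)
  have hv : ∀ l < L, ∏ i, ∫ x, bar (G l i) x ∂μ = c := by
    intro l _
    apply Finset.prod_congr rfl
    intro i _
    have h1 : (fun x => bar (G l i) x) = fun x => bar (gA (N := nd N) (PA N (A i))) (T^[l] x) := by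
      funext x
      exact bar_reindex (gA (PA N (A i))) T (rc (rho N) φ) l x
    show ∫ x, (fun x => bar (G l i) x) x ∂μ = _
    rw [h1]
    have h3 := (hT.iterate l).map_eq
    show _ = ∫ x, bar (gA (N := nd N) (PA N (A i))) x ∂μ
    conv_rhs => rw [← h3]
    rw [integral_map (T.measurable.iterate l).aemeasurable (bar_meas _ (gA_meas (PA N (A i)) (hPm i))).aestronglyMeasurable]
  set ε1 : ℝ := ε ^ 2 / (2 * (nd N : ℝ) ^ 2) with hε1
  have hγ : ∑ l ∈ Finset.range L, ∑ l' ∈ Finset.range L,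
      (∏ i, ∫ x, bar (fun x a => G l i x a * G l' i x a) x ∂μ - c ^ 2) ≤ ε1 * (L : ℝ) ^ 2 := by
    have h2 := (abs_le.1 hpair).2
    rw [Finset.prod_pow] at h2
    exact h2
  -- mixing constants
  set τ : ℝ := ε1 / 3 with hτ
  have hε1pos : 0 < ε1 := by rw [hε1]; positivity
  have hτpos : 0 < τ := by rw [hτ]; positivity
  have hmixev : ∀ l l' : ℕ, ∀ b : Fin 2 → Fin (nd N), ∀ᶠ n : Fin 1 → ℕ in atTop,
      |∫ x, ∏ i, (G l i ((pw true T : X → X)^[ps n i] x) (b i) * G l' i ((pw true T : X → X)^[ps n i] x) (b i)) ∂μ -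
        ∏ i, ∫ x, G l i x (b i) * G l' i x (b i) ∂μ| ≤ τ := by
    intro l l' b
    have h4 := mix_fun μ T true 1 hmix (fun i => {x | G l i x (b i) * G l' i x (b i) = 1})
      (fun i => ((hGm l i (b i)).mul (hGm l' i (b i))) (measurableSet_singleton 1))
      (fun i x => G l i x (b i) * G l' i x (b i)) (fun i x => by
        by_cases h : G l i x (b i) * G l' i x (b i) = 1
        · rw [indicator_of_mem (show x ∈ {x | G l i x (b i) * G l' i x (b i) = 1} from h), h]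
        · rw [indicator_of_notMem (show x ∉ {x | G l i x (b i) * G l' i x (b i) = 1} from h)]
          rcases hG01 l i x (b i) with h1 | h1
          · rw [h1, zero_mul]
          · rcases hG01 l' i x (b i) with h2 | h2
            · rw [h2, mul_zero]
            · exfalso
              apply h
              rw [h1, h2, mul_one])
    have h5 := Metric.tendsto_nhds.1 h4 τ hτpos
    filter_upwards [h5] with n hn
    rw [Real.dist_eq] at hn
    exact hn.le
  have hev : ∀ᶠ n : Fin 1 → ℕ in atTop, ∀ l : Fin L, ∀ l' : Fin L, ∀ b : Fin 2 → Fin (nd N),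
      |∫ x, ∏ i, (G l i ((pw true T : X → X)^[ps n i] x) (b i) * G l' i ((pw true T : X → X)^[ps n i] x) (b i)) ∂μ -
        ∏ i, ∫ x, G l i x (b i) * G l' i x (b i) ∂μ| ≤ τ := by
    rw [eventually_all]
    intro l
    rw [eventually_all]
    intro l'
    rw [eventually_all]
    intro b
    exact hmixev l l' b
  obtain ⟨n0, hn0⟩ := eventually_atTop.1 hev
  set δ : ℝ := ε / (4 * L) with hδ
  have hδpos : 0 < δ := by rw [hδ]; positivity
  refine ⟨δ, hδpos, n0 0, fun S hS hSe hclose n hn => ?_⟩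
  have hsym : ∀ (l : ℕ) (i : Fin 2) (x : X) (a : Fin (nd N)), G l i x a * G l i x a = G l i x a := by
    intro l i x a
    rcases hG01 l i x a with h | h <;> rw [h] <;> norm_num
  let e : Fin 2 → ℕ := fun i => if i = 0 then 0 else n
  have he : ∀ i : Fin 2, ps (fun _ : Fin 1 => n) i = e i := by
    intro i
    fin_cases i
    · exact ps_zero (k := 1) (fun _ => n)
    · exact ps_one (k := 0) (fun _ => n)
  let R : Fin 2 → X → X := fun i => (T : X → X)^[e i]
  have hR : ∀ i, Measurable (R i) := fun i => T.measurable.iterate _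
  let RR : Fin 2 → X × ℝ → X × ℝ := fun i => (S : X × ℝ → X × ℝ)^[e i]
  have hRR : ∀ i, MeasurePreserving (RR i) m m := fun i => hS.iterate _
  have hmix2 : ∀ l < L, ∀ l' < L, ∀ b : Fin 2 → Fin (nd N),
      |∫ x, ∏ i, (G l i (R i x) (b i) * G l' i (R i x) (b i)) ∂μ -
        ∏ i, ∫ x, G l i x (b i) * G l' i x (b i) ∂μ| ≤ τ := by
    intro l hl l' hl' b
    have h6 := hn0 (fun _ => n) (fun i => by
      have : i = 0 := Subsingleton.elim _ _
      rw [this]
      exact hn) ⟨l, hl⟩ ⟨l', hl'⟩ b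
    simp_rw [he] at h6
    exact h6
  have hmix1 : ∀ l < L, ∀ b : Fin 2 → Fin (nd N),
      |∫ x, ∏ i, G l i (R i x) (b i) ∂μ - ∏ i, ∫ x, G l i x (b i) ∂μ| ≤ τ := by
    intro l hl b
    have h6 := hmix2 l hl l hl b
    simp_rw [hsym] at h6
    exact h6
  let la : Fin 2 → X × (ℝ × ℝ) → Fin (nd N) := fun i z =>
    lab N (flf N (RR i (z.1, z.2.1)).2, flf N (RR i (z.1, z.2.2)).2)
  have hla : ∀ i, Measurable (la i) := fun i =>
    lab_meas (fun w => (RR i w).2) (measurable_snd.comp (hRR i).measurable)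
  have hfirst := core_first μ m3 Prod.fst measurePreserving_fst L G hGm hG0 hG1 R hR c τ ε1 hc0 hc1 hv hγ hmix2 hmix1
    la hla ε hε.le (by
      rw [Fintype.card_fin]
      have : ε1 + 3 * τ = 2 * ε1 := by rw [hτ]; ring
      rw [this, hε1]
      apply le_of_eq
      field_simp)
  have hE : ∀ i, MeasurableSet (LS N (A i)) := fun i => LS_meas N (A i) (hA i)
  have hSn : Measurable ((S : X × ℝ → X × ℝ)^[n]) := S.measurable.iterate n
  -- the integrals are nearly squares of fibre measures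
  let Q : ℕ → Set (X × ℝ) := fun l => ((SK T φ hφ)^[l] ⁻¹' LS N (A 0)) ∩
    (S : X × ℝ → X × ℝ)^[n] ⁻¹' ((SK T φ hφ)^[l] ⁻¹' LS N (A 1))
  have hQm : ∀ l, MeasurableSet (Q l) := fun l =>
    (((SK T φ hφ).measurable.iterate l) (hE 0)).inter (hSn (((SK T φ hφ).measurable.iterate l) (hE 1)))
  let Bd : Fin 2 → Set (X × (ℝ × ℝ)) := fun i => {z | flf N (RR i (z.1, z.2.1)).2 = flf N (RR i (z.1, z.2.2)).2}
  have hBdm : ∀ i, MeasurableSet (Bd i) := fun i => measurableSet_eq_fun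
    ((flf_meas N).comp (measurable_snd.comp ((hRR i).measurable.comp (measurable_fst.prodMk (measurable_fst.comp measurable_snd)))))
    ((flf_meas N).comp (measurable_snd.comp ((hRR i).measurable.comp (measurable_fst.prodMk (measurable_snd.comp measurable_snd)))))
  have hBd : ∀ i, m3.real (Bd i) ≤ 1 / N := fun i => same_lab μ T hT S hS hSe (e i)
  have hfibz : ∀ i, ∀ᵐ z ∂m3, RR i (z.1, z.2.1) = (R i z.1, (RR i (z.1, z.2.1)).2) ∧ (RR i (z.1, z.2.1)).2 ∈ Ico (0:ℝ) 1 ∧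
      RR i (z.1, z.2.2) = (R i z.1, (RR i (z.1, z.2.2)).2) ∧ (RR i (z.1, z.2.2)).2 ∈ Ico (0:ℝ) 1 := by
    intro i
    have h1 : ∀ᵐ w ∂m, (RR i w).1 = R i w.1 := iter_fst m S T hS hSe (e i)
    have hy : ∀ᵐ z ∂m, z.2 ∈ Ico (0:ℝ) 1 :=
      (measurePreserving_snd (μ := μ) (ν := lam)).quasiMeasurePreserving.ae ae_Ico
    have h2 : ∀ᵐ w ∂m, (RR i w).2 ∈ Ico (0:ℝ) 1 := (hRR i).quasiMeasurePreserving.ae hy
    have p1 : MeasurePreserving (fun z : X × (ℝ × ℝ) => (z.1, z.2.1)) m3 m :=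
      (MeasurePreserving.id μ).prod measurePreserving_fst
    have p2 : MeasurePreserving (fun z : X × (ℝ × ℝ) => (z.1, z.2.2)) m3 m :=
      (MeasurePreserving.id μ).prod measurePreserving_snd
    filter_upwards [p1.quasiMeasurePreserving.ae h1, p1.quasiMeasurePreserving.ae h2,
      p2.quasiMeasurePreserving.ae h1, p2.quasiMeasurePreserving.ae h2] with z a1 a2 a3 a4
    exact ⟨Prod.ext a1 rfl, a2, Prod.ext a3 rfl, a4⟩
  have hstepW : ∀ l, |sq2 μ lam (Q l) - ∫ z, ∏ i, G l i (R i z.1) (la i z) ∂m3| ≤ 2 / N := by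
    intro l
    have hPm : Measurable (fun z : X × (ℝ × ℝ) => ∏ i, G l i (R i z.1) (la i z)) :=
      Finset.measurable_prod _ (fun i _ => (meas_unc (G l i) (hGm l i)).comp (((hR i).comp measurable_fst).prodMk (hla i)))
    have hP0 : ∀ z : X × (ℝ × ℝ), 0 ≤ ∏ i, G l i (R i z.1) (la i z) := fun z =>
      Finset.prod_nonneg (fun i _ => hG0 _ _ _ _)
    have hP1 : ∀ z : X × (ℝ × ℝ), ∏ i, G l i (R i z.1) (la i z) ≤ 1 := fun z =>
      Finset.prod_le_one (fun i _ => hG0 _ _ _ _) (fun i _ => hG1 _ _ _ _)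
    rw [← sq2_D3 μ lam (Q l) (hQm l), ← integral_indicator_one (D3_meas (Q l) (hQm l))]
    have hcl := int_close m3 (fun z => ∏ i, G l i (R i z.1) (la i z)) ((D3 (Q l)).indicator 1)
      (integrable_of_abs_le m3 hPm 1 (fun z => by rw [abs_of_nonneg (hP0 z)]; exact hP1 z))
      ((integrable_const (1:ℝ)).indicator (D3_meas (Q l) (hQm l))) hP0 hP1
      (fun z => indicator_nonneg (fun _ _ => zero_le_one) z)
      (fun z => by
        by_cases h : z ∈ D3 (Q l)
        · rw [indicator_of_mem h]; exact le_rfl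
        · rw [indicator_of_notMem h]; exact zero_le_one)
      (Bd 0 ∪ Bd 1) ((hBdm 0).union (hBdm 1)) (by
        filter_upwards [hfibz 0, hfibz 1] with z h0 h1 hz
        rw [mem_union, not_or] at hz
        have key : ∀ i : Fin 2, (z ∉ Bd i) → (RR i (z.1, z.2.1) = (R i z.1, (RR i (z.1, z.2.1)).2) ∧ (RR i (z.1, z.2.1)).2 ∈ Ico (0:ℝ) 1 ∧
            RR i (z.1, z.2.2) = (R i z.1, (RR i (z.1, z.2.2)).2) ∧ (RR i (z.1, z.2.2)).2 ∈ Ico (0:ℝ) 1) →
            G l i (R i z.1) (la i z) = ((SK T φ hφ)^[l] ⁻¹' LS N (A i)).indicator (fun _ => (1:ℝ)) (RR i (z.1, z.2.1)) *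
              ((SK T φ hφ)^[l] ⁻¹' LS N (A i)).indicator (fun _ => (1:ℝ)) (RR i (z.1, z.2.2)) := by
          rintro i hi ⟨k1, k2, k3, k4⟩
          have hi' : (flf N (RR i (z.1, z.2.1)).2, flf N (RR i (z.1, z.2.2)).2).1 ≠
              (flf N (RR i (z.1, z.2.1)).2, flf N (RR i (z.1, z.2.2)).2).2 := hi
          show gA (PA N (A i)) (T^[l] (R i z.1)) (coc T (rc (rho N) φ) l (R i z.1)
            (lab N (flf N (RR i (z.1, z.2.1)).2, flf N (RR i (z.1, z.2.2)).2))) = _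
          rw [G_lab (A i) T φ l (R i z.1) _ hi', gA_iter T φ hφ (A i) l _ _ k2, gA_iter T φ hφ (A i) l _ _ k4, ← k1, ← k3]
        rw [Fin.prod_univ_two, key 0 hz.1 h0, key 1 hz.2 h1]
        have r0 : ∀ w, RR 0 w = w := fun w => rfl
        have r1 : ∀ w, RR 1 w = (S : X × ℝ → X × ℝ)^[n] w := fun w => rfl
        rw [r0, r0, r1, r1]
        by_cases b1 : (z.1, z.2.1) ∈ (SK T φ hφ)^[l] ⁻¹' LS N (A 0)
        · by_cases b2 : (z.1, z.2.2) ∈ (SK T φ hφ)^[l] ⁻¹' LS N (A 0)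
          · by_cases b3 : (S : X × ℝ → X × ℝ)^[n] (z.1, z.2.1) ∈ (SK T φ hφ)^[l] ⁻¹' LS N (A 1)
            · by_cases b4 : (S : X × ℝ → X × ℝ)^[n] (z.1, z.2.2) ∈ (SK T φ hφ)^[l] ⁻¹' LS N (A 1)
              · rw [indicator_of_mem b1, indicator_of_mem b2, indicator_of_mem b3, indicator_of_mem b4,
                  indicator_of_mem (show z ∈ D3 (Q l) from ⟨⟨b1, b3⟩, ⟨b2, b4⟩⟩)]
                norm_num
              · rw [indicator_of_notMem b4, indicator_of_notMem (show z ∉ D3 (Q l) from fun h => b4 h.2.2)]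
                ring
            · rw [indicator_of_notMem b3, indicator_of_notMem (show z ∉ D3 (Q l) from fun h => b3 h.1.2)]
              ring
          · rw [indicator_of_notMem b2, indicator_of_notMem (show z ∉ D3 (Q l) from fun h => b2 h.2.1)]
            ring
        · rw [indicator_of_notMem b1, indicator_of_notMem (show z ∉ D3 (Q l) from fun h => b1 h.1.1)]
          ring)
    refine le_trans hcl ?_
    refine le_trans (measureReal_union_le _ _) ?_
    have h1 := hBd 0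
    have h2 := hBd 1
    have h3 : (2 : ℝ) / N = 1 / N + 1 / N := by ring
    linarith
  set V := sq2 μ lam (LS N (A 0) ∩ (S : X × ℝ → X × ℝ)^[n] ⁻¹' LS N (A 1)) with hV
  have hstepV : ∀ l < L, |V - sq2 μ lam (Q l)| ≤ ε := by
    intro l hl
    have h12 : ∀ i, m.real (((S : X × ℝ → X × ℝ)^[l] ⁻¹' LS N (A i)) ∆ ((SK T φ hφ)^[l] ⁻¹' LS N (A i))) ≤ L * δ := by
      intro i
      have h13 := iter_diff m S (SK T φ hφ) hS (SK_mp μ T hT φ hφ) (LS N (A i)) (hE i) δ L
        (fun j hj => hclose j hj i) l hl.le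
      refine le_trans h13 ?_
      gcongr
    have hSl : Measurable ((S : X × ℝ → X × ℝ)^[l]) := S.measurable.iterate l
    have h14 : V = sq2 μ lam (((S : X × ℝ → X × ℝ)^[l] ⁻¹' LS N (A 0)) ∩
        (S : X × ℝ → X × ℝ)^[n] ⁻¹' ((S : X × ℝ → X × ℝ)^[l] ⁻¹' LS N (A 1))) := by
      rw [hV, ← sq2_inv μ lam ((T : X → X)^[l]) (hT.iterate l) ((S : X × ℝ → X × ℝ)^[l]) hSl
        (fib_iter μ T hT S hS hSe l) _ ((hE 0).inter (hSn (hE 1)))]
      congr 1
      rw [preimage_inter, ← preimage_comp, ← preimage_comp]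
      congr 2
      rw [← Function.iterate_add, ← Function.iterate_add, Nat.add_comm]
    have hU : MeasurableSet (((S : X × ℝ → X × ℝ)^[l] ⁻¹' LS N (A 0)) ∩
        (S : X × ℝ → X × ℝ)^[n] ⁻¹' ((S : X × ℝ → X × ℝ)^[l] ⁻¹' LS N (A 1))) :=
      (hSl (hE 0)).inter (hSn (hSl (hE 1)))
    rw [h14]
    refine le_trans (sq2_diff μ lam _ _ hU (hQm l)) ?_
    have hsub : (((S : X × ℝ → X × ℝ)^[l] ⁻¹' LS N (A 0)) ∩
        (S : X × ℝ → X × ℝ)^[n] ⁻¹' ((S : X × ℝ → X × ℝ)^[l] ⁻¹' LS N (A 1))) ∆ (Q l) ⊆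
        (((S : X × ℝ → X × ℝ)^[l] ⁻¹' LS N (A 0)) ∆ ((SK T φ hφ)^[l] ⁻¹' LS N (A 0))) ∪
        (S : X × ℝ → X × ℝ)^[n] ⁻¹' (((S : X × ℝ → X × ℝ)^[l] ⁻¹' LS N (A 1)) ∆ ((SK T φ hφ)^[l] ⁻¹' LS N (A 1))) := by
      intro w hw
      simp only [Q, Set.mem_symmDiff, mem_inter_iff, mem_preimage, mem_union] at hw ⊢
      tauto
    have h15 : m.real ((((S : X × ℝ → X × ℝ)^[l] ⁻¹' LS N (A 0)) ∩
        (S : X × ℝ → X × ℝ)^[n] ⁻¹' ((S : X × ℝ → X × ℝ)^[l] ⁻¹' LS N (A 1))) ∆ (Q l)) ≤ L * δ + L * δ := by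
      refine le_trans (measureReal_mono hsub (measure_ne_top _ _)) ?_
      refine le_trans (measureReal_union_le _ _) ?_
      refine add_le_add (h12 0) ?_
      rw [mp_real' (hS.iterate n) ((hSl (hE 1)).symmDiff (((SK T φ hφ).measurable.iterate l) (hE 1)))]
      exact h12 1
    have h16 : 2 * (L * δ + L * δ) = ε := by
      rw [hδ]
      field_simp
      ring
    rw [hm] at h15
    linarith
  have h17 : |∑ l ∈ Finset.range L, (V - ∫ z, ∏ i, G l i (R i z.1) (la i z) ∂m3)| ≤ (ε + 2 / N) * L := by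
    refine le_trans (Finset.abs_sum_le_sum_abs _ _) ?_
    have h18 : ∀ l ∈ Finset.range L, |V - ∫ z, ∏ i, G l i (R i z.1) (la i z) ∂m3| ≤ ε + 2 / N := by
      intro l hl
      have a1 := hstepV l (Finset.mem_range.1 hl)
      have a2 := hstepW l
      have a3 : V - ∫ z, ∏ i, G l i (R i z.1) (la i z) ∂m3 =
        (V - sq2 μ lam (Q l)) + (sq2 μ lam (Q l) - ∫ z, ∏ i, G l i (R i z.1) (la i z) ∂m3) := by ring
      rw [a3]
      refine le_trans (abs_add_le _ _) (add_le_add a1 a2)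
    refine le_trans (Finset.sum_le_sum h18) ?_
    rw [Finset.sum_const, Finset.card_range, nsmul_eq_mul, mul_comm]
  have h18 : (L : ℝ) * (V - c) = ∑ l ∈ Finset.range L, (V - ∫ z, ∏ i, G l i (R i z.1) (la i z) ∂m3) +
      ∑ l ∈ Finset.range L, (∫ z, ∏ i, G l i (R i z.1) (la i z) ∂m3 - c) := by
    rw [← Finset.sum_add_distrib]
    have : ∀ l ∈ Finset.range L, V - ∫ z, ∏ i, G l i (R i z.1) (la i z) ∂m3 +
        (∫ z, ∏ i, G l i (R i z.1) (la i z) ∂m3 - c) = V - c := fun l _ => by ring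
    rw [Finset.sum_congr rfl this, Finset.sum_const, Finset.card_range, nsmul_eq_mul]
  have h19 : (L : ℝ) * |V - c| ≤ (2 * ε + 2 / N) * L := by
    have : (L : ℝ) * |V - c| = |(L : ℝ) * (V - c)| := by rw [abs_mul, abs_of_pos hLr]
    rw [this, h18]
    refine le_trans (abs_add_le _ _) ?_
    linarith
  have h20 : |V - c| ≤ 2 * ε + 2 / N := by
    by_contra hcon
    push Not at hcon
    nlinarith
  exact h20

end Pool.Agent.Q132.SM
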