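import Mathlib
import Pool.Agent.H359R3.MX12
import Pool.Agent.Q132.SM.E

set_option autoImplicit false
set_option linter.unusedSectionVars false
set_option linter.unusedVariables false

/-!
Density and openness together, for pairs of fibre points.
-/

namespace Pool.Agent.Q132.SM

open MeasureTheory Set Filter Topology
open scoped ENNReal symmDiff
open Pool.H359R3 Pool.H359R3.WH Pool.H359R3.MX

variable {X : Type*} [MeasurableSpace X]
variable (μ : Measure X) [IsProbabilityMeasure μ]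

theorem sec_LS {N : ℕ} [NeZero N] (A : Set (X × ℕ)) (hA : MeasurableSet A) (x : X) :
    lam.real {y | (x, y) ∈ LS N A} = bar (gA (N := N) A) x := by
  have hm : MeasurableSet {y | (x, y) ∈ LS N A} := measurable_prodMk_left (LS_meas N A hA)
  rw [← integral_indicator_one hm]
  have h1 : ∫ y, ({y | (x, y) ∈ LS N A}).indicator 1 y ∂lam = ∫ y, gA A x (flf N y) ∂lam := by
    apply integral_congr_ae
    filter_upwards [ae_Ico] with y hy
    rw [gA_ind A x y hy]
    by_cases h : (x, y) ∈ LS N A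
    · rw [indicator_of_mem (show y ∈ {y | (x, y) ∈ LS N A} from h), indicator_of_mem h]
      rfl
    · rw [indicator_of_notMem (show y ∉ {y | (x, y) ∈ LS N A} from h), indicator_of_notMem h]
  rw [h1, int_lab (fun a => gA A x a)]
  rfl

theorem bar_int_PA {N : ℕ} [NeZero N] [NeZero (nd N)] (hN : 2 ≤ N) (A : Set (X × ℕ)) (hA : MeasurableSet A) :
    |∫ x, bar (gA (N := nd N) (PA N A)) x ∂μ - sq2 μ lam (LS N A)| ≤ 1 / ((N : ℝ) - 1) := by
  have hPm := PA_meas N A hA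
  have h1 : sq2 μ lam (LS N A) = ∫ x, bar (gA (N := N) A) x ^ 2 ∂μ := by
    unfold sq2
    congr 1
    funext x
    rw [sec_LS A hA x]
  rw [h1, ← integral_sub]
  · refine le_trans abs_integral_le_integral_abs ?_
    calc ∫ x, |bar (gA (N := nd N) (PA N A)) x - bar (gA (N := N) A) x ^ 2| ∂μ ≤ ∫ x, 1 / ((N : ℝ) - 1) ∂μ := by
          apply integral_mono_of_nonneg (Eventually.of_forall (fun x => abs_nonneg _)) (integrable_const _)
          exact Eventually.of_forall (fun x => bar_PA N hN A x)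
      _ = _ := by simp
  · exact integrable_of_abs_le μ (bar_meas _ (gA_meas _ hPm)) 1 (fun x => by
      rw [abs_of_nonneg (bar_nonneg _ (gA_nonneg _) x)]
      exact bar_le _ (gA_le _) x)
  · exact integrable_of_abs_le μ ((bar_meas _ (gA_meas _ hA)).pow_const 2) 1 (fun x => by
      rw [abs_of_nonneg (sq_nonneg _)]
      exact pow_le_one₀ (bar_nonneg _ (gA_nonneg _) x) (bar_le _ (gA_le _) x))

theorem prod_close (a b a' b' t : ℝ) (ha' : 0 ≤ a') (ha1 : a' ≤ 1) (hb : 0 ≤ b) (hb1 : b ≤ 1)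
    (h1 : |a - a'| ≤ t) (h2 : |b - b'| ≤ t) : |a * b - a' * b'| ≤ 2 * t := by
  have h3 : a * b - a' * b' = (a - a') * b + a' * (b - b') := by ring
  rw [h3]
  refine le_trans (abs_add_le _ _) ?_
  rw [abs_mul, abs_mul, abs_of_nonneg hb, abs_of_nonneg ha']
  have h4 : 0 ≤ t := le_trans (abs_nonneg _) h1
  nlinarith [abs_nonneg (a - a'), abs_nonneg (b - b')]

/-- the local statement for pairs -/
def CD2 {Y : Type*} [MeasurableSpace Y] (ν : Measure Y) (T : X ≃ᵐ X) : Prop :=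
  ∀ S : (X × Y) ≃ᵐ (X × Y), IsExt μ ν T S → ∀ (r : ℕ) (E : Fin r → Set (X × Y)), (∀ i, MeasurableSet (E i)) →
    ∀ δ : ℝ, 0 < δ → ∀ A : Fin 2 → Set (X × Y), (∀ i, MeasurableSet (A i)) → ∀ ε : ℝ, 0 < ε →
    ∃ S0 : (X × Y) ≃ᵐ (X × Y), IsExt μ ν T S0 ∧ IsSkew ν T S0 ∧ (∀ i, (μ.prod ν).real ((S ⁻¹' E i) ∆ (S0 ⁻¹' E i)) < δ) ∧
      ∃ J : Set (Set (X × Y)), J.Finite ∧ (∀ F ∈ J, MeasurableSet F) ∧ ∃ δ' : ℝ, 0 < δ' ∧ ∃ n0 : ℕ,
        ∀ S' : (X × Y) ≃ᵐ (X × Y), IsExt μ ν T S' →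
          (∀ F ∈ J, (μ.prod ν).real ((S' ⁻¹' F) ∆ (S0 ⁻¹' F)) ≤ δ') →
          ∀ n ≥ n0, |sq2 μ ν (A 0 ∩ (S' : X × Y → X × Y)^[n] ⁻¹' A 1) - sq2 μ ν (A 0) * sq2 μ ν (A 1)| ≤ ε

theorem core_dense2 [MeasurableSpace.CountablySeparated X] [NullSingletonClass μ]
    (T : X ≃ᵐ X) (hT : MeasurePreserving T μ μ) (hmix : MixS true 1 μ T) : CD2 μ lam T := by
  classical
  intro S hS r E hE δ hδ A hA ε hε
  obtain ⟨hSm, hSe⟩ := hS
  have hmix1 := fun (A B : Set X) (hA : MeasurableSet A) (hB : MeasurableSet B) =>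
    mix_one μ T hT true 1 le_rfl hmix A B hA hB
  obtain ⟨K, hK⟩ := exists_nat_gt (32 / ε + 2)
  have hKr : (2 : ℝ) < K := by
    have : 0 < 32 / ε := by positivity
    linarith
  have hK2 : 2 < K := by exact_mod_cast hKr
  -- approximate the test sets
  obtain ⟨m1, hm1, hB⟩ := LSApx_multi μ A hA K (by omega) (ε / 16) (by positivity)
  choose B hBm hB using hB
  obtain ⟨m2, hm2, hC⟩ := LSApx_multi μ E hE (K * m1) (by positivity) (δ / 8) (by positivity)
  choose C hCm hC using hC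
  obtain ⟨N, hNZ, hdvd, φ0, hφ0, hlab⟩ := fam_dense μ T hT S hSm hSe (K * m1 * m2) (by positivity) (δ / 4) (by positivity)
  have hNr : (0 : ℝ) < N := by exact_mod_cast NeZero.pos N
  obtain ⟨m3, hm3⟩ := hdvd
  have hm3pos : 0 < m3 := by
    rcases Nat.eq_zero_or_pos m3 with h | h
    · exfalso
      rw [h, mul_zero] at hm3
      exact (NeZero.ne N) hm3
    · exact h
  have hKN : K ≤ N := by
    rw [hm3, mul_assoc, mul_assoc]
    exact Nat.le_mul_of_pos_right K (by positivity)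
  have hKNr : (K : ℝ) ≤ N := by exact_mod_cast hKN
  have hndz : NeZero (nd N) := nd_ne N (by omega)
  have hndr : (0 : ℝ) < nd N := by exact_mod_cast NeZero.pos (nd N)
  have hlift : ∀ j, ∃ B' : Set (X × ℕ), MeasurableSet B' ∧ LS N B' = LS (K * m1) (B j) := by
    intro j
    obtain ⟨B', h1, h2⟩ := LS_lift (K * m1) (m2 * m3) (by positivity) (by positivity) (B j) (hBm j)
    refine ⟨B', h1, ?_⟩
    rw [hm3, mul_assoc]
    exact h2
  choose B' hB'm hB' using hlift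
  obtain ⟨Q, hQ, hQ0, hQδ⟩ := small_set μ (δ / 4) (by positivity)
  set ε0 := ε / 16 with hε0
  have hε0pos : 0 < ε0 := by rw [hε0]; positivity
  obtain ⟨φ, hφ, hφQ, L, hL, hpair⟩ := rwm_pair μ (rho N) (rho_tr N) T hT Q hQ (hit_of_mix μ T hT hmix1 Q hQ hQ0)
    (cell_of_mix μ T hT hmix1) (fun i : Fin 2 => gA (N := nd N) (PA N (B' i))) (fun i => gA_meas _ (PA_meas N _ (hB'm i)))
    (fun i => gA_nonneg _) (fun i => gA_le _) (fun i => bar_mix μ T hT hmix1 (PA N (B' i)) (PA_meas N _ (hB'm i))) φ0 hφ0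
    (ε0 ^ 2 / (2 * (nd N : ℝ) ^ 2)) (by positivity)
  obtain ⟨δ', hδ', n0, hopen⟩ := core_open2 μ T hT hmix φ hφ B' hB'm L hL ε0 hε0pos hpair
  refine ⟨SK T φ hφ, ⟨SK_mp μ T hT φ hφ, Eventually.of_forall (fun z => rfl)⟩,
    ⟨fun x => (rz N (φ x)).1, fun x => (rz N (φ x)).2, rz_unc_meas φ hφ, fun z => rfl⟩, ?_, ?_⟩
  · intro i
    have hLm : MeasurableSet (LS (K * m1 * m2) (C i)) := LS_meas _ _ (hCm i)
    have e1 : (μ.prod lam).real ((S ⁻¹' E i) ∆ (S ⁻¹' LS (K * m1 * m2) (C i))) < δ / 8 := by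
      rw [← preimage_symmDiff, mp_real' hSm ((hE i).symmDiff hLm)]
      exact hC i
    have e2 := lab_diff μ T S hSe φ0 hφ0 (C i) (δ / 4) hlab
    have e3 := pert_diff μ T φ φ0 hφ hφ0 Q hQ hφQ (LS (K * m1 * m2) (C i))
    have e4 : (μ.prod lam).real ((SK T φ hφ ⁻¹' LS (K * m1 * m2) (C i)) ∆ (SK T φ hφ ⁻¹' E i)) < δ / 8 := by
      rw [← preimage_symmDiff, mp_real' (SK_mp μ T hT φ hφ) (hLm.symmDiff (hE i)), symmDiff_comm]
      exact hC i
    have e5 := diff_tri (μ.prod lam) (S ⁻¹' E i) (S ⁻¹' LS (K * m1 * m2) (C i)) (SK T φ hφ ⁻¹' E i)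
    have e6 := diff_tri (μ.prod lam) (S ⁻¹' LS (K * m1 * m2) (C i)) (SK T φ0 hφ0 ⁻¹' LS (K * m1 * m2) (C i)) (SK T φ hφ ⁻¹' E i)
    have e7 := diff_tri (μ.prod lam) (SK T φ0 hφ0 ⁻¹' LS (K * m1 * m2) (C i)) (SK T φ hφ ⁻¹' LS (K * m1 * m2) (C i))
      (SK T φ hφ ⁻¹' E i)
    linarith
  · refine ⟨⋃ l ∈ Finset.range L, ⋃ i ∈ (Finset.univ : Finset (Fin 2)), {(SK T φ hφ)^[l] ⁻¹' LS N (B' i)}, ?_, ?_, δ', hδ', n0, ?_⟩
    · refine Set.Finite.biUnion (Finset.finite_toSet _) (fun l _ => Set.Finite.biUnion (Finset.finite_toSet _) (fun i _ => Set.finite_singleton _))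
    · intro F hF
      simp only [mem_iUnion, mem_singleton_iff, exists_prop] at hF
      obtain ⟨l, _, i, _, rfl⟩ := hF
      exact ((SK T φ hφ).measurable.iterate l) (LS_meas N _ (hB'm i))
    · intro S' hS' hclose n hn
      have h1 := hopen S' hS'.1 hS'.2 (fun l hl i => hclose _ (by
        simp only [mem_iUnion, mem_singleton_iff, exists_prop]
        exact ⟨l, Finset.mem_range.2 hl, i, Finset.mem_univ i, rfl⟩)) n hn
      have hSn : Measurable ((S' : X × ℝ → X × ℝ)^[n]) := S'.measurable.iterate n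
      have hLB : ∀ j, MeasurableSet (LS N (B' j)) := fun j => LS_meas _ _ (hB'm j)
      have hBB : ∀ j, (μ.prod lam).real (A j ∆ LS N (B' j)) < ε / 16 := by
        intro j
        rw [hB']
        exact hB j
      have h2 : |sq2 μ lam (A 0 ∩ (S' : X × ℝ → X × ℝ)^[n] ⁻¹' A 1) -
          sq2 μ lam (LS N (B' 0) ∩ (S' : X × ℝ → X × ℝ)^[n] ⁻¹' LS N (B' 1))| ≤ ε / 4 := by
        refine le_trans (sq2_diff μ lam _ _ ((hA 0).inter (hSn (hA 1))) ((hLB 0).inter (hSn (hLB 1)))) ?_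
        have hsub : (A 0 ∩ (S' : X × ℝ → X × ℝ)^[n] ⁻¹' A 1) ∆
            (LS N (B' 0) ∩ (S' : X × ℝ → X × ℝ)^[n] ⁻¹' LS N (B' 1)) ⊆
            (A 0 ∆ LS N (B' 0)) ∪ (S' : X × ℝ → X × ℝ)^[n] ⁻¹' (A 1 ∆ LS N (B' 1)) := by
          intro w hw
          simp only [Set.mem_symmDiff, mem_inter_iff, mem_preimage, mem_union] at hw ⊢
          tauto
        have h3 : (μ.prod lam).real ((A 0 ∩ (S' : X × ℝ → X × ℝ)^[n] ⁻¹' A 1) ∆
            (LS N (B' 0) ∩ (S' : X × ℝ → X × ℝ)^[n] ⁻¹' LS N (B' 1))) ≤ ε / 16 + ε / 16 := by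
          refine le_trans (measureReal_mono hsub (measure_ne_top _ _)) ?_
          refine le_trans (measureReal_union_le _ _) ?_
          refine add_le_add (hBB 0).le ?_
          rw [mp_real' (hS'.1.iterate n) ((hA 1).symmDiff (hLB 1))]
          exact (hBB 1).le
        linarith
      have h4 : |(∏ i, ∫ x, bar (gA (N := nd N) (PA N (B' i))) x ∂μ) -
          sq2 μ lam (LS N (B' 0)) * sq2 μ lam (LS N (B' 1))| ≤ 2 * (1 / ((N : ℝ) - 1)) := by
        rw [Fin.prod_univ_two]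
        have hb := bar_int_mem μ (gA (N := nd N) (PA N (B' 1))) (gA_meas _ (PA_meas N _ (hB'm 1))) (gA_nonneg _) (gA_le _)
        exact prod_close _ _ _ _ _ (sq2_nonneg μ lam _) (sq2_le μ lam _) hb.1 hb.2
          (bar_int_PA μ (by omega) (B' 0) (hB'm 0)) (bar_int_PA μ (by omega) (B' 1) (hB'm 1))
      have h5 : |sq2 μ lam (LS N (B' 0)) * sq2 μ lam (LS N (B' 1)) - sq2 μ lam (A 0) * sq2 μ lam (A 1)| ≤ ε / 4 := by
        have h6 : ∀ j, |sq2 μ lam (LS N (B' j)) - sq2 μ lam (A j)| ≤ ε / 8 := by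
          intro j
          refine le_trans (sq2_diff μ lam _ _ (hLB j) (hA j)) ?_
          have := hBB j
          rw [symmDiff_comm]
          linarith
        have h7 := prod_close _ _ _ _ _ (sq2_nonneg μ lam (A 0)) (sq2_le μ lam _) (sq2_nonneg μ lam (LS N (B' 1))) (sq2_le μ lam _)
          (h6 0) (h6 1)
        linarith
      have h8 : 2 * (1 / ((N : ℝ) - 1)) ≤ ε / 16 := by
        have h9 : 32 / ε ≤ (N : ℝ) - 1 := by linarith
        have h10 : (0 : ℝ) < N - 1 := by linarith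
        rw [div_le_iff₀ hε] at h9
        rw [← mul_div_assoc, div_le_iff₀ h10]
        nlinarith
      have h11 : 2 / (N : ℝ) ≤ ε / 16 := by
        refine le_trans ?_ h8
        rw [← mul_div_assoc]
        have h10 : (0 : ℝ) < N - 1 := by linarith
        apply div_le_div₀ (by norm_num) (by norm_num) h10
        linarith
      have g1 := abs_le.1 h1
      have g2 := abs_le.1 h2
      have g3 := abs_le.1 h4
      have g4 := abs_le.1 h5
      rw [abs_le]
      rw [hε0] at g1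
      constructor
      · linarith [g1.1, g2.1, g3.1, g4.1]
      · linarith [g1.2, g2.2, g3.2, g4.2]

end Pool.Agent.Q132.SM
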