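import Mathlib

open MeasureTheory Filter Topology
open scoped ENNReal ComplexConjugate

set_option linter.unusedSectionVars false
set_option linter.unusedVariables false

namespace Pool.Agent.Q132.SM.Fun

variable {X Y : Type*} [MeasurableSpace X] [MeasurableSpace Y]

/-- Cauchy-Schwarz on a fibre, with extended norms. -/
theorem cs (ν : Measure Y) {u v : Y → ℂ} (hu : AEStronglyMeasurable u ν)
    (hv : AEStronglyMeasurable v ν) :
    ‖∫ y, u y * v y ∂ν‖ₑ ^ 2 ≤ (∫⁻ y, ‖u y‖ₑ ^ 2 ∂ν) * ∫⁻ y, ‖v y‖ₑ ^ 2 ∂ν := by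
  have h1 : ‖∫ y, u y * v y ∂ν‖ₑ ≤ ∫⁻ y, ‖u y‖ₑ * ‖v y‖ₑ ∂ν := by
    refine (enorm_integral_le_lintegral_enorm _).trans (le_of_eq ?_)
    simp
  have h2 := ENNReal.lintegral_mul_le_Lp_mul_Lq ν (p := 2) (q := 2)
    (by rw [Real.holderConjugate_iff]; norm_num) hu.enorm hv.enorm
  simp only [Pi.mul_apply] at h2
  have h3 := h1.trans h2
  calc ‖∫ y, u y * v y ∂ν‖ₑ ^ 2
      ≤ ((∫⁻ y, ‖u y‖ₑ ^ (2:ℝ) ∂ν) ^ (1 / (2:ℝ)) * (∫⁻ y, ‖v y‖ₑ ^ (2:ℝ) ∂ν) ^ (1 / (2:ℝ))) ^ 2 :=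
        pow_le_pow_left' h3 2
    _ = (∫⁻ y, ‖u y‖ₑ ^ 2 ∂ν) * ∫⁻ y, ‖v y‖ₑ ^ 2 ∂ν := by
        rw [mul_pow, ← ENNReal.rpow_natCast, ← ENNReal.rpow_natCast, ← ENNReal.rpow_mul,
          ← ENNReal.rpow_mul]
        norm_num

/-- Cauchy-Schwarz for a single function on a probability space. -/
theorem cs1 (ν : Measure Y) [IsProbabilityMeasure ν] {u : Y → ℂ}
    (hu : AEStronglyMeasurable u ν) :
    ‖∫ y, u y ∂ν‖ₑ ^ 2 ≤ ∫⁻ y, ‖u y‖ₑ ^ 2 ∂ν := by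
  have h := cs ν hu (aestronglyMeasurable_const (b := (1:ℂ)))
  simpa using h

/-- From fibrewise bounds to the `L²` bound. -/
theorem bound (μ : Measure X) (ν : Measure Y) [SFinite ν] {F : X → ℂ} {u : X × Y → ℂ}
    (hu : AEStronglyMeasurable u (μ.prod ν)) (C : ℝ≥0∞) (w : X → ℝ≥0∞)
    (hF : ∀ᵐ x ∂μ, ‖F x‖ₑ ^ 2 ≤ (∫⁻ y, ‖u (x, y)‖ₑ ^ 2 ∂ν) * w x) (hw : ∀ᵐ x ∂μ, w x ≤ C) :
    eLpNorm F 2 μ ≤ C ^ (1 / (2:ℝ)) * eLpNorm u 2 (μ.prod ν) := by
  rw [eLpNorm_eq_lintegral_rpow_enorm_toReal (by norm_num) (by norm_num),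
    eLpNorm_eq_lintegral_rpow_enorm_toReal (by norm_num) (by norm_num)]
  simp only [ENNReal.toReal_ofNat]
  rw [← ENNReal.mul_rpow_of_nonneg _ _ (by norm_num : (0:ℝ) ≤ 1 / 2)]
  refine ENNReal.rpow_le_rpow ?_ (by norm_num)
  rw [lintegral_prod _ (hu.enorm.pow_const _)]
  rw [← lintegral_const_mul'' _ (hu.enorm.pow_const _).lintegral_prod_right']
  refine lintegral_mono_ae ?_
  filter_upwards [hF, hw] with x h1 h2
  calc ‖F x‖ₑ ^ (2:ℝ) = ‖F x‖ₑ ^ 2 := by norm_num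
    _ ≤ (∫⁻ y, ‖u (x, y)‖ₑ ^ 2 ∂ν) * w x := h1
    _ ≤ (∫⁻ y, ‖u (x, y)‖ₑ ^ 2 ∂ν) * C := by gcongr
    _ = C * ∫⁻ y, ‖u (x, y)‖ₑ ^ (2:ℝ) ∂ν := by
        rw [mul_comm]; norm_num

/-- The difference between the fibre correlation and the product of the fibre means. -/
noncomputable def D (ν : Measure Y) (T : X → X) (S : X × Y → X × Y) (f g : X × Y → ℂ) (x : X) : ℂ :=
  (∫ y, f (S (x, y)) * starRingEnd ℂ (g (x, y)) ∂ν) -
    (∫ y, f (T x, y) ∂ν) * ∫ y, starRingEnd ℂ (g (x, y)) ∂ν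

section one

variable (μ : Measure X) (ν : Measure Y) [IsProbabilityMeasure μ] [IsProbabilityMeasure ν]
  {T : X → X} {S : X × Y → X × Y} (hT : MeasurePreserving T μ μ)
  (hS : MeasurePreserving S (μ.prod ν) (μ.prod ν))

theorem mpT {T : X → X} (hT : MeasurePreserving T μ μ) :
    MeasurePreserving (fun z : X × Y => (T z.1, z.2)) (μ.prod ν) (μ.prod ν) :=
  hT.prod (MeasurePreserving.id ν)

theorem conj_aesm {α : Type*} [MeasurableSpace α] {m : Measure α} {g : α → ℂ}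
    (hg : AEStronglyMeasurable g m) :
    AEStronglyMeasurable (fun z => starRingEnd ℂ (g z)) m :=
  Complex.continuous_conj.comp_aestronglyMeasurable hg

include hT hS

theorem aesm1 {f g : X × Y → ℂ} (hf : AEStronglyMeasurable f (μ.prod ν))
    (hg : AEStronglyMeasurable g (μ.prod ν)) :
    AEStronglyMeasurable (fun x => ∫ y, f (S (x, y)) * starRingEnd ℂ (g (x, y)) ∂ν) μ := by
  have h : AEStronglyMeasurable (fun z : X × Y => f (S z) * starRingEnd ℂ (g z)) (μ.prod ν) :=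
    (hf.comp_measurePreserving hS).mul (conj_aesm hg)
  exact h.integral_prod_right'

theorem aesm2 {f g : X × Y → ℂ} (hf : AEStronglyMeasurable f (μ.prod ν))
    (hg : AEStronglyMeasurable g (μ.prod ν)) :
    AEStronglyMeasurable (fun x => (∫ y, f (T x, y) ∂ν) * ∫ y, starRingEnd ℂ (g (x, y)) ∂ν) μ := by
  have h : AEStronglyMeasurable (fun z : X × Y => f (T z.1, z.2)) (μ.prod ν) :=
    hf.comp_measurePreserving (mpT μ ν hT)
  exact h.integral_prod_right'.mul (conj_aesm hg).integral_prod_right'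

theorem D_bound {f g : X × Y → ℂ} (hf : AEStronglyMeasurable f (μ.prod ν))
    (hg : AEStronglyMeasurable g (μ.prod ν)) (C : ℝ≥0∞)
    (hC : ∀ᵐ x ∂μ, ∫⁻ y, ‖g (x, y)‖ₑ ^ 2 ∂ν ≤ C) :
    eLpNorm (D ν T S f g) 2 μ ≤ 2 * (C ^ (1 / (2:ℝ)) * eLpNorm f 2 (μ.prod ν)) := by
  have hfS : AEStronglyMeasurable (fun z : X × Y => f (S z)) (μ.prod ν) :=
    hf.comp_measurePreserving hS
  have hfT : AEStronglyMeasurable (fun z : X × Y => f (T z.1, z.2)) (μ.prod ν) :=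
    hf.comp_measurePreserving (mpT μ ν hT)
  have hgc := conj_aesm hg
  have e1 : eLpNorm (fun z : X × Y => f (S z)) 2 (μ.prod ν) = eLpNorm f 2 (μ.prod ν) :=
    eLpNorm_comp_measurePreserving hf hS
  have e2 : eLpNorm (fun z : X × Y => f (T z.1, z.2)) 2 (μ.prod ν) = eLpNorm f 2 (μ.prod ν) :=
    eLpNorm_comp_measurePreserving hf (mpT μ ν hT)
  have b1 : eLpNorm (fun x => ∫ y, f (S (x, y)) * starRingEnd ℂ (g (x, y)) ∂ν) 2 μ ≤
      C ^ (1 / (2:ℝ)) * eLpNorm f 2 (μ.prod ν) := by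
    rw [← e1]
    refine bound μ ν hfS C (fun x => ∫⁻ y, ‖g (x, y)‖ₑ ^ 2 ∂ν) ?_ hC
    filter_upwards [hfS.prodMk_left, hgc.prodMk_left] with x h1 h2
    refine (cs ν h1 h2).trans (le_of_eq ?_)
    simp
  have b2 : eLpNorm (fun x => (∫ y, f (T x, y) ∂ν) * ∫ y, starRingEnd ℂ (g (x, y)) ∂ν) 2 μ ≤
      C ^ (1 / (2:ℝ)) * eLpNorm f 2 (μ.prod ν) := by
    rw [← e2]
    refine bound μ ν hfT C (fun x => ∫⁻ y, ‖g (x, y)‖ₑ ^ 2 ∂ν) ?_ hC
    filter_upwards [hfT.prodMk_left, hgc.prodMk_left] with x h1 h2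
    rw [enorm_mul, mul_pow]
    have h3 := cs1 ν h1
    have h4 := cs1 ν h2
    simp only [RCLike.enorm_conj] at h4
    exact mul_le_mul' h3 h4
  have h := eLpNorm_sub_le (μ := μ) (p := 2) (aesm1 μ ν hT hS hf hg) (aesm2 μ ν hT hS hf hg)
    (by norm_num)
  refine le_trans h ?_
  rw [two_mul]
  exact add_le_add b1 b2

theorem D_bound' {f g : X × Y → ℂ} (hf : AEStronglyMeasurable f (μ.prod ν))
    (hg : AEStronglyMeasurable g (μ.prod ν)) (hf1 : ∀ z, ‖f z‖ₑ ≤ 1) :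
    eLpNorm (D ν T S f g) 2 μ ≤ 2 * eLpNorm g 2 (μ.prod ν) := by
  have hfS : AEStronglyMeasurable (fun z : X × Y => f (S z)) (μ.prod ν) :=
    hf.comp_measurePreserving hS
  have hfT : AEStronglyMeasurable (fun z : X × Y => f (T z.1, z.2)) (μ.prod ν) :=
    hf.comp_measurePreserving (mpT μ ν hT)
  have hgc := conj_aesm hg
  have b1 : eLpNorm (fun x => ∫ y, f (S (x, y)) * starRingEnd ℂ (g (x, y)) ∂ν) 2 μ ≤
      1 ^ (1 / (2:ℝ)) * eLpNorm g 2 (μ.prod ν) := by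
    refine bound μ ν hg 1 (fun x => ∫⁻ y, ‖f (S (x, y))‖ₑ ^ 2 ∂ν) ?_ ?_
    · filter_upwards [hfS.prodMk_left, hgc.prodMk_left] with x h1 h2
      refine (cs ν h1 h2).trans (le_of_eq ?_)
      simp [mul_comm]
    · refine Eventually.of_forall fun x => ?_
      calc ∫⁻ y, ‖f (S (x, y))‖ₑ ^ 2 ∂ν ≤ ∫⁻ y, 1 ∂ν :=
            lintegral_mono fun y => pow_le_one' (hf1 _) 2
        _ = 1 := by simp
  have b2 : eLpNorm (fun x => (∫ y, f (T x, y) ∂ν) * ∫ y, starRingEnd ℂ (g (x, y)) ∂ν) 2 μ ≤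
      1 ^ (1 / (2:ℝ)) * eLpNorm g 2 (μ.prod ν) := by
    refine bound μ ν hg 1 (fun x => ∫⁻ y, ‖f (T x, y)‖ₑ ^ 2 ∂ν) ?_ ?_
    · filter_upwards [hfT.prodMk_left, hgc.prodMk_left] with x h1 h2
      rw [enorm_mul, mul_pow, mul_comm]
      have h3 := cs1 ν h1
      have h4 := cs1 ν h2
      simp only [RCLike.enorm_conj] at h4
      exact mul_le_mul' h4 h3
    · refine Eventually.of_forall fun x => ?_
      calc ∫⁻ y, ‖f (T x, y)‖ₑ ^ 2 ∂ν ≤ ∫⁻ y, 1 ∂ν :=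
            lintegral_mono fun y => pow_le_one' (hf1 _) 2
        _ = 1 := by simp
  have h := eLpNorm_sub_le (μ := μ) (p := 2) (aesm1 μ ν hT hS hf hg) (aesm2 μ ν hT hS hf hg)
    (by norm_num)
  refine le_trans h ?_
  rw [ENNReal.one_rpow, one_mul] at b1 b2
  rw [two_mul]
  exact add_le_add b1 b2

theorem int1 {f g : X × Y → ℂ} (hf : MemLp f 2 (μ.prod ν)) (hg : MemLp g 2 (μ.prod ν)) :
    ∀ᵐ x ∂μ, Integrable (fun y => f (S (x, y)) * starRingEnd ℂ (g (x, y))) ν := by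
  have h1 : MemLp (fun z : X × Y => f (S z)) 2 (μ.prod ν) := hf.comp_measurePreserving hS
  have h2 : MemLp (fun z : X × Y => starRingEnd ℂ (g z)) 2 (μ.prod ν) := by
    refine hg.of_le (conj_aesm hg.1) (Eventually.of_forall fun z => ?_)
    simp
  exact (h1.integrable_mul h2).prod_right_ae

theorem int2 {f : X × Y → ℂ} (hf : MemLp f 2 (μ.prod ν)) :
    ∀ᵐ x ∂μ, Integrable (fun y => f (T x, y)) ν := by
  have h1 : MemLp (fun z : X × Y => f (T z.1, z.2)) 2 (μ.prod ν) :=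
    hf.comp_measurePreserving (mpT μ ν hT)
  exact (h1.integrable (by norm_num)).prod_right_ae

theorem int3 {g : X × Y → ℂ} (hg : MemLp g 2 (μ.prod ν)) :
    ∀ᵐ x ∂μ, Integrable (fun y => starRingEnd ℂ (g (x, y))) ν := by
  have h2 : MemLp (fun z : X × Y => starRingEnd ℂ (g z)) 2 (μ.prod ν) := by
    refine hg.of_le (conj_aesm hg.1) (Eventually.of_forall fun z => ?_)
    simp
  exact (h2.integrable (by norm_num)).prod_right_ae

theorem D_add_left {f f' g : X × Y → ℂ} (hf : MemLp f 2 (μ.prod ν)) (hf' : MemLp f' 2 (μ.prod ν))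
    (hg : MemLp g 2 (μ.prod ν)) :
    D ν T S (f + f') g =ᵐ[μ] D ν T S f g + D ν T S f' g := by
  filter_upwards [int1 μ ν hT hS hf hg, int1 μ ν hT hS hf' hg, int2 μ ν hT hS hf,
    int2 μ ν hT hS hf'] with x h1 h2 h3 h4
  simp only [D, Pi.add_apply, add_mul]
  rw [integral_add h1 h2, integral_add h3 h4]
  ring

theorem D_add_right {f g g' : X × Y → ℂ} (hf : MemLp f 2 (μ.prod ν)) (hg : MemLp g 2 (μ.prod ν))
    (hg' : MemLp g' 2 (μ.prod ν)) :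
    D ν T S f (g + g') =ᵐ[μ] D ν T S f g + D ν T S f g' := by
  filter_upwards [int1 μ ν hT hS hf hg, int1 μ ν hT hS hf hg', int3 μ ν hT hS hg,
    int3 μ ν hT hS hg'] with x h1 h2 h3 h4
  simp only [D, Pi.add_apply, map_add, mul_add]
  rw [integral_add h1 h2, integral_add h3 h4]
  ring

theorem D_memLp {f g : X × Y → ℂ} (hf : MemLp f 2 (μ.prod ν))
    (hg : MemLp g 2 (μ.prod ν)) (hf1 : ∀ z, ‖f z‖ₑ ≤ 1) :
    MemLp (D ν T S f g) 2 μ := by
  refine ⟨(aesm1 μ ν hT hS hf.1 hg.1).sub (aesm2 μ ν hT hS hf.1 hg.1), ?_⟩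
  refine lt_of_le_of_lt (D_bound' μ ν hT hS hf.1 hg.1 hf1) ?_
  exact ENNReal.mul_lt_top (by norm_num) hg.2

end one

theorem D_ind (ν : Measure Y) [IsProbabilityMeasure ν] {T : X → X} {S : X × Y → X × Y}
    (hT : Measurable T) (hS : Measurable S) {A B : Set (X × Y)} (hA : MeasurableSet A)
    (hB : MeasurableSet B) (c : ℂ) (x : X) :
    D ν T S (A.indicator fun _ => 1) (B.indicator fun _ => c) x =
      starRingEnd ℂ c * (((ν.real {y | (x, y) ∈ B ∧ S (x, y) ∈ A} -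
        ν.real {y | (T x, y) ∈ A} * ν.real {y | (x, y) ∈ B} : ℝ)) : ℂ) := by
  have m1 : MeasurableSet {y : Y | (x, y) ∈ B ∧ S (x, y) ∈ A} :=
    (measurable_prodMk_left hB).inter ((hS.comp measurable_prodMk_left) hA)
  have m2 : MeasurableSet {y : Y | (T x, y) ∈ A} := measurable_prodMk_left hA
  have m3 : MeasurableSet {y : Y | (x, y) ∈ B} := measurable_prodMk_left hB
  have e1 : (fun y => (A.indicator (fun _ => (1:ℂ)) (S (x, y))) *
      starRingEnd ℂ (B.indicator (fun _ => c) (x, y))) =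
      {y : Y | (x, y) ∈ B ∧ S (x, y) ∈ A}.indicator (fun _ => starRingEnd ℂ c) := by
    funext y
    by_cases h1 : (x, y) ∈ B <;> by_cases h2 : S (x, y) ∈ A <;> simp [Set.indicator, h1, h2]
  have e2 : (fun y => A.indicator (fun _ => (1:ℂ)) (T x, y)) =
      {y : Y | (T x, y) ∈ A}.indicator (fun _ => (1:ℂ)) := by
    funext y
    by_cases h1 : (T x, y) ∈ A <;> simp [Set.indicator, h1]
  have e3 : (fun y => starRingEnd ℂ (B.indicator (fun _ => c) (x, y))) =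
      {y : Y | (x, y) ∈ B}.indicator (fun _ => starRingEnd ℂ c) := by
    funext y
    by_cases h1 : (x, y) ∈ B <;> simp [Set.indicator, h1]
  unfold D
  rw [e1, e2, e3, integral_indicator_const _ m1, integral_indicator_const _ m2,
    integral_indicator_const _ m3]
  simp only [Complex.real_smul, Complex.ofReal_sub, Complex.ofReal_mul]
  ring

section lim

variable (μ : Measure X) (ν : Measure Y) [IsProbabilityMeasure μ] [IsProbabilityMeasure ν]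
  {T : X → X} {S : X × Y → X × Y}

theorem lim_ind (hT : MeasurePreserving T μ μ)
    (hS : MeasurePreserving S (μ.prod ν) (μ.prod ν)) {A B : Set (X × Y)} (hA : MeasurableSet A)
    (hB : MeasurableSet B) (c : ℂ)
    (h : Tendsto (fun n : ℕ => ∫ x, (ν.real {y | (x,y) ∈ B ∧ S^[n] (x,y) ∈ A} -
      ν.real {y | (T^[n] x, y) ∈ A} * ν.real {y | (x,y) ∈ B})^2 ∂μ) atTop (𝓝 0)) :
    Tendsto (fun n : ℕ => eLpNorm (D ν T^[n] S^[n] (A.indicator fun _ => 1)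
      (B.indicator fun _ => c)) 2 μ) atTop (𝓝 0) := by
  have hf1 : ∀ z : X × Y, ‖A.indicator (fun _ => (1:ℂ)) z‖ₑ ≤ 1 := by
    intro z
    by_cases hz : z ∈ A <;> simp [hz]
  have hf : MemLp (A.indicator fun _ => (1:ℂ)) 2 (μ.prod ν) :=
    memLp_indicator_const 2 hA 1 (Or.inr (measure_ne_top _ _))
  have hg : MemLp (B.indicator fun _ => c) 2 (μ.prod ν) :=
    memLp_indicator_const 2 hB c (Or.inr (measure_ne_top _ _))
  have key : ∀ n : ℕ, eLpNorm (D ν T^[n] S^[n] (A.indicator fun _ => 1)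
      (B.indicator fun _ => c)) 2 μ = ENNReal.ofReal ((‖c‖ ^ 2 *
        ∫ x, (ν.real {y | (x,y) ∈ B ∧ S^[n] (x,y) ∈ A} -
      ν.real {y | (T^[n] x, y) ∈ A} * ν.real {y | (x,y) ∈ B})^2 ∂μ) ^ ((2:ℝ)⁻¹)) := by
    intro n
    have hm := D_memLp μ ν (hT.iterate n) (hS.iterate n) hf hg hf1
    rw [hm.eLpNorm_eq_integral_rpow_norm (by norm_num) (by norm_num)]
    simp only [ENNReal.toReal_ofNat]
    rw [← integral_const_mul]
    congr 3
    funext x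
    rw [D_ind ν (hT.iterate n).measurable (hS.iterate n).measurable hA hB c x]
    rw [norm_mul, Complex.norm_real]
    simp only [RCLike.norm_conj, Real.rpow_ofNat, mul_pow, Real.norm_eq_abs, sq_abs]
  simp_rw [key]
  have h2 : Tendsto (fun n : ℕ => (‖c‖ ^ 2 *
        ∫ x, (ν.real {y | (x,y) ∈ B ∧ S^[n] (x,y) ∈ A} -
      ν.real {y | (T^[n] x, y) ∈ A} * ν.real {y | (x,y) ∈ B})^2 ∂μ) ^ ((2:ℝ)⁻¹))
      atTop (𝓝 ((‖c‖ ^ 2 * 0) ^ ((2:ℝ)⁻¹))) :=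
    (h.const_mul _).rpow_const (Or.inr (by norm_num))
  have h3 := ENNReal.tendsto_ofReal h2
  simpa using h3

/-- A family of functions whose norms are eventually below every positive number. -/
theorem tendsto_of_approx {a : ℕ → ℝ≥0∞}
    (h : ∀ ε : ℝ≥0∞, ε ≠ 0 → ∃ b : ℕ → ℝ≥0∞, Tendsto b atTop (𝓝 0) ∧ ∀ n, a n ≤ b n + ε) :
    Tendsto a atTop (𝓝 0) := by
  rw [ENNReal.tendsto_nhds_zero]
  intro ε hε
  obtain ⟨b, hb, hab⟩ := h (ε / 2) (by simpa using hε.ne')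
  rw [ENNReal.tendsto_nhds_zero] at hb
  filter_upwards [hb (ε / 2) (by simpa [pos_iff_ne_zero] using hε.ne')] with n hn
  calc a n ≤ b n + ε / 2 := hab n
    _ ≤ ε / 2 + ε / 2 := by gcongr
    _ = ε := ENNReal.add_halves ε

theorem lim_right (hT : MeasurePreserving T μ μ)
    (hS : MeasurePreserving S (μ.prod ν) (μ.prod ν)) {A : Set (X × Y)} (hA : MeasurableSet A)
    (h : ∀ B : Set (X × Y), MeasurableSet B →
      Tendsto (fun n : ℕ => ∫ x, (ν.real {y | (x,y) ∈ B ∧ S^[n] (x,y) ∈ A} -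
      ν.real {y | (T^[n] x, y) ∈ A} * ν.real {y | (x,y) ∈ B})^2 ∂μ) atTop (𝓝 0))
    {g : X × Y → ℂ} (hg : MemLp g 2 (μ.prod ν)) :
    Tendsto (fun n : ℕ => eLpNorm (D ν T^[n] S^[n] (A.indicator fun _ => 1) g) 2 μ)
      atTop (𝓝 0) := by
  have hf1 : ∀ z : X × Y, ‖A.indicator (fun _ => (1:ℂ)) z‖ₑ ≤ 1 := by
    intro z
    by_cases hz : z ∈ A <;> simp [hz]
  have hf : MemLp (A.indicator fun _ => (1:ℂ)) 2 (μ.prod ν) :=
    memLp_indicator_const 2 hA 1 (Or.inr (measure_ne_top _ _))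
  refine tendsto_of_approx fun ε hε => ?_
  have k0 : ∀ (c : ℂ) ⦃s : Set (X × Y)⦄, MeasurableSet s → (μ.prod ν) s < ∞ →
      ∀ {ε : ℝ≥0∞}, ε ≠ 0 → ∃ g' : X × Y → ℂ,
        eLpNorm (g' - s.indicator fun _ => c) 2 (μ.prod ν) ≤ ε ∧ (MemLp g' 2 (μ.prod ν) ∧
      Tendsto (fun n : ℕ => eLpNorm (D ν T^[n] S^[n] (A.indicator fun _ => 1) g') 2 μ)
      atTop (𝓝 0)) := by
    intro c B hB _ ε' hε'
    refine ⟨B.indicator fun _ => c, ?_, memLp_indicator_const 2 hB c (Or.inr (measure_ne_top _ _)),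
      lim_ind μ ν hT hS hA hB c (h B hB)⟩
    simp
  have k1 : ∀ g1 g2 : X × Y → ℂ, (MemLp g1 2 (μ.prod ν) ∧
      Tendsto (fun n : ℕ => eLpNorm (D ν T^[n] S^[n] (A.indicator fun _ => 1) g1) 2 μ)
      atTop (𝓝 0)) → (MemLp g2 2 (μ.prod ν) ∧
      Tendsto (fun n : ℕ => eLpNorm (D ν T^[n] S^[n] (A.indicator fun _ => 1) g2) 2 μ)
      atTop (𝓝 0)) → (MemLp (g1 + g2) 2 (μ.prod ν) ∧
      Tendsto (fun n : ℕ => eLpNorm (D ν T^[n] S^[n] (A.indicator fun _ => 1) (g1 + g2)) 2 μ)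
      atTop (𝓝 0)) := by
    rintro g1 g2 ⟨h1, h1'⟩ ⟨h2, h2'⟩
    refine ⟨h1.add h2, ?_⟩
    have h3 := h1'.add h2'
    rw [add_zero] at h3
    refine tendsto_of_tendsto_of_tendsto_of_le_of_le tendsto_const_nhds h3
      (fun n => zero_le) (fun n => ?_)
    rw [eLpNorm_congr_ae (D_add_right μ ν (hT.iterate n) (hS.iterate n) hf h1 h2)]
    exact eLpNorm_add_le (D_memLp μ ν (hT.iterate n) (hS.iterate n) hf h1 hf1).1
      (D_memLp μ ν (hT.iterate n) (hS.iterate n) hf h2 hf1).1 (by norm_num)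
  obtain ⟨g', hgg', hg'm, hg'l⟩ := MemLp.induction_dense (μ := μ.prod ν) (p := 2) (by norm_num)
    (fun g' : X × Y → ℂ => MemLp g' 2 (μ.prod ν) ∧
      Tendsto (fun n : ℕ => eLpNorm (D ν T^[n] S^[n] (A.indicator fun _ => 1) g') 2 μ)
      atTop (𝓝 0)) k0 k1 (fun f hf => hf.1.1) hg (ε := ε / 2) (by simpa using hε)
  refine ⟨_, hg'l, fun n => ?_⟩
  have hd : MemLp (g - g') 2 (μ.prod ν) := hg.sub hg'm
  have e : D ν T^[n] S^[n] (A.indicator fun _ => 1) g =ᵐ[μ]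
      D ν T^[n] S^[n] (A.indicator fun _ => 1) g' +
      D ν T^[n] S^[n] (A.indicator fun _ => 1) (g - g') := by
    have := D_add_right μ ν (hT.iterate n) (hS.iterate n) hf hg'm hd
    rwa [add_sub_cancel] at this
  rw [eLpNorm_congr_ae e]
  refine (eLpNorm_add_le (D_memLp μ ν (hT.iterate n) (hS.iterate n) hf hg'm hf1).1
    (D_memLp μ ν (hT.iterate n) (hS.iterate n) hf hd hf1).1 (by norm_num)).trans ?_
  gcongr
  refine (D_bound' μ ν (hT.iterate n) (hS.iterate n) hf.1 hd.1 hf1).trans ?_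
  calc 2 * eLpNorm (g - g') 2 (μ.prod ν) ≤ 2 * (ε / 2) := by gcongr
    _ = ε := ENNReal.mul_div_cancel (by norm_num) (by norm_num)

theorem D_smul_left (ν : Measure Y) (T : X → X) (S : X × Y → X × Y) (c : ℂ) (f g : X × Y → ℂ) :
    D ν T S (fun z => c * f z) g = fun x => c * D ν T S f g x := by
  funext x
  simp only [D, mul_assoc, integral_const_mul]
  ring

theorem lim_left (hT : MeasurePreserving T μ μ)
    (hS : MeasurePreserving S (μ.prod ν) (μ.prod ν))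
    (h : ∀ A B : Set (X × Y), MeasurableSet A → MeasurableSet B →
      Tendsto (fun n : ℕ => ∫ x, (ν.real {y | (x,y) ∈ B ∧ S^[n] (x,y) ∈ A} -
      ν.real {y | (T^[n] x, y) ∈ A} * ν.real {y | (x,y) ∈ B})^2 ∂μ) atTop (𝓝 0))
    {f g : X × Y → ℂ} (hf : MemLp f 2 (μ.prod ν)) (hg : MemLp g 2 (μ.prod ν))
    (hgC : ∃ C : ℝ, ∀ᵐ x ∂μ, ∫ y, ‖g (x,y)‖ ^ 2 ∂ν ≤ C) :
    Tendsto (fun n : ℕ => eLpNorm (D ν T^[n] S^[n] f g) 2 μ) atTop (𝓝 0) := by
  obtain ⟨C, hC⟩ := hgC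
  set K : ℝ≥0∞ := ENNReal.ofReal C with hK
  have hKt : K ^ (1 / (2:ℝ)) ≠ ∞ := ENNReal.rpow_ne_top_of_nonneg (by norm_num) ENNReal.ofReal_ne_top
  have hgK : ∀ᵐ x ∂μ, ∫⁻ y, ‖g (x, y)‖ₑ ^ 2 ∂ν ≤ K := by
    have hi : Integrable (fun z : X × Y => ‖g z‖ ^ 2) (μ.prod ν) := hg.integrable_norm_pow (by norm_num)
    filter_upwards [hC, hi.prod_right_ae, hg.1.prodMk_left] with x h1 h2 h3
    have e1 : ∫⁻ y, ‖g (x, y)‖ₑ ^ 2 ∂ν = ENNReal.ofReal (∫ y, ‖g (x, y)‖ ^ 2 ∂ν) := by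
      rw [ofReal_integral_eq_lintegral_ofReal h2 (Eventually.of_forall fun y => by positivity)]
      refine lintegral_congr fun y => ?_
      rw [ENNReal.ofReal_pow (norm_nonneg _), ofReal_norm]
    rw [e1]
    exact ENNReal.ofReal_le_ofReal h1
  have aes : ∀ (n : ℕ) {f : X × Y → ℂ}, MemLp f 2 (μ.prod ν) →
      AEStronglyMeasurable (D ν T^[n] S^[n] f g) μ := fun n f hf =>
    (aesm1 μ ν (hT.iterate n) (hS.iterate n) hf.1 hg.1).sub
      (aesm2 μ ν (hT.iterate n) (hS.iterate n) hf.1 hg.1)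
  refine tendsto_of_approx fun ε hε => ?_
  have k0 : ∀ (c : ℂ) ⦃s : Set (X × Y)⦄, MeasurableSet s → (μ.prod ν) s < ∞ →
      ∀ {ε : ℝ≥0∞}, ε ≠ 0 → ∃ f' : X × Y → ℂ,
        eLpNorm (f' - s.indicator fun _ => c) 2 (μ.prod ν) ≤ ε ∧ (MemLp f' 2 (μ.prod ν) ∧
      Tendsto (fun n : ℕ => eLpNorm (D ν T^[n] S^[n] f' g) 2 μ) atTop (𝓝 0)) := by
    intro c A hA _ ε' hε'
    refine ⟨A.indicator fun _ => c, by simp,
      memLp_indicator_const 2 hA c (Or.inr (measure_ne_top _ _)), ?_⟩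
    have h1 := lim_right μ ν hT hS hA (fun B hB => h A B hA hB) hg
    have e : (A.indicator fun _ => c : X × Y → ℂ) =
        fun z => c * (A.indicator (fun _ => (1:ℂ)) z) := by
      funext z
      by_cases hz : z ∈ A <;> simp [hz]
    rw [e]
    simp_rw [D_smul_left]
    have e2 : ∀ n : ℕ, eLpNorm (fun x => c * D ν T^[n] S^[n] (fun z => A.indicator (fun _ => (1:ℂ)) z) g x) 2 μ
        = ‖c‖ₑ * eLpNorm (D ν T^[n] S^[n] (A.indicator fun _ => 1) g) 2 μ := fun n =>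
      eLpNorm_const_smul c _ 2 μ
    simp_rw [e2]
    have h2 := ENNReal.Tendsto.const_mul h1 (Or.inr (enorm_ne_top (x := c)))
    simpa using h2
  have k1 : ∀ g1 g2 : X × Y → ℂ, (MemLp g1 2 (μ.prod ν) ∧
      Tendsto (fun n : ℕ => eLpNorm (D ν T^[n] S^[n] g1 g) 2 μ)
      atTop (𝓝 0)) → (MemLp g2 2 (μ.prod ν) ∧
      Tendsto (fun n : ℕ => eLpNorm (D ν T^[n] S^[n] g2 g) 2 μ)
      atTop (𝓝 0)) → (MemLp (g1 + g2) 2 (μ.prod ν) ∧
      Tendsto (fun n : ℕ => eLpNorm (D ν T^[n] S^[n] (g1 + g2) g) 2 μ)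
      atTop (𝓝 0)) := by
    rintro g1 g2 ⟨h1, h1'⟩ ⟨h2, h2'⟩
    refine ⟨h1.add h2, ?_⟩
    have h3 := h1'.add h2'
    rw [add_zero] at h3
    refine tendsto_of_tendsto_of_tendsto_of_le_of_le tendsto_const_nhds h3
      (fun n => zero_le) (fun n => ?_)
    rw [eLpNorm_congr_ae (D_add_left μ ν (hT.iterate n) (hS.iterate n) h1 h2 hg)]
    exact eLpNorm_add_le (aes n h1) (aes n h2) (by norm_num)
  set δ : ℝ≥0∞ := ε / 2 / (K ^ (1 / (2:ℝ)) + 1) with hδ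
  have hK1 : K ^ (1 / (2:ℝ)) + 1 ≠ ∞ := by simpa using hKt
  have hδ0 : δ ≠ 0 := by
    rw [hδ]
    simp only [ne_eq, ENNReal.div_eq_zero_iff, not_or]
    exact ⟨⟨hε, by norm_num⟩, hK1⟩
  obtain ⟨f', hff', hf'm, hf'l⟩ := MemLp.induction_dense (μ := μ.prod ν) (p := 2) (by norm_num)
    (fun f' : X × Y → ℂ => MemLp f' 2 (μ.prod ν) ∧
      Tendsto (fun n : ℕ => eLpNorm (D ν T^[n] S^[n] f' g) 2 μ)
      atTop (𝓝 0)) k0 k1 (fun f hf => hf.1.1) hf (ε := δ) hδ0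
  refine ⟨_, hf'l, fun n => ?_⟩
  have hd : MemLp (f - f') 2 (μ.prod ν) := hf.sub hf'm
  have e : D ν T^[n] S^[n] f g =ᵐ[μ] D ν T^[n] S^[n] f' g + D ν T^[n] S^[n] (f - f') g := by
    have := D_add_left μ ν (hT.iterate n) (hS.iterate n) hf'm hd hg
    rwa [add_sub_cancel] at this
  rw [eLpNorm_congr_ae e]
  refine (eLpNorm_add_le (aes n hf'm) (aes n hd) (by norm_num)).trans ?_
  gcongr
  refine (D_bound μ ν (hT.iterate n) (hS.iterate n) hd.1 hg.1 K hgK).trans ?_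
  calc 2 * (K ^ (1 / (2:ℝ)) * eLpNorm (f - f') 2 (μ.prod ν))
      ≤ 2 * ((K ^ (1 / (2:ℝ)) + 1) * δ) := by
        gcongr
        exact le_self_add
    _ = 2 * (ε / 2) := by
        rw [hδ, ENNReal.mul_div_cancel (by simp) hK1]
    _ = ε := ENNReal.mul_div_cancel (by norm_num) (by norm_num)

end lim

/-- From sets to functions: if the fibre correlations of measurable sets tend to zero in mean
square, then so do the fibre correlations of square integrable functions the second of which has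
bounded fibre norms. -/
theorem rel_of_sets (μ : Measure X) (ν : Measure Y) [IsProbabilityMeasure μ]
    [IsProbabilityMeasure ν] (T : X → X) (S : X × Y → X × Y) (hT : MeasurePreserving T μ μ)
    (hS : MeasurePreserving S (μ.prod ν) (μ.prod ν))
    (hset : ∀ A B : Set (X × Y), MeasurableSet A → MeasurableSet B →
      Tendsto (fun n : ℕ => ∫ x, (ν.real {y | (x,y) ∈ B ∧ S^[n] (x,y) ∈ A} -
        ν.real {y | (T^[n] x, y) ∈ A} * ν.real {y | (x,y) ∈ B})^2 ∂μ) atTop (𝓝 0))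
    (f g : X × Y → ℂ) (hf : MemLp f 2 (μ.prod ν)) (hg : MemLp g 2 (μ.prod ν))
    (hgC : ∃ C : ℝ, ∀ᵐ x ∂μ, ∫ y, ‖g (x,y)‖^2 ∂ν ≤ C) :
    Tendsto (fun n : ℕ => eLpNorm (fun x => (∫ y, f (S^[n] (x,y)) * starRingEnd ℂ (g (x,y)) ∂ν) -
      (∫ y, f (T^[n] x, y) ∂ν) * ∫ y, starRingEnd ℂ (g (x,y)) ∂ν) 2 μ) atTop (𝓝 0) :=
  lim_left μ ν hT hS hset hf hg hgC

end Pool.Agent.Q132.SM.Fun
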