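import Mathlib
import Pool.Agent.Q132.SM.F

set_option autoImplicit false
set_option linter.unusedSectionVars false
set_option linter.unusedVariables false

/-!
Transport of the local statement to an arbitrary nonatomic standard fibre space.
-/

namespace Pool.Agent.Q132.SM

open MeasureTheory Set Filter Topology
open scoped ENNReal symmDiff
open Pool.H359R3 Pool.H359R3.WH Pool.H359R3.MX

variable {X : Type*} [MeasurableSpace X]
variable (μ : Measure X) [IsProbabilityMeasure μ]

theorem CD2_transport {Y Y' : Type*} [MeasurableSpace Y] [MeasurableSpace Y'] (ν : Measure Y) (ν' : Measure Y')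
    [IsProbabilityMeasure ν] [IsProbabilityMeasure ν'] (e : Y ≃ᵐ Y') (he : MeasurePreserving e ν ν')
    (T : X ≃ᵐ X) (h : CD2 μ ν' T) : CD2 μ ν T := by
  classical
  let E : (X × Y) ≃ᵐ (X × Y') := MeasurableEquiv.prodCongr (MeasurableEquiv.refl X) e
  have hE1 : ∀ z, E z = (z.1, e z.2) := fun z => rfl
  have hE2 : ∀ w, E.symm w = (w.1, e.symm w.2) := fun w => rfl
  have hE : MeasurePreserving E (μ.prod ν) (μ.prod ν') := (MeasurePreserving.id μ).prod he
  have hEs : MeasurePreserving E.symm (μ.prod ν') (μ.prod ν) := MeasurePreserving.symm E hE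
  have hmeas' : ∀ F : Set (X × Y), MeasurableSet F → (μ.prod ν').real (E.symm ⁻¹' F) = (μ.prod ν).real F := by
    intro F hF
    rw [measureReal_def, measureReal_def, hEs.measure_preimage hF.nullMeasurableSet]
  have hextup : ∀ S : (X × Y) ≃ᵐ (X × Y), IsExt μ ν T S → IsExt μ ν' T (cj E S) := by
    intro S hS
    refine ⟨cj_mp E _ _ hE S hS.1, ?_⟩
    filter_upwards [hEs.quasiMeasurePreserving.ae hS.2] with w hw
    rw [cj_apply, hE1]
    show (S (E.symm w)).1 = T w.1
    rw [hw, hE2]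
  have hextdn : ∀ S : (X × Y') ≃ᵐ (X × Y'), IsExt μ ν' T S → IsExt μ ν T (cj E.symm S) := by
    intro S hS
    refine ⟨cj_mp E.symm _ _ hEs S hS.1, ?_⟩
    filter_upwards [hE.quasiMeasurePreserving.ae hS.2] with w hw
    rw [cj_apply, hE2]
    show (S (E w)).1 = T w.1
    rw [hw, hE1]
  have hdiff : ∀ (S S' : (X × Y) ≃ᵐ (X × Y)) (F : Set (X × Y')), MeasurableSet F →
      (μ.prod ν').real ((cj E S ⁻¹' F) ∆ (cj E S' ⁻¹' F)) = (μ.prod ν).real ((S ⁻¹' (E ⁻¹' F)) ∆ (S' ⁻¹' (E ⁻¹' F))) := by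
    intro S S' F hF
    rw [← hmeas' _ ((S.measurable (E.measurable hF)).symmDiff (S'.measurable (E.measurable hF)))]
    rfl
  have hsq : ∀ P : Set (X × Y), MeasurableSet P → sq2 μ ν' (E.symm ⁻¹' P) = sq2 μ ν P := by
    intro P hP
    unfold sq2
    congr 1
    funext x
    have h1 : {y' : Y' | (x, y') ∈ E.symm ⁻¹' P} = e.symm ⁻¹' {y | (x, y) ∈ P} := by
      ext y'
      rfl
    have hm : MeasurableSet {y : Y | (x, y) ∈ P} := measurable_prodMk_left hP
    rw [h1, measureReal_def, (MeasurePreserving.symm e he).measure_preimage hm.nullMeasurableSet, ← measureReal_def]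
  intro S hS r Es hEs' δ hδ A hA ε hε
  obtain ⟨S0, hS0, ⟨Φ, hΦ1, hΦ2, hΦ3⟩, hclose, J, hJf, hJm, δ', hδ', n0, hopen⟩ :=
    h (cj E S) (hextup S hS) r (fun i => E.symm ⁻¹' Es i) (fun i => E.symm.measurable (hEs' i)) δ hδ
      (fun j => E.symm ⁻¹' A j) (fun j => E.symm.measurable (hA j)) ε hε
  have hback : cj E (cj E.symm S0) = S0 := by
    apply MeasurableEquiv.ext
    funext w
    show E (E.symm (S0 (E (E.symm w)))) = S0 w
    rw [E.apply_symm_apply, E.apply_symm_apply]
  have hpre : ∀ F : Set (X × Y), E ⁻¹' (E.symm ⁻¹' F) = F := by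
    intro F
    ext z
    show E.symm (E z) ∈ F ↔ z ∈ F
    rw [E.symm_apply_apply]
  refine ⟨cj E.symm S0, hextdn S0 hS0, ?_, ?_, ?_⟩
  · refine ⟨fun x => cj e.symm (Φ x), fun x => cj_mp e.symm ν' ν (MeasurePreserving.symm e he) (Φ x) (hΦ1 x), ?_, ?_⟩
    · have h1 : Measurable (fun z : X × Y => Φ z.1 (e z.2)) :=
        hΦ2.comp (measurable_fst.prodMk (e.measurable.comp measurable_snd))
      exact e.symm.measurable.comp h1
    · intro z
      show E.symm (S0 (E z)) = (T z.1, e.symm (Φ z.1 (e z.2)))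
      rw [hΦ3, hE2, hE1]
  · intro i
    have h1 := hclose i
    rw [← hback, hdiff _ _ _ (E.symm.measurable (hEs' i)), hpre] at h1
    exact h1
  · refine ⟨(fun F => E ⁻¹' F) '' J, hJf.image _, ?_, δ', hδ', n0, ?_⟩
    · rintro _ ⟨F, hF, rfl⟩
      exact E.measurable (hJm F hF)
    · intro S' hS' hcl n hn
      have h2 := hopen (cj E S') (hextup S' hS') (fun F hF => by
        rw [← hback, hdiff _ _ _ (hJm F hF)]
        exact hcl _ ⟨F, hF, rfl⟩) n hn
      have h3 : ((E.symm ⁻¹' A 0) ∩ (cj E S' : X × Y' → X × Y')^[n] ⁻¹' (E.symm ⁻¹' A 1)) =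
          E.symm ⁻¹' (A 0 ∩ (S' : X × Y → X × Y)^[n] ⁻¹' A 1) := by
        ext w
        simp only [mem_inter_iff, mem_preimage]
        have h5 := cj_iter E S' true n w
        have h6 : (cj E S' : X × Y' → X × Y')^[n] w = E ((S' : X × Y → X × Y)^[n] (E.symm w)) := h5
        rw [h6, E.symm_apply_apply]
      have hSn : Measurable ((S' : X × Y → X × Y)^[n]) := S'.measurable.iterate n
      beta_reduce at h2
      rw [h3, hsq _ ((hA 0).inter (hSn (hA 1))), hsq _ (hA 0), hsq _ (hA 1)] at h2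
      exact h2

/-- the local statement for arbitrary nonatomic standard fibres -/
theorem CD2_gen [MeasurableSpace.CountablySeparated X] [NullSingletonClass μ]
    {Y : Type*} [MeasurableSpace Y] [StandardBorelSpace Y] (ν : Measure Y) [IsProbabilityMeasure ν] [NullSingletonClass ν]
    (T : X ≃ᵐ X) (hT : MeasurePreserving T μ μ) (hmix : MixS true 1 μ T) :
    CD2 μ ν T := by
  obtain ⟨e, he⟩ := exists_iso ν
  exact CD2_transport μ ν lam e he T (core_dense2 μ T hT hmix)

end Pool.Agent.Q132.SM
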