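import Mathlib
import Pool.Agent.Q132.SM.H

set_option autoImplicit false
set_option linter.unusedSectionVars false
set_option linter.unusedVariables false

/-!
Mixing for functions with values in `[0,1]`.
-/

namespace Pool.Agent.Q132.SM

open MeasureTheory Set Filter Topology
open scoped ENNReal symmDiff
open Pool.H359R3 Pool.H359R3.WH Pool.H359R3.MX

section mixfun

variable {Z : Type*} [MeasurableSpace Z]

/-- levels -/
def lev (k : ℕ) (F : Z → ℝ) (j : ℕ) : Set Z := {z | ((j : ℝ) + 1) ≤ k * F z}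

theorem lev_meas (k : ℕ) (F : Z → ℝ) (hF : Measurable F) (j : ℕ) : MeasurableSet (lev k F j) :=
  measurableSet_le measurable_const (hF.const_mul _)

/-- discretization -/
noncomputable def dis (k : ℕ) (F : Z → ℝ) (z : Z) : ℝ := (1 / (k : ℝ)) * ∑ j ∈ Finset.range k, (lev k F j).indicator 1 z

theorem dis_eq (k : ℕ) (hk : 0 < k) (F : Z → ℝ) (z : Z) (h0 : 0 ≤ F z) (h1 : F z ≤ 1) :
    dis k F z = (1 / (k : ℝ)) * (⌊(k : ℝ) * F z⌋₊ : ℝ) := by
  classical
  have hkr : (0 : ℝ) < k := by exact_mod_cast hk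
  unfold dis
  congr 1
  have h2 : ∀ j ∈ Finset.range k, (lev k F j).indicator (1 : Z → ℝ) z = if ((j : ℝ) + 1) ≤ k * F z then 1 else 0 := by
    intro j _
    by_cases h : ((j : ℝ) + 1) ≤ k * F z
    · rw [indicator_of_mem (show z ∈ lev k F j from h), if_pos h]
      rfl
    · rw [indicator_of_notMem (show z ∉ lev k F j from h), if_neg h]
  rw [Finset.sum_congr rfl h2, Finset.sum_boole]
  have h3 : (Finset.range k).filter (fun j : ℕ => ((j : ℝ) + 1) ≤ k * F z) = Finset.range ⌊(k : ℝ) * F z⌋₊ := by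
    ext j
    rw [Finset.mem_filter, Finset.mem_range, Finset.mem_range]
    constructor
    · rintro ⟨_, h⟩
      have : j + 1 ≤ ⌊(k : ℝ) * F z⌋₊ := Nat.le_floor (by push_cast; exact h)
      omega
    · intro h
      have h4 : ((j + 1 : ℕ) : ℝ) ≤ (⌊(k : ℝ) * F z⌋₊ : ℝ) := by exact_mod_cast h
      have h5 : (⌊(k : ℝ) * F z⌋₊ : ℝ) ≤ k * F z := Nat.floor_le (by positivity)
      have h6 : ((j : ℝ) + 1) ≤ k * F z := by
        push_cast at h4
        linarith
      refine ⟨?_, h6⟩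
      have h7 : (j : ℝ) < k := by nlinarith
      exact_mod_cast h7
  rw [h3, Finset.card_range]

theorem dis_close (k : ℕ) (hk : 0 < k) (F : Z → ℝ) (z : Z) (h0 : 0 ≤ F z) (h1 : F z ≤ 1) :
    |F z - dis k F z| ≤ 1 / k ∧ 0 ≤ dis k F z ∧ dis k F z ≤ 1 := by
  have hkr : (0 : ℝ) < k := by exact_mod_cast hk
  rw [dis_eq k hk F z h0 h1]
  have h2 : (⌊(k : ℝ) * F z⌋₊ : ℝ) ≤ k * F z := Nat.floor_le (by positivity)
  have h3 : (k : ℝ) * F z < (⌊(k : ℝ) * F z⌋₊ : ℝ) + 1 := Nat.lt_floor_add_one _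
  have h4 : F z - 1 / (k : ℝ) * (⌊(k : ℝ) * F z⌋₊ : ℝ) = (k * F z - (⌊(k : ℝ) * F z⌋₊ : ℝ)) / k := by
    field_simp
  refine ⟨?_, by positivity, ?_⟩
  · rw [h4, abs_of_nonneg (div_nonneg (by linarith) hkr.le)]
    exact div_le_div_of_nonneg_right (by linarith) hkr.le
  · rw [one_div, inv_mul_le_iff₀ hkr]
    nlinarith

theorem dis_meas (k : ℕ) (F : Z → ℝ) (hF : Measurable F) : Measurable (dis k F) := by
  unfold dis
  exact (Finset.measurable_sum _ (fun j _ => measurable_one.indicator (lev_meas k F hF j))).const_mul _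

variable (m : Measure Z) [IsProbabilityMeasure m]

theorem mix_dis (R : Z → Z) (hR : MeasurePreserving R m m)
    (hmix : ∀ A B : Set Z, MeasurableSet A → MeasurableSet B →
      Tendsto (fun d : ℕ => m.real (A ∩ R^[d] ⁻¹' B)) atTop (𝓝 (m.real A * m.real B)))
    (k : ℕ) (F G : Z → ℝ) (hF : Measurable F) (hG : Measurable G) :
    Tendsto (fun d : ℕ => ∫ z, dis k F (R^[d] z) * dis k G z ∂m) atTop
      (𝓝 ((∫ z, dis k F z ∂m) * ∫ z, dis k G z ∂m)) := by
  have hi : ∀ A : Set Z, MeasurableSet A → Integrable (A.indicator (1 : Z → ℝ)) m := fun A hA =>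
    (integrable_const (1:ℝ)).indicator hA
  have h1 : ∀ H : Z → ℝ, Measurable H → ∫ z, dis k H z ∂m = (1 / (k : ℝ)) * ∑ j ∈ Finset.range k, m.real (lev k H j) := by
    intro H hH
    unfold dis
    rw [integral_const_mul, integral_finsetSum _ (fun j _ => hi _ (lev_meas k H hH j))]
    congr 1
    apply Finset.sum_congr rfl
    intro j _
    exact integral_indicator_one (lev_meas k H hH j)
  have h2 : ∀ d : ℕ, ∫ z, dis k F (R^[d] z) * dis k G z ∂m =
      (1 / (k : ℝ)) ^ 2 * ∑ j ∈ Finset.range k, ∑ i ∈ Finset.range k, m.real (lev k G i ∩ R^[d] ⁻¹' lev k F j) := by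
    intro d
    have hm : ∀ j i, MeasurableSet (lev k G i ∩ R^[d] ⁻¹' lev k F j) := fun j i =>
      (lev_meas k G hG i).inter ((hR.measurable.iterate d) (lev_meas k F hF j))
    have h3 : ∀ z, dis k F (R^[d] z) * dis k G z = (1 / (k : ℝ)) ^ 2 *
        ∑ j ∈ Finset.range k, ∑ i ∈ Finset.range k, (lev k G i ∩ R^[d] ⁻¹' lev k F j).indicator 1 z := by
      intro z
      unfold dis
      have : (1 / (k : ℝ) * ∑ j ∈ Finset.range k, (lev k F j).indicator 1 (R^[d] z)) *
          (1 / (k : ℝ) * ∑ j ∈ Finset.range k, (lev k G j).indicator 1 z) =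
          (1 / (k : ℝ)) ^ 2 * ((∑ j ∈ Finset.range k, (lev k F j).indicator 1 (R^[d] z)) *
          ∑ j ∈ Finset.range k, (lev k G j).indicator (1 : Z → ℝ) z) := by ring
      rw [this, Finset.sum_mul_sum]
      congr 1
      apply Finset.sum_congr rfl
      intro j _
      apply Finset.sum_congr rfl
      intro i _
      by_cases h4 : R^[d] z ∈ lev k F j
      · by_cases h5 : z ∈ lev k G i
        · rw [indicator_of_mem h4, indicator_of_mem h5, indicator_of_mem (show z ∈ lev k G i ∩ R^[d] ⁻¹' lev k F j from ⟨h5, h4⟩)]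
          simp
        · rw [indicator_of_notMem h5, indicator_of_notMem (show z ∉ lev k G i ∩ R^[d] ⁻¹' lev k F j from fun h => h5 h.1), mul_zero]
      · rw [indicator_of_notMem h4, indicator_of_notMem (show z ∉ lev k G i ∩ R^[d] ⁻¹' lev k F j from fun h => h4 h.2), zero_mul]
    simp_rw [h3]
    rw [integral_const_mul, integral_finsetSum _ (fun j _ => integrable_finsetSum _ (fun i _ => hi _ (hm j i)))]
    congr 1
    apply Finset.sum_congr rfl
    intro j _
    rw [integral_finsetSum _ (fun i _ => hi _ (hm j i))]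
    apply Finset.sum_congr rfl
    intro i _
    exact integral_indicator_one (hm j i)
  simp_rw [h2]
  rw [h1 F hF, h1 G hG]
  have h7 : (1 / (k : ℝ) * ∑ j ∈ Finset.range k, m.real (lev k F j)) * (1 / (k : ℝ) * ∑ j ∈ Finset.range k, m.real (lev k G j)) =
      (1 / (k : ℝ)) ^ 2 * ∑ j ∈ Finset.range k, ∑ i ∈ Finset.range k, m.real (lev k G i) * m.real (lev k F j) := by
    have : (1 / (k : ℝ) * ∑ j ∈ Finset.range k, m.real (lev k F j)) * (1 / (k : ℝ) * ∑ j ∈ Finset.range k, m.real (lev k G j)) =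
      (1 / (k : ℝ)) ^ 2 * ((∑ j ∈ Finset.range k, m.real (lev k F j)) * ∑ j ∈ Finset.range k, m.real (lev k G j)) := by ring
    rw [this, Finset.sum_mul_sum]
    congr 1
    apply Finset.sum_congr rfl
    intro j _
    apply Finset.sum_congr rfl
    intro i _
    ring
  rw [h7]
  apply Tendsto.const_mul
  apply tendsto_finsetSum
  intro j _
  apply tendsto_finsetSum
  intro i _
  exact hmix _ _ (lev_meas k G hG i) (lev_meas k F hF j)

theorem mix_fun01 (R : Z → Z) (hR : MeasurePreserving R m m)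
    (hmix : ∀ A B : Set Z, MeasurableSet A → MeasurableSet B →
      Tendsto (fun d : ℕ => m.real (A ∩ R^[d] ⁻¹' B)) atTop (𝓝 (m.real A * m.real B)))
    (F G : Z → ℝ) (hF : Measurable F) (hG : Measurable G) (hF0 : ∀ z, 0 ≤ F z) (hF1 : ∀ z, F z ≤ 1)
    (hG0 : ∀ z, 0 ≤ G z) (hG1 : ∀ z, G z ≤ 1) :
    Tendsto (fun d : ℕ => ∫ z, F (R^[d] z) * G z ∂m) atTop (𝓝 ((∫ z, F z ∂m) * ∫ z, G z ∂m)) := by
  rw [Metric.tendsto_nhds]
  intro ε hε
  obtain ⟨k, hk⟩ := exists_nat_gt (8 / ε)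
  have hkr : (0 : ℝ) < k := lt_trans (by positivity) hk
  have hkp : 0 < k := by exact_mod_cast hkr
  have hkε : 1 / (k : ℝ) < ε / 8 := by
    rw [div_lt_iff₀ hε] at hk
    rw [div_lt_iff₀ hkr]
    nlinarith
  have hint : ∀ H : Z → ℝ, Measurable H → (∀ z, 0 ≤ H z) → (∀ z, H z ≤ 1) → Integrable H m := fun H h h0 h1 =>
    integrable_of_abs_le m h 1 (fun z => by rw [abs_of_nonneg (h0 z)]; exact h1 z)
  have e1 := Metric.tendsto_nhds.1 (mix_dis m R hR hmix k F G hF hG) (ε / 4) (by positivity)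
  filter_upwards [e1] with d hd
  rw [Real.dist_eq] at hd ⊢
  have hRd : Measurable (R^[d]) := hR.measurable.iterate d
  have cF := fun z => dis_close k hkp F z (hF0 z) (hF1 z)
  have cG := fun z => dis_close k hkp G z (hG0 z) (hG1 z)
  have p1 : |∫ z, F (R^[d] z) * G z ∂m - ∫ z, dis k F (R^[d] z) * dis k G z ∂m| ≤ 2 * (1 / k) := by
    rw [← integral_sub]
    · refine le_trans abs_integral_le_integral_abs ?_
      calc ∫ z, |F (R^[d] z) * G z - dis k F (R^[d] z) * dis k G z| ∂m ≤ ∫ z, 2 * (1 / (k : ℝ)) ∂m := by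
            apply integral_mono_of_nonneg (Eventually.of_forall (fun x => abs_nonneg _)) (integrable_const _)
            exact Eventually.of_forall (fun z => prod_close _ _ _ _ _ (cF _).2.1 (cF _).2.2 (hG0 z) (hG1 z) (cF _).1 (cG z).1)
        _ = _ := by simp
    · exact hint _ ((hF.comp hRd).mul hG) (fun z => mul_nonneg (hF0 _) (hG0 _)) (fun z => mul_le_one₀ (hF1 _) (hG0 _) (hG1 _))
    · exact hint _ (((dis_meas k F hF).comp hRd).mul (dis_meas k G hG)) (fun z => mul_nonneg (cF _).2.1 (cG _).2.1)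
        (fun z => mul_le_one₀ (cF _).2.2 (cG _).2.1 (cG _).2.2)
  have p2 : ∀ H : Z → ℝ, Measurable H → (∀ z, 0 ≤ H z) → (∀ z, H z ≤ 1) → |∫ z, H z ∂m - ∫ z, dis k H z ∂m| ≤ 1 / k ∧
      0 ≤ ∫ z, dis k H z ∂m ∧ ∫ z, dis k H z ∂m ≤ 1 ∧ 0 ≤ ∫ z, H z ∂m ∧ ∫ z, H z ∂m ≤ 1 := by
    intro H hH h0 h1
    have cH := fun z => dis_close k hkp H z (h0 z) (h1 z)
    have hi := hint _ (dis_meas k H hH) (fun z => (cH z).2.1) (fun z => (cH z).2.2)
    refine ⟨?_, integral_nonneg (fun z => (cH z).2.1), ?_, integral_nonneg h0, ?_⟩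
    · rw [← integral_sub (hint H hH h0 h1) hi]
      refine le_trans abs_integral_le_integral_abs ?_
      calc ∫ z, |H z - dis k H z| ∂m ≤ ∫ z, 1 / (k : ℝ) ∂m := by
            apply integral_mono_of_nonneg (Eventually.of_forall (fun x => abs_nonneg _)) (integrable_const _)
            exact Eventually.of_forall (fun z => (cH z).1)
        _ = _ := by simp
    · calc ∫ z, dis k H z ∂m ≤ ∫ z, (1:ℝ) ∂m := integral_mono hi (integrable_const _) (fun z => (cH z).2.2)
        _ = 1 := by simp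
    · calc ∫ z, H z ∂m ≤ ∫ z, (1:ℝ) ∂m := integral_mono (hint H hH h0 h1) (integrable_const _) h1
        _ = 1 := by simp
  obtain ⟨a1, a2, a3, a4, a5⟩ := p2 F hF hF0 hF1
  obtain ⟨b1, b2, b3, b4, b5⟩ := p2 G hG hG0 hG1
  have p3 := prod_close _ _ _ _ _ a2 a3 b4 b5 a1 b1
  have q1 := abs_le.1 p1
  have q2 := abs_le.1 p3
  have q3 := abs_lt.1 hd
  rw [abs_lt]
  constructor
  · linarith [q1.1, q2.2, q3.1]
  · linarith [q1.2, q2.1, q3.2]

end mixfun

end Pool.Agent.Q132.SM
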