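import Mathlib
import Pool.Agent.Q132.SM.G

set_option autoImplicit false
set_option linter.unusedSectionVars false
set_option linter.unusedVariables false

/-!
From mixing and pair mixing to relative mixing for sets.
-/

namespace Pool.Agent.Q132.SM

open MeasureTheory Set Filter Topology
open scoped ENNReal symmDiff
open Pool.H359R3 Pool.H359R3.WH Pool.H359R3.MX

variable {X Y : Type*} [MeasurableSpace X] [MeasurableSpace Y]
variable (μ : Measure X) [IsProbabilityMeasure μ] (ν : Measure Y) [IsProbabilityMeasure ν]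

/-- mixing for sets -/
def Mx2 {Z : Type*} [MeasurableSpace Z] (m : Measure Z) (R : Z → Z) : Prop :=
  ∀ A B : Set Z, MeasurableSet A → MeasurableSet B →
      Tendsto (fun d : ℕ => m.real (A ∩ R^[d] ⁻¹' B)) atTop (𝓝 (m.real A * m.real B))

/-- the function `1_A(z) ν(A_x)` -/
noncomputable def wt (A : Set (X × Y)) (z : X × Y) : ℝ := A.indicator 1 z * ν.real {y | (z.1, y) ∈ A}

theorem ind01 {Z : Type*} (A : Set Z) (z : Z) : 0 ≤ A.indicator (1 : Z → ℝ) z ∧ A.indicator (1 : Z → ℝ) z ≤ 1 := by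
  by_cases h : z ∈ A
  · rw [indicator_of_mem h]; exact ⟨zero_le_one, le_rfl⟩
  · rw [indicator_of_notMem h]; exact ⟨le_rfl, zero_le_one⟩

theorem wt_meas (A : Set (X × Y)) (hA : MeasurableSet A) : Measurable (wt ν A) :=
  (measurable_one.indicator hA).mul ((sec_meas ν A hA).comp measurable_fst)

theorem wt_nonneg (A : Set (X × Y)) (z : X × Y) : 0 ≤ wt ν A z := mul_nonneg (ind01 A z).1 measureReal_nonneg

theorem wt_le (A : Set (X × Y)) (z : X × Y) : wt ν A z ≤ 1 :=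
  mul_le_one₀ (ind01 A z).2 measureReal_nonneg measureReal_le_one

theorem sec_ind (P : Set (X × Y)) (hP : MeasurableSet P) (x : X) :
    ∫ y, P.indicator (1 : X × Y → ℝ) (x, y) ∂ν = ν.real {y | (x, y) ∈ P} := by
  have hm : MeasurableSet {y | (x, y) ∈ P} := measurable_prodMk_left hP
  exact integral_indicator_one hm

theorem wt_int (A : Set (X × Y)) (hA : MeasurableSet A) : ∫ z, wt ν A z ∂(μ.prod ν) = sq2 μ ν A := by
  rw [integral_prod _ (integrable_of_abs_le (μ.prod ν) (wt_meas ν A hA) 1 (fun z => by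
    rw [abs_of_nonneg (wt_nonneg ν A z)]; exact wt_le ν A z))]
  unfold sq2
  congr 1
  funext x
  show ∫ y, A.indicator (1 : X × Y → ℝ) (x, y) * ν.real {y_1 | (x, y_1) ∈ A} ∂ν = _
  rw [integral_mul_const, sec_ind ν A hA x, sq]

/-- relative mixing for sets -/
theorem rel_sets (T : X → X) (S : X × Y → X × Y) (hT : MeasurePreserving T μ μ)
    (hS : MeasurePreserving S (μ.prod ν) (μ.prod ν)) (hSe : ∀ᵐ z ∂(μ.prod ν), (S z).1 = T z.1)
    (hmT : Mx2 μ T) (hmS : Mx2 (μ.prod ν) S) (A B : Set (X × Y)) (hA : MeasurableSet A) (hB : MeasurableSet B)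
    (hpair : Tendsto (fun n : ℕ => sq2 μ ν (B ∩ S^[n] ⁻¹' A)) atTop (𝓝 (sq2 μ ν B * sq2 μ ν A))) :
    Tendsto (fun n : ℕ => ∫ x, (ν.real {y | (x,y) ∈ B ∧ S^[n] (x,y) ∈ A} -
        ν.real {y | (T^[n] x, y) ∈ A} * ν.real {y | (x,y) ∈ B})^2 ∂μ) atTop (𝓝 0) := by
  set a : X → ℝ := fun x => ν.real {y | (x, y) ∈ A} with ha
  set b : X → ℝ := fun x => ν.real {y | (x, y) ∈ B} with hb
  have ham : Measurable a := sec_meas ν A hA
  have hbm : Measurable b := sec_meas ν B hB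
  have ha0 : ∀ x, 0 ≤ a x := fun x => measureReal_nonneg
  have ha1 : ∀ x, a x ≤ 1 := fun x => measureReal_le_one
  have hb0 : ∀ x, 0 ≤ b x := fun x => measureReal_nonneg
  have hb1 : ∀ x, b x ≤ 1 := fun x => measureReal_le_one
  -- the cross term
  have hcross : Tendsto (fun n : ℕ => ∫ z, wt ν A (S^[n] z) * wt ν B z ∂(μ.prod ν)) atTop
      (𝓝 (sq2 μ ν A * sq2 μ ν B)) := by
    have h1 := mix_fun01 (μ.prod ν) S hS hmS (wt ν A) (wt ν B) (wt_meas ν A hA) (wt_meas ν B hB)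
      (wt_nonneg ν A) (wt_le ν A) (wt_nonneg ν B) (wt_le ν B)
    rw [wt_int μ ν A hA, wt_int μ ν B hB] at h1
    exact h1
  have hthird : Tendsto (fun n : ℕ => ∫ x, a (T^[n] x) ^ 2 * b x ^ 2 ∂μ) atTop (𝓝 (sq2 μ ν A * sq2 μ ν B)) :=
    mix_fun01 μ T hT hmT (fun x => a x ^ 2) (fun x => b x ^ 2) (ham.pow_const 2) (hbm.pow_const 2)
      (fun x => sq_nonneg _) (fun x => pow_le_one₀ (ha0 x) (ha1 x)) (fun x => sq_nonneg _)
      (fun x => pow_le_one₀ (hb0 x) (hb1 x))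
  have hcomb := (hpair.sub (hcross.const_mul 2)).add hthird
  have h0 : sq2 μ ν B * sq2 μ ν A - 2 * (sq2 μ ν A * sq2 μ ν B) + sq2 μ ν A * sq2 μ ν B = 0 := by ring
  rw [h0] at hcomb
  refine hcomb.congr (fun n => ?_)
  have hSn : Measurable (S^[n]) := hS.measurable.iterate n
  have hTn : Measurable (T^[n]) := hT.measurable.iterate n
  set P : Set (X × Y) := B ∩ S^[n] ⁻¹' A with hP
  have hPm : MeasurableSet P := hB.inter (hSn hA)
  set c : X → ℝ := fun x => ν.real {y | (x, y) ∈ P} with hc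
  have hcm : Measurable c := sec_meas ν P hPm
  have hc0 : ∀ x, 0 ≤ c x := fun x => measureReal_nonneg
  have hc1 : ∀ x, c x ≤ 1 := fun x => measureReal_le_one
  have hcr : ∫ z, wt ν A (S^[n] z) * wt ν B z ∂(μ.prod ν) = ∫ x, c x * (a (T^[n] x) * b x) ∂μ := by
    have h1 : ∫ z, wt ν A (S^[n] z) * wt ν B z ∂(μ.prod ν) =
        ∫ z, P.indicator (1 : X × Y → ℝ) z * (a (T^[n] z.1) * b z.1) ∂(μ.prod ν) := by
      apply integral_congr_ae
      filter_upwards [iter_fst (μ.prod ν) S T hS hSe n] with z hz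
      show (A.indicator (1 : X × Y → ℝ) (S^[n] z) * a (S^[n] z).1) * (B.indicator (1 : X × Y → ℝ) z * b z.1) = _
      rw [hz]
      by_cases h1 : z ∈ B
      · by_cases h2 : S^[n] z ∈ A
        · rw [indicator_of_mem h1, indicator_of_mem h2, indicator_of_mem (show z ∈ P from ⟨h1, h2⟩)]
          simp
        · rw [indicator_of_notMem h2, indicator_of_notMem (show z ∉ P from fun h => h2 h.2)]
          ring
      · rw [indicator_of_notMem h1, indicator_of_notMem (show z ∉ P from fun h => h1 h.1)]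
        ring
    rw [h1, integral_prod]
    · congr 1
      funext x
      show ∫ y, P.indicator (1 : X × Y → ℝ) (x, y) * (a (T^[n] x) * b x) ∂ν = _
      rw [integral_mul_const, sec_ind ν P hPm x]
    · refine integrable_of_abs_le (μ.prod ν) ((measurable_one.indicator hPm).mul
        (((ham.comp hTn).comp measurable_fst).mul (hbm.comp measurable_fst))) 1 (fun z => ?_)
      have e1 := ind01 P z
      have e2 : 0 ≤ a (T^[n] z.1) * b z.1 := mul_nonneg (ha0 _) (hb0 _)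
      have e3 : a (T^[n] z.1) * b z.1 ≤ 1 := mul_le_one₀ (ha1 _) (hb0 _) (hb1 _)
      show |P.indicator (1 : X × Y → ℝ) z * (a (T^[n] z.1) * b z.1)| ≤ 1
      rw [abs_of_nonneg (mul_nonneg e1.1 e2)]
      exact mul_le_one₀ e1.2 e2 e3
  rw [hcr]
  have hi1 : Integrable (fun x => c x ^ 2) μ := sq_integrable μ ν P hPm
  have hi2 : Integrable (fun x => c x * (a (T^[n] x) * b x)) μ := by
    refine integrable_of_abs_le μ (hcm.mul ((ham.comp hTn).mul hbm)) 1 (fun x => ?_)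
    have e2 : 0 ≤ a (T^[n] x) * b x := mul_nonneg (ha0 _) (hb0 _)
    have e3 : a (T^[n] x) * b x ≤ 1 := mul_le_one₀ (ha1 _) (hb0 _) (hb1 _)
    show |c x * (a (T^[n] x) * b x)| ≤ 1
    rw [abs_of_nonneg (mul_nonneg (hc0 x) e2)]
    exact mul_le_one₀ (hc1 x) e2 e3
  have hi3 : Integrable (fun x => a (T^[n] x) ^ 2 * b x ^ 2) μ := by
    refine integrable_of_abs_le μ (((ham.comp hTn).pow_const 2).mul (hbm.pow_const 2)) 1 (fun x => ?_)
    show |a (T^[n] x) ^ 2 * b x ^ 2| ≤ 1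
    rw [abs_of_nonneg (mul_nonneg (sq_nonneg _) (sq_nonneg _))]
    exact mul_le_one₀ (pow_le_one₀ (ha0 _) (ha1 _)) (sq_nonneg _) (pow_le_one₀ (hb0 _) (hb1 _))
  have hfin : ∫ x, (c x - a (T^[n] x) * b x) ^ 2 ∂μ =
      ∫ x, c x ^ 2 ∂μ - 2 * ∫ x, c x * (a (T^[n] x) * b x) ∂μ + ∫ x, a (T^[n] x) ^ 2 * b x ^ 2 ∂μ := by
    have h2 : (fun x => (c x - a (T^[n] x) * b x) ^ 2) =
        fun x => (c x ^ 2 - 2 * (c x * (a (T^[n] x) * b x))) + a (T^[n] x) ^ 2 * b x ^ 2 := by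
      funext x
      ring
    have h3 : ∫ x, ((c x ^ 2 - 2 * (c x * (a (T^[n] x) * b x))) + a (T^[n] x) ^ 2 * b x ^ 2) ∂μ =
        ∫ x, (c x ^ 2 - 2 * (c x * (a (T^[n] x) * b x))) ∂μ + ∫ x, a (T^[n] x) ^ 2 * b x ^ 2 ∂μ :=
      integral_add (hi1.sub (hi2.const_mul 2)) hi3
    have h4 : ∫ x, (c x ^ 2 - 2 * (c x * (a (T^[n] x) * b x))) ∂μ =
        ∫ x, c x ^ 2 ∂μ - ∫ x, 2 * (c x * (a (T^[n] x) * b x)) ∂μ := integral_sub hi1 (hi2.const_mul 2)
    rw [h2, h3, h4, integral_const_mul]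
  exact hfin.symm

/-- pair mixing for a dense family implies pair mixing -/
theorem pair_of_dense (S : X × Y → X × Y) (hS : MeasurePreserving S (μ.prod ν) (μ.prod ν))
    (D : ℕ → Set (X × Y)) (hDm : ∀ i, MeasurableSet (D i))
    (hDd : ∀ A, MeasurableSet A → ∀ ε : ℝ, 0 < ε → ∃ i, (μ.prod ν).real (A ∆ D i) < ε)
    (h : ∀ f : Fin 2 → ℕ, ∀ p : ℕ, ∃ n0 : ℕ, ∀ n ≥ n0,
      |sq2 μ ν (D (f 0) ∩ S^[n] ⁻¹' D (f 1)) - sq2 μ ν (D (f 0)) * sq2 μ ν (D (f 1))| ≤ 1 / ((p : ℝ) + 1))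
    (A B : Set (X × Y)) (hA : MeasurableSet A) (hB : MeasurableSet B) :
    Tendsto (fun n : ℕ => sq2 μ ν (B ∩ S^[n] ⁻¹' A)) atTop (𝓝 (sq2 μ ν B * sq2 μ ν A)) := by
  rw [Metric.tendsto_atTop]
  intro ε hε
  obtain ⟨i, hi⟩ := hDd B hB (ε / 16) (by positivity)
  obtain ⟨j, hj⟩ := hDd A hA (ε / 16) (by positivity)
  obtain ⟨p, hp⟩ := exists_nat_one_div_lt (show 0 < ε / 4 by positivity)
  obtain ⟨n0, hn0⟩ := h (fun k => if k = 0 then i else j) p
  refine ⟨n0, fun n hn => ?_⟩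
  have h1 : |sq2 μ ν (D i ∩ S^[n] ⁻¹' D j) - sq2 μ ν (D i) * sq2 μ ν (D j)| ≤ 1 / ((p : ℝ) + 1) := hn0 n hn
  have hSn : Measurable (S^[n]) := hS.measurable.iterate n
  rw [Real.dist_eq]
  have h2 : |sq2 μ ν (B ∩ S^[n] ⁻¹' A) - sq2 μ ν (D i ∩ S^[n] ⁻¹' D j)| ≤ ε / 4 := by
    refine le_trans (sq2_diff μ ν _ _ (hB.inter (hSn hA)) ((hDm i).inter (hSn (hDm j)))) ?_
    have hsub : (B ∩ S^[n] ⁻¹' A) ∆ (D i ∩ S^[n] ⁻¹' D j) ⊆ (B ∆ D i) ∪ S^[n] ⁻¹' (A ∆ D j) := by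
      intro w hw
      simp only [Set.mem_symmDiff, mem_inter_iff, mem_preimage, mem_union] at hw ⊢
      tauto
    have h3 : (μ.prod ν).real ((B ∩ S^[n] ⁻¹' A) ∆ (D i ∩ S^[n] ⁻¹' D j)) ≤ ε / 16 + ε / 16 := by
      refine le_trans (measureReal_mono hsub (measure_ne_top _ _)) ?_
      refine le_trans (measureReal_union_le _ _) ?_
      refine add_le_add hi.le ?_
      rw [mp_real' (hS.iterate n) (hA.symmDiff (hDm j))]
      exact hj.le
    linarith
  have h5 : |sq2 μ ν (D i) * sq2 μ ν (D j) - sq2 μ ν B * sq2 μ ν A| ≤ ε / 4 := by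
    have h6 : |sq2 μ ν (D i) - sq2 μ ν B| ≤ ε / 8 := by
      refine le_trans (sq2_diff μ ν _ _ (hDm i) hB) ?_
      rw [symmDiff_comm]
      linarith
    have h6' : |sq2 μ ν (D j) - sq2 μ ν A| ≤ ε / 8 := by
      refine le_trans (sq2_diff μ ν _ _ (hDm j) hA) ?_
      rw [symmDiff_comm]
      linarith
    have h7 := prod_close _ _ _ _ _ (sq2_nonneg μ ν B) (sq2_le μ ν _) (sq2_nonneg μ ν (D j)) (sq2_le μ ν _) h6 h6'
    linarith
  have g1 := abs_le.1 h1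
  have g2 := abs_le.1 h2
  have g3 := abs_le.1 h5
  rw [abs_lt]
  constructor
  · linarith [g1.1, g2.1, g3.1]
  · linarith [g1.2, g2.2, g3.2]

end Pool.Agent.Q132.SM
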