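import Mathlib
import Pool.Agent.W744.NG.Tower
import Pool.Agent.W585.NG.Let
import Pool.Agent.W585.NG.Gau
import Pool.Agent.W744.NG.Pol
import Pool.Agent.W337.NG.Rel
import Pool.Agent.W338.NGNEXTA
import Pool.Agent.W337.NG.Corr

set_option autoImplicit false

/-!
Existence of a mixing automorphism of a standard probability space without atoms.
-/

namespace Q132.SM

open MeasureTheory Set Filter Topology
open Pool.Agent.W744.NG
open scoped symmDiff

section
variable {X : Type} [MeasurableSpace X] {μ : Measure X}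

/-- approximation by level sets of every large level -/
theorem gen_ge {T : X → X} (W : Tow μ T) (B : Set X) (hB : MeasurableSet B) (ε : ℝ) (hε : 0 < ε) :
    ∃ j₀, ∀ j, j₀ ≤ j → ∃ s : Set (Fin (W.K j)), μ.real (B ∆ {x | W.P j x ∈ s}) < ε := by
  obtain ⟨j₀, s, hs⟩ := W.gen B hB ε hε
  refine ⟨j₀, fun j hj => ?_⟩
  induction j, hj using Nat.le_induction with
  | base => exact ⟨s, hs⟩
  | succ j hj ih =>
    obtain ⟨s', hs'⟩ := ih
    refine ⟨W.p j ⁻¹' s', ?_⟩
    have h1 : {x | W.P (j + 1) x ∈ W.p j ⁻¹' s'} = {x | W.P j x ∈ s'} := by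
      ext x
      simp only [mem_setOf_eq, mem_preimage, W.ref]
    rw [h1]
    exact hs'

theorem int_ind [IsProbabilityMeasure μ] {E : Set X} (hE : MeasurableSet E) :
    ∫ x, E.indicator (fun _ => (1 : ℂ)) x ∂μ = (μ.real E : ℂ) := by
  rw [integral_indicator_const _ hE]
  simp

theorem step [IsProbabilityMeasure μ] (T : AU μ) (W : Tow μ T.1) (j : ℕ) (s s' : Set (Fin (W.K j))) :
    Tendsto (fun d : ℕ => μ.real ({x | W.P j x ∈ s} ∩ (T.1 : X → X)^[d] ⁻¹' {x | W.P j x ∈ s'})) atTop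
      (𝓝 (μ.real {x | W.P j x ∈ s} * μ.real {x | W.P j x ∈ s'})) := by
  classical
  have hP := W.meas j
  have hS : ∀ s : Set (Fin (W.K j)), MeasurableSet {x | W.P j x ∈ s} := fun s => hP (.of_discrete)
  have hne : Nonempty X := nonempty_of_isProbabilityMeasure μ
  obtain ⟨x₀⟩ := hne
  have hK : (Fintype.card (Fin (W.K j)) : ℂ) ≠ 0 := by
    have : 0 < W.K j := lt_of_le_of_lt (Nat.zero_le _) (W.P j x₀).2
    rw [Fintype.card_fin]
    exact_mod_cast this.ne'
  let φ : Set (Fin (W.K j)) → Fin (W.K j) → ℂ := fun s i =>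
    s.indicator (fun _ => (1 : ℂ)) i - (μ.real {x | W.P j x ∈ s} : ℂ)
  have hφP : ∀ (s : Set (Fin (W.K j))) (x : X), φ s (W.P j x) =
      ({x | W.P j x ∈ s}).indicator (fun _ => (1 : ℂ)) x - (μ.real {x | W.P j x ∈ s} : ℂ) := by
    intro s x
    simp only [φ, Set.indicator, mem_setOf_eq]
  have hint : ∀ {E : Set X}, MeasurableSet E → Integrable (fun x => E.indicator (fun _ => (1 : ℂ)) x) μ :=
    fun hE => (integrable_const (1 : ℂ)).indicator hE
  have hsum : ∀ s : Set (Fin (W.K j)), ∑ i, φ s i = 0 := by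
    intro s
    have h1 := Pool.Agent.W337.NG.int_P W j hP (φ s)
    have h2 : ∫ x, φ s (W.P j x) ∂μ = 0 := by
      simp_rw [hφP]
      rw [integral_sub (hint (hS s)) (integrable_const _), int_ind (hS s)]
      simp
    rw [h2] at h1
    have h3 := h1.symm
    rw [div_eq_zero_iff] at h3
    exact h3.resolve_right hK
  have hcorr := (Pool.Agent.W337.NG.main X μ T W).1 j (φ s') (φ s) (hsum s') (hsum s)
  have h0 := hcorr.tendsto_atTop_zero
  have h0' := tendsto_zero_iff_norm_tendsto_zero.2 h0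
  have hval : ∀ n : ℕ, ∫ x, φ s' (W.P j ((T.1 : X → X)^[n] x)) * starRingEnd ℂ (φ s (W.P j x)) ∂μ =
      ((μ.real ({x | W.P j x ∈ s} ∩ (T.1 : X → X)^[n] ⁻¹' {x | W.P j x ∈ s'}) -
        μ.real {x | W.P j x ∈ s} * μ.real {x | W.P j x ∈ s'} : ℝ) : ℂ) := by
    intro n
    have hTn : MeasurePreserving ((T.1 : X → X)^[n]) μ μ := T.2.iterate n
    set S := {x | W.P j x ∈ s} with hSdef
    set S' := {x | W.P j x ∈ s'} with hSdef'
    have hSm : MeasurableSet S := hS s
    have hSm' : MeasurableSet S' := hS s'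
    have hSn : MeasurableSet ((T.1 : X → X)^[n] ⁻¹' S') := hTn.measurable hSm'
    have hpt : ∀ x, φ s' (W.P j ((T.1 : X → X)^[n] x)) * starRingEnd ℂ (φ s (W.P j x)) =
        (S ∩ (T.1 : X → X)^[n] ⁻¹' S').indicator (fun _ => (1 : ℂ)) x
        - (μ.real S : ℂ) * ((T.1 : X → X)^[n] ⁻¹' S').indicator (fun _ => (1 : ℂ)) x
        - (μ.real S' : ℂ) * S.indicator (fun _ => (1 : ℂ)) x + (μ.real S' : ℂ) * (μ.real S : ℂ) := by
      intro x
      rw [hφP, hφP]
      have e1 : (T.1 : X → X)^[n] x ∈ S' ↔ x ∈ (T.1 : X → X)^[n] ⁻¹' S' := Iff.rfl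
      have e2 : ∀ (h : x ∈ S) (h' : x ∈ (T.1 : X → X)^[n] ⁻¹' S'), x ∈ S ∩ (T.1 : X → X)^[n] ⁻¹' S' :=
        fun h h' => ⟨h, h'⟩
      have e3 : ∀ (h : x ∉ S), x ∉ S ∩ (T.1 : X → X)^[n] ⁻¹' S' := fun h h' => h h'.1
      have e4 : ∀ (h : x ∉ (T.1 : X → X)^[n] ⁻¹' S'), x ∉ S ∩ (T.1 : X → X)^[n] ⁻¹' S' := fun h h' => h h'.2
      by_cases hx : x ∈ S <;> by_cases hx' : (T.1 : X → X)^[n] x ∈ S'
      · rw [indicator_of_mem hx', indicator_of_mem hx, indicator_of_mem (e2 hx (e1.1 hx')),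
          indicator_of_mem (e1.1 hx')]
        simp only [map_sub, map_one, Complex.conj_ofReal]
        ring
      · rw [indicator_of_notMem hx', indicator_of_mem hx,
          indicator_of_notMem (e4 (fun h => hx' (e1.2 h))),
          indicator_of_notMem (fun h => hx' (e1.2 h))]
        simp only [map_sub, map_one, Complex.conj_ofReal]
        ring
      · rw [indicator_of_mem hx', indicator_of_notMem hx,
          indicator_of_notMem (e3 hx),
          indicator_of_mem (e1.1 hx')]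
        simp only [map_sub, map_zero, Complex.conj_ofReal]
        ring
      · rw [indicator_of_notMem hx', indicator_of_notMem hx,
          indicator_of_notMem (e3 hx),
          indicator_of_notMem (fun h => hx' (e1.2 h))]
        simp only [map_sub, map_zero, Complex.conj_ofReal]
        ring
    simp_rw [hpt]
    have i1 := hint (hSm.inter hSn)
    have i2 := (hint hSn).const_mul (μ.real S : ℂ)
    have i3 := (hint hSm).const_mul (μ.real S' : ℂ)
    have i12 : Integrable (fun x => (S ∩ (T.1 : X → X)^[n] ⁻¹' S').indicator (fun _ => (1 : ℂ)) x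
        - (μ.real S : ℂ) * ((T.1 : X → X)^[n] ⁻¹' S').indicator (fun _ => (1 : ℂ)) x) μ := i1.sub i2
    have i123 : Integrable (fun x => (S ∩ (T.1 : X → X)^[n] ⁻¹' S').indicator (fun _ => (1 : ℂ)) x
        - (μ.real S : ℂ) * ((T.1 : X → X)^[n] ⁻¹' S').indicator (fun _ => (1 : ℂ)) x
        - (μ.real S' : ℂ) * S.indicator (fun _ => (1 : ℂ)) x) μ := i12.sub i3
    rw [integral_add i123 (integrable_const _), integral_sub i12 i3,
      integral_sub i1 i2, integral_const_mul, integral_const_mul, int_ind (hSm.inter hSn), int_ind hSn,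
      int_ind hSm]
    have h5 : μ.real ((T.1 : X → X)^[n] ⁻¹' S') = μ.real S' := hTn.measureReal_preimage hSm'.nullMeasurableSet
    rw [h5]
    simp
  simp_rw [hval] at h0'
  have h6 : Tendsto (fun n : ℕ => μ.real ({x | W.P j x ∈ s} ∩ (T.1 : X → X)^[n] ⁻¹' {x | W.P j x ∈ s'}) -
        μ.real {x | W.P j x ∈ s} * μ.real {x | W.P j x ∈ s'}) atTop (𝓝 0) := by
    have h6' := (Complex.continuous_re.tendsto 0).comp h0'
    simpa only [Function.comp_def, Complex.ofReal_re, Complex.zero_re] using h6'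
  have h7 := h6.add_const (μ.real {x | W.P j x ∈ s} * μ.real {x | W.P j x ∈ s'})
  simpa using h7

theorem mix_of_tow [IsProbabilityMeasure μ] (T : AU μ) (W : Tow μ T.1) (A B : Set X)
    (hA : MeasurableSet A) (hB : MeasurableSet B) :
    Tendsto (fun d : ℕ => μ.real (A ∩ (T.1 : X → X)^[d] ⁻¹' B)) atTop (𝓝 (μ.real A * μ.real B)) := by
  rw [Metric.tendsto_atTop]
  intro ε hε
  obtain ⟨j₁, h1⟩ := gen_ge W A hA (ε / 5) (by positivity)
  obtain ⟨j₂, h2⟩ := gen_ge W B hB (ε / 5) (by positivity)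
  obtain ⟨s, hs⟩ := h1 (max j₁ j₂) (le_max_left _ _)
  obtain ⟨s', hs'⟩ := h2 (max j₁ j₂) (le_max_right _ _)
  have h3 := step T W (max j₁ j₂) s s'
  rw [Metric.tendsto_atTop] at h3
  obtain ⟨N, hN⟩ := h3 (ε / 5) (by positivity)
  refine ⟨N, fun n hn => ?_⟩
  have h4 := hN n hn
  have hP := W.meas (max j₁ j₂)
  have hSm : MeasurableSet {x | W.P (max j₁ j₂) x ∈ s} := hP (.of_discrete)
  have hSm' : MeasurableSet {x | W.P (max j₁ j₂) x ∈ s'} := hP (.of_discrete)
  generalize {x | W.P (max j₁ j₂) x ∈ s} = S at *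
  generalize {x | W.P (max j₁ j₂) x ∈ s'} = S' at *
  have hTn : MeasurePreserving ((T.1 : X → X)^[n]) μ μ := T.2.iterate n
  have e1 : |μ.real A - μ.real S| ≤ μ.real (A ∆ S) :=
    abs_measureReal_sub_le_measureReal_symmDiff hA.nullMeasurableSet hSm.nullMeasurableSet
  have e2 : |μ.real B - μ.real S'| ≤ μ.real (B ∆ S') :=
    abs_measureReal_sub_le_measureReal_symmDiff hB.nullMeasurableSet hSm'.nullMeasurableSet
  have e3 : |μ.real (A ∩ (T.1 : X → X)^[n] ⁻¹' B) - μ.real (S ∩ (T.1 : X → X)^[n] ⁻¹' S')| ≤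
      μ.real (A ∆ S) + μ.real (B ∆ S') := by
    refine le_trans (abs_measureReal_sub_le_measureReal_symmDiff
      (hA.inter (hTn.measurable hB)).nullMeasurableSet (hSm.inter (hTn.measurable hSm')).nullMeasurableSet) ?_
    have h5 : (A ∩ (T.1 : X → X)^[n] ⁻¹' B) ∆ (S ∩ (T.1 : X → X)^[n] ⁻¹' S') ⊆
        (A ∆ S) ∪ (T.1 : X → X)^[n] ⁻¹' (B ∆ S') := by
      intro x hx
      simp only [Set.mem_symmDiff, mem_inter_iff, mem_preimage, mem_union] at hx ⊢
      tauto
    refine le_trans (measureReal_mono h5) (le_trans (measureReal_union_le _ _) ?_)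
    rw [hTn.measureReal_preimage (hB.symmDiff hSm').nullMeasurableSet]
  have b1 : |μ.real A| ≤ 1 := by
    rw [abs_of_nonneg measureReal_nonneg]
    exact measureReal_le_one
  have b2 : |μ.real S'| ≤ 1 := by
    rw [abs_of_nonneg measureReal_nonneg]
    exact measureReal_le_one
  have e4 : |μ.real S * μ.real S' - μ.real A * μ.real B| ≤ μ.real (A ∆ S) + μ.real (B ∆ S') := by
    have h6 : μ.real S * μ.real S' - μ.real A * μ.real B =
        -((μ.real A - μ.real S) * μ.real S') - μ.real A * (μ.real B - μ.real S') := by ring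
    rw [h6]
    refine le_trans (abs_sub _ _) ?_
    rw [abs_neg, abs_mul, abs_mul]
    have h7 : |μ.real A - μ.real S| * |μ.real S'| ≤ |μ.real A - μ.real S| * 1 :=
      mul_le_mul_of_nonneg_left b2 (abs_nonneg _)
    have h8 : |μ.real A| * |μ.real B - μ.real S'| ≤ 1 * |μ.real B - μ.real S'| :=
      mul_le_mul_of_nonneg_right b1 (abs_nonneg _)
    linarith
  rw [Real.dist_eq] at h4 ⊢
  have h9 : μ.real (A ∩ (T.1 : X → X)^[n] ⁻¹' B) - μ.real A * μ.real B =
      (μ.real (A ∩ (T.1 : X → X)^[n] ⁻¹' B) - μ.real (S ∩ (T.1 : X → X)^[n] ⁻¹' S')) +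
      (μ.real (S ∩ (T.1 : X → X)^[n] ⁻¹' S') - μ.real S * μ.real S') +
      (μ.real S * μ.real S' - μ.real A * μ.real B) := by ring
  rw [h9]
  refine lt_of_le_of_lt (abs_add_three _ _ _) ?_
  linarith

end

/-- a standard probability space without atoms has a mixing automorphism -/
theorem exists_mixing (X : Type) [MeasurableSpace X] [StandardBorelSpace X] (μ : Measure X)
    [IsProbabilityMeasure μ] [NullSingletonClass μ] :
    ∃ T : X ≃ᵐ X, MeasurePreserving T μ μ ∧ ∀ A B : Set X, MeasurableSet A → MeasurableSet B →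
      Tendsto (fun d : ℕ => μ.real (A ∩ (T : X → X)^[d] ⁻¹' B)) atTop (𝓝 (μ.real A * μ.real B)) := by
  have hA : S_NextA := Pool.Agent.W338.NGNEXTA.main Pool.Agent.W585.NG.letters
    Pool.Agent.W585.NG.gauge_letters Pol.pol
  have htower : S_Tower := Tower.main (Pool.Agent.W337.NG.Re.main hA)
  obtain ⟨T, ⟨W⟩⟩ := htower X μ
  exact ⟨T.1, T.2, fun A B hA hB => mix_of_tow T W A B hA hB⟩

end Q132.SM
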